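import Mathlib

/-!
Combinatorial part of the disproof of the monotonicity of the tree stabbing number: a certificate
for the fact that for every connected graph on `8` vertices one of `28` given bipartitions of the
vertex set is crossed by at least four edges.

Vertices are the numbers `0, …, 7`, the edge `{u, v}` with `u < v` has the number `8 u + v`, and a
set of vertices is given by a number `m < 256`, through its binary digits.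
-/

set_option autoImplicit false
set_option maxRecDepth 100000

namespace Pool.Agent.W2helper81.StabCert

/-- Certificates: `b e y n` branches on the edge with number `e` (`y`: it is in the graph, `n`: it
is not), `l m` says that at least four edges known to be in the graph cross the bipartition `m`,
and `c m` says that all edges crossing `m` are known not to be in the graph. -/
inductive Cert where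
  | b (e : ℕ) (y n : Cert)
  | l (m : ℕ)
  | c (m : ℕ)

/-- the numbers of the edges -/
def edges : List ℕ := [1, 2, 3, 4, 5, 6, 7, 10, 11, 12, 13, 14, 15, 19, 20, 21, 22, 23, 28, 29, 30,
  31, 37, 38, 39, 46, 47, 55]

/-- the bipartitions -/
def masks : List ℕ := [2, 8, 10, 12, 34, 40, 42, 44, 46, 60, 64, 68, 72, 76, 92, 108, 124, 128,
  130, 162, 192, 194, 196, 204, 208, 210, 212, 220]

/-- the edge `e` crosses the bipartition `m` -/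
def cross (m e : ℕ) : Bool := m.testBit (e / 8) != m.testBit (e % 8)

/-- check a certificate -/
def check (inc exc : ℕ) : Cert → Bool
  | .b e y n => check (inc ||| 2 ^ e) exc y && check inc (exc ||| 2 ^ e) n
  | .l m => masks.contains m && Nat.ble 4 (edges.countP fun e => inc.testBit e && cross m e)
  | .c m => Nat.ble 1 m && Nat.ble m 254 && edges.all fun e => !cross m e || exc.testBit e

/-- the vertex with number `k` -/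
def vtx (k : ℕ) : Fin 8 := ⟨k % 8, Nat.mod_lt _ (by norm_num)⟩

/-- the edge with number `e` is an edge of `G` -/
def AdjE (G : SimpleGraph (Fin 8)) (e : ℕ) : Prop := G.Adj (vtx (e / 8)) (vtx (e % 8))

lemma edge_index : ∀ u v : Fin 8, u < v → (8 * u.1 + v.1) ∈ edges := by decide

lemma exists_in : ∀ m : Fin 256, 1 ≤ m.1 → m.1 ≤ 254 →
    (∃ u : Fin 8, m.1.testBit u.1 = true) ∧ (∃ v : Fin 8, m.1.testBit v.1 = false) := by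
  decide +kernel

open Classical in
theorem sound (G : SimpleGraph (Fin 8)) (hG : G.Connected) (t : Cert) :
    ∀ inc exc : ℕ, (∀ e ∈ edges, inc.testBit e = true → AdjE G e) →
      (∀ e ∈ edges, exc.testBit e = true → ¬ AdjE G e) → check inc exc t = true →
      ∃ m ∈ masks, 4 ≤ edges.countP (fun e => decide (AdjE G e) && cross m e) := by
  induction t with
  | b e y n ihy ihn =>
    intro inc exc h1 h2 h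
    rw [check, Bool.and_eq_true] at h
    by_cases he : AdjE G e
    · refine ihy _ _ ?_ h2 h.1
      intro e' he' hb
      rw [Nat.testBit_or, Bool.or_eq_true] at hb
      rcases hb with hb | hb
      · exact h1 e' he' hb
      · rw [Nat.testBit_two_pow, decide_eq_true_eq] at hb
        rw [← hb]; exact he
    · refine ihn _ _ h1 ?_ h.2
      intro e' he' hb
      rw [Nat.testBit_or, Bool.or_eq_true] at hb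
      rcases hb with hb | hb
      · exact h2 e' he' hb
      · rw [Nat.testBit_two_pow, decide_eq_true_eq] at hb
        rw [← hb]; exact he
  | l m =>
    intro inc exc h1 h2 h
    rw [check, Bool.and_eq_true] at h
    refine ⟨m, by simpa using h.1, le_trans (Nat.le_of_ble_eq_true h.2) ?_⟩
    apply List.countP_mono_left
    intro e he hb
    rw [Bool.and_eq_true] at hb ⊢
    exact ⟨decide_eq_true (h1 e he hb.1), hb.2⟩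
  | c m =>
    intro inc exc h1 h2 h
    exfalso
    rw [check, Bool.and_eq_true, Bool.and_eq_true] at h
    obtain ⟨⟨h3, h4⟩, h5⟩ := h
    have h3 := Nat.le_of_ble_eq_true h3
    have h4 := Nat.le_of_ble_eq_true h4
    obtain ⟨⟨a, ha⟩, ⟨d, hd⟩⟩ := exists_in ⟨m, by omega⟩ h3 h4
    simp only at ha hd
    obtain ⟨w⟩ := hG.preconnected a d
    obtain ⟨x, _, hx1, hx2⟩ := w.exists_boundary_dart {u : Fin 8 | m.testBit u.1 = true} ha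
      (by simp [hd])
    have hadj := x.adj
    simp only [Set.mem_ofPred_eq, Bool.not_eq_true] at hx1 hx2
    rw [List.all_eq_true] at h5
    rcases lt_or_gt_of_ne hadj.ne with hlt | hlt
    · have hm := edge_index _ _ hlt
      have e1 : (8 * x.fst.1 + x.snd.1) / 8 = x.fst.1 := by have := x.snd.2; omega
      have e2 : (8 * x.fst.1 + x.snd.1) % 8 = x.snd.1 := by have := x.snd.2; omega
      have h6 := h5 _ hm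
      rw [cross, e1, e2, hx1, hx2] at h6
      refine h2 _ hm (by simpa using h6) ?_
      have f1 : vtx x.fst.1 = x.fst := Fin.ext (Nat.mod_eq_of_lt x.fst.2)
      have f2 : vtx x.snd.1 = x.snd := Fin.ext (Nat.mod_eq_of_lt x.snd.2)
      rw [AdjE, e1, e2, f1, f2]
      exact hadj
    · have hm := edge_index _ _ hlt
      have e1 : (8 * x.snd.1 + x.fst.1) / 8 = x.snd.1 := by have := x.fst.2; omega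
      have e2 : (8 * x.snd.1 + x.fst.1) % 8 = x.fst.1 := by have := x.fst.2; omega
      have h6 := h5 _ hm
      rw [cross, e1, e2, hx1, hx2] at h6
      refine h2 _ hm (by simpa using h6) ?_
      have f1 : vtx x.fst.1 = x.fst := Fin.ext (Nat.mod_eq_of_lt x.fst.2)
      have f2 : vtx x.snd.1 = x.snd := Fin.ext (Nat.mod_eq_of_lt x.snd.2)
      rw [AdjE, e1, e2, f1, f2]
      exact hadj.symm

def t0 : Cert := (.b 23 (.b 4 (.l 60) (.b 5 (.l 44) (.b 6 (.l 76) (.b 12 (.l 60) (.b 13 (.l 44) (.b 14 (.l 76) (.b 20 (.l 12) (.b 21 (.l 12) (.b 22 (.l 12) (.b 28 (.l 12) (.b 29 (.l 12) (.b 30 (.l 12) (.b 31 (.l 12) (.b 37 (.l 44) (.b 38 (.l 60) (.b 39 (.l 60) (.b 46 (.l 44) (.b 47 (.l 44) (.b 55 (.l 76) (.c 16)))))))))))))))))))) (.b 21 (.b 4 (.l 92) (.b 5 (.l 40) (.b 6 (.l 76) (.b 7 (.l 204)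 (.b 12 (.l 92) (.b 13 (.l 40) (.b 14 (.l 76) (.b 15 (.l 204) (.b 19 (.l 40) (.b 20 (.l 12) (.b 22 (.l 12) (.b 28 (.l 12) (.b 29 (.l 12) (.b 30 (.l 12) (.b 31 (.l 12) (.b 37 (.l 40) (.b 38 (.l 76) (.b 39 (.l 92) (.b 46 (.l 40) (.b 47 (.l 40) (.b 55 (.l 76) (.c 11)))))))))))))))))))))) (.b 20 (.b 5 (.l 44) (.b 6 (.l 76) (.b 7 (.l 204) (.b 13 (.l 44) (.b 14 (.l 76) (.b 15 (.l 204) (.b 22 (.l 12) (.b 28 (.l 12) (.b 29 (.l 12) (.b 30 (.l 12) (.b 31 (.l 12) (.b 37 (.l 44) (.b 38 (.l 76) (.b 39 (.l 204) (.b 46 (.l 44) (.b 47 (.l 44) (.b 55 (.l 76) (.c 31)))))))))))))))))) (.b 22 (.b 4 (.l 60) (.b 5 (.l 44) (.b 6 (.l 72) (.b 12 (.l 60) (.b 13 (.l 44) (.b 14 (.l 72) (.b 19 (.l 72) (.b 28 (.l 12) (.b 29 (.l 12) (.b 30 (.l 12) (.b 31 (.l 12) (.b 37 (.l 44) (.b 38 (.l 60) (.b 39 (.l 60) (.b 46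 (.l 44) (.b 47 (.l 44) (.b 55 (.l 72) (.c 16)))))))))))))))))) (.b 19 (.b 5 (.l 40) (.b 6 (.l 72) (.b 13 (.l 40) (.b 14 (.l 72) (.b 28 (.l 8) (.b 29 (.l 8) (.b 30 (.l 8) (.b 31 (.l 8) (.b 37 (.l 40) (.b 38 (.l 72) (.b 46 (.l 40) (.b 47 (.l 40) (.b 55 (.l 72) (.c 32)))))))))))))) (.c 4))))))

def t1 : Cert := (.b 37 (.b 1 (.l 42) (.b 2 (.l 44) (.b 4 (.l 92) (.b 5 (.l 42) (.b 6 (.l 92) (.b 7 (.l 220) (.b 13 (.l 44) (.b 14 (.l 42) (.b 15 (.l 42) (.b 19 (.l 42) (.b 20 (.l 44) (.b 21 (.l 42) (.b 22 (.l 44) (.b 23 (.l 44) (.b 29 (.l 92) (.b 30 (.l 42) (.b 31 (.l 42) (.b 38 (.l 108) (.b 39 (.l 92) (.b 46 (.l 42) (.b 47 (.l 42) (.b 55 (.l 92) (.c 6))))))))))))))))))))))) (.b 20 (.b 2 (.l 12) (.b 5 (.l 44) (.b 6 (.l 76) (.b 7 (.l 204) (.b 13 (.l 44) (.b 14 (.l 76) (.b 15 (.l 204) (.b 21 (.l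 12) (.b 22 (.l 12) (.b 23 (.l 12) (.b 29 (.l 12) (.b 30 (.l 12) (.b 31 (.l 12) (.b 38 (.l 76) (.b 39 (.l 204) (.b 46 (.l 44) (.b 47 (.l 44) (.b 55 (.l 76) (.c 31))))))))))))))))))) (.b 38 (.b 2 (.l 60) (.b 4 (.l 60) (.b 5 (.l 60) (.b 6 (.l 76) (.b 7 (.l 204) (.b 13 (.l 60) (.b 14 (.l 76) (.b 15 (.l 204) (.b 21 (.l 76) (.b 22 (.l 60) (.b 23 (.l 60) (.b 29 (.l 76) (.b 30 (.l 60) (.b 31 (.l 60) (.b 39 (.l 60) (.b 46 (.l 60) (.b 47 (.l 60) (.b 55 (.l 76) (.c 15))))))))))))))))))) (.b 39 (.b 2 (.l 60) (.b 4 (.l 60) (.b 5 (.l 60) (.b 6 (.l 92) (.b 7 (.l 204) (.b 13 (.l 60) (.b 14 (.l 92) (.b 15 (.l 204) (.b 21 (.l 92) (.b 22 (.l 60) (.b 23 (.l 60) (.b 29 (.l 92) (.b 30 (.l 60) (.b 31 (.l 60) (.b 46 (.l 60) (.b 47 (.l 60) (.b 55 (.l 92) (.c 15)))))))))))))))))) (.b 4 (.b 2 (.l 60) (.b 5 (.l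 60) (.b 6 (.l 92) (.b 7 (.l 220) (.b 13 (.l 60) (.b 14 (.l 92) (.b 15 (.l 220) (.b 21 (.l 92) (.b 22 (.l 60) (.b 23 (.l 60) (.b 29 (.l 92) (.b 30 (.l 60) (.b 31 (.l 60) (.b 46 (.l 60) (.b 47 (.l 60) (.b 55 (.l 92) (.c 31))))))))))))))))) (.c 16))))))

def t2 : Cert := (.b 23 (.b 1 (.l 46) (.b 4 (.l 92) (.b 5 (.l 46) (.b 6 (.l 76) (.b 12 (.l 46) (.b 13 (.l 108) (.b 15 (.l 46) (.b 20 (.l 46) (.b 21 (.l 76) (.b 22 (.l 46) (.b 28 (.l 46) (.b 29 (.l 76) (.b 30 (.l 46) (.b 31 (.l 46) (.b 37 (.l 46) (.b 38 (.l 76) (.b 39 (.l 92) (.b 46 (.l 46) (.b 47 (.l 46) (.b 55 (.l 76) (.c 16))))))))))))))))))))) (.b 21 (.b 1 (.l 42) (.b 4 (.l 92) (.b 5 (.l 42) (.b 6 (.l 76) (.b 7 (.l 204) (.b 12 (.l 42) (.b 15 (.l 42) (.b 19 (.l 42) (.b 20 (.l 76) (.b 28 (.l 42) (.b 29 (.l 76) (.b 30 (.l 42) (.b 31 (.l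 42) (.b 37 (.l 42) (.b 38 (.l 76) (.b 39 (.l 92) (.b 46 (.l 42) (.b 47 (.l 42) (.b 55 (.l 76) (.c 9)))))))))))))))))))) (.b 20 (.b 1 (.l 46) (.b 5 (.l 46) (.b 6 (.l 76) (.b 7 (.l 204) (.b 12 (.l 46) (.b 13 (.l 108) (.b 15 (.l 46) (.b 22 (.l 46) (.b 28 (.l 46) (.b 29 (.l 76) (.b 30 (.l 46) (.b 31 (.l 46) (.b 37 (.l 46) (.b 38 (.l 76) (.b 39 (.l 204) (.b 46 (.l 46) (.b 47 (.l 46) (.b 55 (.l 76) (.c 29))))))))))))))))))) (.b 19 (.b 1 (.l 10) (.b 5 (.l 42) (.b 6 (.l 72) (.b 12 (.l 10) (.b 13 (.l 10) (.b 15 (.l 10) (.b 22 (.l 72) (.b 28 (.l 10) (.b 29 (.l 10) (.b 30 (.l 10) (.b 31 (.l 10) (.b 37 (.l 42) (.b 38 (.l 72) (.b 46 (.l 42) (.b 47 (.l 42) (.b 55 (.l 72) (.c 32))))))))))))))))) (.b 22 (.b 1 (.l 46) (.b 5 (.l 46) (.b 6 (.l 72) (.b 12 (.l 46) (.b 15 (.l 46) (.b 28 (.l 46) (.b 29 (.l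 72) (.b 30 (.l 46) (.b 31 (.l 46) (.b 37 (.l 46) (.b 38 (.l 72) (.b 46 (.l 46) (.b 47 (.l 46) (.b 55 (.l 72) (.c 102))))))))))))))) (.c 4))))))

def t3 : Cert := (.b 23 (.b 1 (.l 46) (.b 4 (.l 60) (.b 5 (.l 46) (.b 6 (.l 92) (.b 13 (.l 60) (.b 15 (.l 46) (.b 20 (.l 46) (.b 21 (.l 92) (.b 22 (.l 46) (.b 28 (.l 46) (.b 29 (.l 92) (.b 30 (.l 46) (.b 31 (.l 46) (.b 37 (.l 46) (.b 38 (.l 60) (.b 39 (.l 60) (.b 46 (.l 46) (.b 47 (.l 46) (.b 55 (.l 92) (.c 18)))))))))))))))))))) (.b 21 (.b 1 (.l 42) (.b 4 (.l 92) (.b 5 (.l 42) (.b 6 (.l 92) (.b 7 (.l 220) (.b 15 (.l 42) (.b 19 (.l 42) (.b 28 (.l 42) (.b 29 (.l 92) (.b 30 (.l 42) (.b 31 (.l 42) (.b 37 (.l 42) (.b 39 (.l 92) (.b 46 (.l 42) (.b 47 (.l 42) (.b 55 (.l 92) (.c 9))))))))))))))))) (.b 22 (.b 1 (.l 46) (.b 4 (.l 60) (.b 5 (.l 46) (.b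 13 (.l 60) (.b 15 (.l 46) (.b 20 (.l 46) (.b 28 (.l 46) (.b 30 (.l 46) (.b 31 (.l 46) (.b 37 (.l 46) (.b 38 (.l 60) (.b 39 (.l 60) (.b 46 (.l 46) (.b 47 (.l 46) (.c 18))))))))))))))) (.b 19 (.b 1 (.l 10) (.b 5 (.l 42) (.b 13 (.l 10) (.b 15 (.l 10) (.b 28 (.l 10) (.b 29 (.l 10) (.b 30 (.l 10) (.b 31 (.l 10) (.b 37 (.l 42) (.b 46 (.l 42) (.b 47 (.l 42) (.c 32)))))))))))) (.b 20 (.b 1 (.l 46) (.b 5 (.l 46) (.b 15 (.l 46) (.b 28 (.l 46) (.b 30 (.l 46) (.b 31 (.l 46) (.b 37 (.l 46) (.b 46 (.l 46) (.b 47 (.l 46) (.b 29 (.b 4 (.l 92) (.b 6 (.l 76) (.b 7 (.l 204) (.b 13 (.l 10) (.b 38 (.l 76) (.b 39 (.l 92) (.b 55 (.l 76) (.c 22)))))))) (.b 13 (.b 4 (.l 60) (.b 6 (.l 108) (.b 38 (.l 60) (.b 39 (.l 60) (.b 55 (.l 108) (.c 54)))))) (.c 32)))))))))))) (.c 4))))))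

def t4 : Cert := (.b 2 (.b 4 (.l 60) (.b 5 (.l 44) (.b 6 (.l 108) (.b 20 (.l 44) (.b 22 (.l 44) (.b 28 (.l 44) (.b 30 (.l 44) (.b 31 (.l 44) (.b 37 (.l 44) (.b 38 (.l 60) (.b 39 (.l 60) (.b 46 (.l 44) (.b 47 (.l 44) (.b 55 (.l 108) (.c 16))))))))))))))) (.b 20 (.b 5 (.l 44) (.b 6 (.l 108) (.b 22 (.l 44) (.b 28 (.l 44) (.b 30 (.l 44) (.b 31 (.l 44) (.b 37 (.l 44) (.b 38 (.l 108) (.b 46 (.l 44) (.b 47 (.l 44) (.b 55 (.l 108) (.c 64)))))))))))) (.b 22 (.b 4 (.l 60) (.b 5 (.l 44) (.b 28 (.l 44) (.b 30 (.l 44) (.b 31 (.l 44) (.b 37 (.l 44) (.b 38 (.l 60) (.b 39 (.l 60) (.b 46 (.l 44) (.b 47 (.l 44) (.c 16))))))))))) (.b 19 (.b 1 (.l 10) (.b 5 (.l 40) (.b 15 (.l 10) (.b 21 (.l 40) (.b 28 (.l 10) (.b 29 (.l 10) (.b 30 (.l 10) (.b 31 (.l 10) (.b 37 (.l 40) (.b 46 (.l 40) (.b 47 (.l 40) (.c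 34)))))))))))) (.b 21 (.b 5 (.l 40) (.b 28 (.l 40) (.b 30 (.l 40) (.b 31 (.l 40) (.b 37 (.l 40) (.b 46 (.l 40) (.b 47 (.l 40) (.b 38 (.b 4 (.l 60) (.b 6 (.l 76) (.b 7 (.l 204) (.b 15 (.l 204) (.b 29 (.l 76) (.b 39 (.l 60) (.b 55 (.l 76) (.c 47)))))))) (.b 39 (.b 4 (.l 60) (.b 6 (.l 92) (.b 7 (.l 204) (.b 15 (.l 204) (.b 29 (.l 92) (.b 55 (.l 92) (.c 47))))))) (.b 4 (.b 6 (.l 92) (.b 7 (.l 220) (.b 15 (.l 220) (.b 29 (.l 92) (.b 55 (.l 92) (.c 63)))))) (.c 16))))))))))) (.c 4))))))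

def t5 : Cert := (.b 21 (.b 1 (.l 42) (.b 4 (.l 220) (.b 5 (.l 42) (.b 6 (.l 204) (.b 7 (.l 204) (.b 19 (.l 42) (.b 20 (.l 204) (.b 28 (.l 42) (.b 29 (.l 204) (.b 30 (.l 42) (.b 31 (.l 42) (.b 37 (.l 42) (.b 38 (.l 204) (.b 39 (.l 204) (.b 46 (.l 42) (.b 47 (.l 42) (.c 9))))))))))))))))) (.b 23 (.b 1 (.l 46) (.b 5 (.l 46) (.b 20 (.l 46) (.b 22 (.l 46) (.b 28 (.l 46) (.b 30 (.l 46) (.b 31 (.l 46) (.b 37 (.l 46) (.b 46 (.l 46) (.b 47 (.l 46) (.b 29 (.b 4 (.l 92) (.b 6 (.l 76) (.b 7 (.l 204) (.b 19 (.l 10) (.b 38 (.l 76) (.b 39 (.l 92) (.b 55 (.l 76) (.c 16)))))))) (.c 32)))))))))))) (.b 20 (.b 1 (.l 46) (.b 5 (.l 46) (.b 6 (.l 204) (.b 7 (.l 204) (.b 22 (.l 46) (.b 28 (.l 46) (.b 29 (.l 204) (.b 30 (.l 46) (.b 31 (.l 46) (.b 37 (.l 46) (.b 38 (.l 204) (.b 39 (.l 204) (.b 46 (.l 46) (.b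 47 (.l 46) (.c 29))))))))))))))) (.b 19 (.b 1 (.l 10) (.b 5 (.l 42) (.b 28 (.l 10) (.b 29 (.l 10) (.b 30 (.l 10) (.b 31 (.l 10) (.b 37 (.l 42) (.b 46 (.l 42) (.b 47 (.l 42) (.c 32)))))))))) (.b 22 (.b 1 (.l 46) (.b 5 (.l 46) (.b 28 (.l 46) (.b 30 (.l 46) (.b 31 (.l 46) (.b 37 (.l 46) (.b 46 (.l 46) (.b 47 (.l 46) (.b 29 (.b 4 (.l 220) (.b 6 (.l 72) (.b 7 (.l 204) (.b 38 (.l 72) (.b 39 (.l 204) (.b 55 (.l 72) (.c 16))))))) (.c 32)))))))))) (.c 4))))))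

def t6 : Cert := (.b 21 (.b 5 (.l 42) (.b 19 (.l 42) (.b 28 (.l 42) (.b 30 (.l 42) (.b 31 (.l 42) (.b 37 (.l 42) (.b 46 (.l 42) (.b 47 (.l 42) (.b 29 (.b 4 (.l 92) (.b 6 (.l 76) (.b 7 (.l 162) (.b 20 (.l 12) (.b 22 (.l 12) (.b 38 (.l 76) (.b 39 (.l 92) (.b 55 (.l 76) (.c 16))))))))) (.b 20 (.b 6 (.l 76) (.b 7 (.l 204) (.b 22 (.l 12) (.b 38 (.l 76) (.b 39 (.l 204) (.b 55 (.l 76) (.c 63))))))) (.b 22 (.b 6 (.b 4 (.l 92) (.b 7 (.l 194) (.b 38 (.l 72) (.b 39 (.l 92) (.b 55 (.l 72) (.c 16)))))) (.b 7 (.b 4 (.l 210) (.b 38 (.l 194) (.b 39 (.l 162) (.b 55 (.l 162) (.c 16))))) (.b 4 (.b 38 (.l 60) (.b 39 (.l 60) (.b 55 (.l 92) (.c 27)))) (.c 11)))) (.c 36)))))))))))) (.b 19 (.b 5 (.l 42) (.b 28 (.l 10) (.b 29 (.l 10) (.b 30 (.l 10) (.b 31 (.l 10) (.b 37 (.l 42) (.b 46 (.l 42) (.b 47 (.l 42)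 (.c 32))))))))) (.b 20 (.b 5 (.l 46) (.b 22 (.l 46) (.b 28 (.l 46) (.b 30 (.l 46) (.b 31 (.l 46) (.b 37 (.l 46) (.b 46 (.l 46) (.b 47 (.l 46) (.b 29 (.b 6 (.l 76) (.b 7 (.l 204) (.b 38 (.l 76) (.b 39 (.l 204) (.b 55 (.l 76) (.c 63)))))) (.c 32)))))))))) (.b 22 (.b 5 (.l 46) (.b 28 (.l 46) (.b 30 (.l 46) (.b 31 (.l 46) (.b 37 (.l 46) (.b 46 (.l 46) (.b 47 (.l 46) (.b 29 (.b 6 (.l 72) (.b 38 (.l 72) (.b 55 (.l 72) (.c 68)))) (.c 32))))))))) (.c 4)))))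

def t7 : Cert := (.b 13 (.b 23 (.b 2 (.l 44) (.b 4 (.l 60) (.b 5 (.l 44) (.b 6 (.l 108) (.b 20 (.l 44) (.b 22 (.l 44) (.b 28 (.l 44) (.b 30 (.l 44) (.b 31 (.l 44) (.b 37 (.l 44) (.b 38 (.l 60) (.b 39 (.l 60) (.b 46 (.l 44) (.b 47 (.l 44) (.b 55 (.l 108) (.c 16)))))))))))))))) t4) (.b 15 (.b 2 (.b 1 (.l 46) (.b 4 (.l 220) (.b 5 (.l 46) (.b 6 (.l 204) (.b 7 (.l 204) (.b 20 (.l 46) (.b 21 (.l 204) (.b 22 (.l 46) (.b 23 (.l 46) (.b 28 (.l 46) (.b 29 (.l 204) (.b 30 (.l 46) (.b 31 (.l 46) (.b 37 (.l 46) (.b 38 (.l 204) (.b 39 (.l 204) (.b 46 (.l 46) (.b 47 (.l 46) (.c 13))))))))))))))))))) t5) (.b 1 (.b 23 (.b 2 (.l 46) (.b 5 (.l 46) (.b 20 (.l 46) (.b 22 (.l 46) (.b 28 (.l 46) (.b 30 (.l 46) (.b 31 (.l 46) (.b 37 (.l 46) (.b 46 (.l 46) (.b 47 (.l 46) (.b 21 (.b 4 (.l 92) (.b 6 (.l 76)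 (.b 7 (.l 162) (.b 19 (.l 42) (.b 29 (.l 12) (.b 38 (.l 76) (.b 39 (.l 92) (.b 55 (.l 76) (.c 11))))))))) (.b 29 (.b 4 (.l 92) (.b 6 (.l 76) (.b 7 (.l 162) (.b 19 (.l 10) (.b 38 (.l 76) (.b 39 (.l 92) (.b 55 (.l 76) (.c 16)))))))) (.c 32))))))))))))) (.b 2 (.b 5 (.l 46) (.b 20 (.l 46) (.b 22 (.l 46) (.b 28 (.l 46) (.b 30 (.l 46) (.b 31 (.l 46) (.b 37 (.l 46) (.b 46 (.l 46) (.b 47 (.l 46) (.b 21 (.b 4 (.l 92) (.b 6 (.l 76) (.b 7 (.l 204) (.b 38 (.l 76) (.b 39 (.l 92) (.b 55 (.l 76) (.c 16))))))) (.b 29 (.b 4 (.l 92) (.b 6 (.l 76) (.b 7 (.l 204) (.b 38 (.l 76) (.b 39 (.l 92) (.b 55 (.l 76) (.c 16))))))) (.c 32)))))))))))) t6)) (.c 2))))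

def t8 : Cert := (.b 10 (.b 28 (.b 1 (.l 10) (.b 2 (.l 12) (.b 5 (.l 42) (.b 6 (.l 76) (.b 7 (.l 204) (.b 12 (.l 10) (.b 13 (.l 10) (.b 14 (.l 10) (.b 15 (.l 10) (.b 19 (.l 10) (.b 20 (.l 12) (.b 21 (.l 12) (.b 22 (.l 12) (.b 23 (.l 12) (.b 29 (.l 10) (.b 30 (.l 10) (.b 31 (.l 10) (.b 37 (.l 42) (.b 38 (.l 76) (.b 39 (.l 204) (.b 46 (.l 42) (.b 47 (.l 42) (.b 55 (.l 76) (.c 6)))))))))))))))))))))))) (.b 12 (.b 1 (.l 10) (.b 2 (.l 60) (.b 4 (.l 60) (.b 5 (.l 42) (.b 6 (.l 92) (.b 7 (.l 220) (.b 13 (.l 10) (.b 14 (.l 10) (.b 15 (.l 10) (.b 19 (.l 10) (.b 21 (.l 42) (.b 22 (.l 60) (.b 23 (.l 60) (.b 29 (.l 10) (.b 30 (.l 10) (.b 31 (.l 10) (.b 37 (.l 42) (.b 38 (.l 60) (.b 39 (.l 60) (.b 46 (.l 42) (.b 47 (.l 42) (.b 55 (.l 92) (.c 9))))))))))))))))))))))) t1)) (.b 14 (.b 2 (.b 1 (.l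 46) (.b 4 (.l 92) (.b 5 (.l 46) (.b 6 (.l 76) (.b 7 (.l 204) (.b 12 (.l 46) (.b 13 (.l 108) (.b 15 (.l 46) (.b 20 (.l 46) (.b 21 (.l 76) (.b 22 (.l 46) (.b 23 (.l 46) (.b 28 (.l 46) (.b 29 (.l 76) (.b 30 (.l 46) (.b 31 (.l 46) (.b 37 (.l 46) (.b 38 (.l 76) (.b 39 (.l 92) (.b 46 (.l 46) (.b 47 (.l 46) (.b 55 (.l 76) (.c 13))))))))))))))))))))))) t2) (.b 12 (.b 2 (.b 1 (.l 46) (.b 4 (.l 60) (.b 5 (.l 46) (.b 6 (.l 92) (.b 7 (.l 220) (.b 13 (.l 60) (.b 15 (.l 46) (.b 20 (.l 46) (.b 21 (.l 92) (.b 22 (.l 46) (.b 23 (.l 46) (.b 28 (.l 46) (.b 29 (.l 92) (.b 30 (.l 46) (.b 31 (.l 46) (.b 37 (.l 46) (.b 38 (.l 60) (.b 39 (.l 60) (.b 46 (.l 46) (.b 47 (.l 46) (.b 55 (.l 92) (.c 13)))))))))))))))))))))) t3) t7)))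

def t9 : Cert := (.b 11 (.b 1 (.l 194) (.b 2 (.l 76) (.b 4 (.l 92) (.b 5 (.l 108) (.b 7 (.l 194) (.b 12 (.l 92) (.b 13 (.l 108) (.b 19 (.l 72) (.b 20 (.l 76) (.b 21 (.l 76) (.b 22 (.l 72) (.b 23 (.l 76) (.b 28 (.l 72) (.b 29 (.l 72) (.b 30 (.l 194) (.b 37 (.l 92) (.b 38 (.l 72) (.b 39 (.l 92) (.b 46 (.l 72) (.b 47 (.l 108) (.b 55 (.l 72) (.c 4)))))))))))))))))))))) (.b 12 (.b 1 (.l 194) (.b 2 (.l 92) (.b 4 (.l 92) (.b 5 (.l 124) (.b 7 (.l 194) (.b 13 (.l 124) (.b 15 (.l 208) (.b 19 (.l 212) (.b 20 (.l 208) (.b 21 (.l 92) (.b 22 (.l 194) (.b 23 (.l 92) (.b 28 (.l 208) (.b 29 (.l 92) (.b 30 (.l 194) (.b 37 (.l 92) (.b 38 (.l 194) (.b 39 (.l 92) (.b 46 (.l 92) (.b 47 (.l 124) (.b 55 (.l 92) (.c 4)))))))))))))))))))))) (.b 15 (.b 2 (.l 196) (.b 4 (.l 208) (.b 7 (.l 192) (.b 19 (.l 196)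 (.b 20 (.l 196) (.b 21 (.l 196) (.b 22 (.l 192) (.b 23 (.l 192) (.b 28 (.l 208) (.b 30 (.l 192) (.b 37 (.l 208) (.b 38 (.l 192) (.b 39 (.l 192) (.b 46 (.l 192) (.b 47 (.l 192) (.c 4)))))))))))))))) (.b 13 (.b 1 (.l 194) (.b 2 (.l 108) (.b 4 (.l 124) (.b 5 (.l 108) (.b 7 (.l 194) (.b 20 (.l 108) (.b 22 (.l 194) (.b 23 (.l 108) (.b 28 (.l 108) (.b 30 (.l 194) (.b 37 (.l 108) (.b 38 (.l 108) (.b 39 (.l 124) (.b 46 (.l 194) (.b 47 (.l 108) (.b 55 (.l 108) (.c 16))))))))))))))))) (.b 1 (.b 4 (.l 210) (.b 7 (.l 194) (.b 20 (.l 210) (.b 22 (.l 194) (.b 23 (.l 194) (.b 28 (.l 210) (.b 30 (.l 194) (.b 37 (.l 210) (.b 38 (.l 194) (.b 39 (.l 194) (.b 46 (.l 194) (.b 47 (.l 194) (.c 16))))))))))))) (.c 2))))))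

def t10 : Cert := (.b 23 (.b 1 (.l 194) (.b 2 (.l 76) (.b 4 (.l 92) (.b 5 (.l 108) (.b 7 (.l 194) (.b 10 (.l 76) (.b 12 (.l 92) (.b 13 (.l 108) (.b 14 (.l 76) (.b 20 (.l 76) (.b 21 (.l 76) (.b 22 (.l 194) (.b 28 (.l 76) (.b 29 (.l 76) (.b 30 (.l 194) (.b 37 (.l 92) (.b 38 (.l 76) (.b 39 (.l 92) (.b 46 (.l 76) (.b 55 (.l 76) (.c 16))))))))))))))))))))) (.b 55 (.b 2 (.l 76) (.b 4 (.l 92) (.b 5 (.l 108) (.b 10 (.l 76) (.b 12 (.l 92) (.b 13 (.l 108) (.b 14 (.l 72) (.b 19 (.l 72) (.b 20 (.l 76) (.b 21 (.l 76) (.b 22 (.l 72) (.b 28 (.l 72) (.b 29 (.l 72) (.b 37 (.l 92) (.b 38 (.l 72) (.b 39 (.l 92) (.b 46 (.l 72) (.c 4)))))))))))))))))) (.b 7 (.b 1 (.l 194) (.b 2 (.l 204) (.b 4 (.l 210) (.b 10 (.l 194) (.b 12 (.l 194) (.b 13 (.l 194) (.b 14 (.l 204) (.b 15 (.l 204) (.b 20 (.l 204) (.b 21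 (.l 204) (.b 22 (.l 194) (.b 28 (.l 204) (.b 29 (.l 204) (.b 30 (.l 194) (.b 37 (.l 210) (.b 38 (.l 194) (.b 39 (.l 194) (.b 46 (.l 194) (.c 14))))))))))))))))))) (.b 39 (.b 1 (.l 194) (.b 2 (.l 92) (.b 4 (.l 92) (.b 5 (.l 124) (.b 10 (.l 92) (.b 12 (.l 92) (.b 13 (.l 124) (.b 14 (.l 92) (.b 15 (.l 204) (.b 20 (.l 204) (.b 21 (.l 92) (.b 22 (.l 194) (.b 28 (.l 204) (.b 29 (.l 92) (.b 30 (.l 194) (.b 37 (.l 92) (.b 38 (.l 194) (.b 46 (.l 92) (.c 14))))))))))))))))))) (.b 15 (.b 2 (.l 204) (.b 4 (.l 220) (.b 10 (.l 204) (.b 12 (.l 220) (.b 14 (.l 204) (.b 20 (.l 204) (.b 21 (.l 204) (.b 28 (.l 204) (.b 29 (.l 204) (.b 37 (.l 220) (.b 38 (.l 204) (.b 46 (.l 204) (.c 16))))))))))))) (.c 127))))))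

def t11 : Cert := (.b 10 (.b 1 (.l 194) (.b 2 (.l 68) (.b 4 (.l 210) (.b 7 (.l 194) (.b 12 (.l 194) (.b 13 (.l 194) (.b 15 (.l 196) (.b 19 (.l 68) (.b 20 (.l 68) (.b 21 (.l 68) (.b 22 (.l 194) (.b 23 (.l 68) (.b 28 (.l 210) (.b 37 (.l 210) (.b 38 (.l 68) (.b 39 (.l 194) (.b 46 (.l 68) (.b 47 (.l 194) (.b 55 (.l 68) (.c 6)))))))))))))))))))) (.b 15 (.b 2 (.l 196) (.b 4 (.l 208) (.b 7 (.l 192) (.b 12 (.l 208) (.b 19 (.l 196) (.b 20 (.l 196) (.b 21 (.l 196) (.b 22 (.l 192) (.b 23 (.l 192) (.b 28 (.l 208) (.b 37 (.l 208) (.b 38 (.l 192) (.b 39 (.l 192) (.b 46 (.l 192) (.b 47 (.l 192) (.c 4)))))))))))))))) (.b 12 (.b 1 (.l 194) (.b 2 (.l 212) (.b 4 (.l 208) (.b 7 (.l 194) (.b 13 (.l 194) (.b 19 (.l 212) (.b 20 (.l 208) (.b 21 (.l 212) (.b 22 (.l 194) (.b 23 (.l 194) (.b 28 (.l 208) (.b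 37 (.l 208) (.b 38 (.l 194) (.b 39 (.l 194) (.b 46 (.l 194) (.b 47 (.l 194) (.c 4))))))))))))))))) (.b 13 (.b 1 (.l 194) (.b 4 (.l 210) (.b 7 (.l 194) (.b 20 (.l 210) (.b 22 (.l 194) (.b 23 (.l 194) (.b 28 (.l 210) (.b 37 (.l 210) (.b 38 (.l 194) (.b 39 (.l 194) (.b 46 (.l 194) (.b 47 (.l 194) (.c 16))))))))))))) (.b 1 (.b 4 (.l 210) (.b 7 (.l 194) (.b 20 (.l 210) (.b 22 (.l 194) (.b 23 (.l 194) (.b 28 (.l 210) (.b 37 (.l 210) (.b 38 (.l 194) (.b 39 (.l 194) (.b 46 (.l 194) (.b 47 (.l 194) (.c 16)))))))))))) (.c 2))))))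

def t12 : Cert := (.b 10 (.b 1 (.l 210) (.b 2 (.l 76) (.b 4 (.l 210) (.b 5 (.l 108) (.b 7 (.l 204) (.b 12 (.l 212) (.b 13 (.l 108) (.b 15 (.l 204) (.b 19 (.l 212) (.b 20 (.l 76) (.b 21 (.l 76) (.b 22 (.l 210) (.b 23 (.l 76) (.b 29 (.l 76) (.b 37 (.l 108) (.b 38 (.l 76) (.b 39 (.l 204) (.b 46 (.l 76) (.b 47 (.l 108) (.b 55 (.l 76) (.c 6))))))))))))))))))))) (.b 15 (.b 2 (.l 204) (.b 4 (.l 208) (.b 7 (.l 204) (.b 12 (.l 208) (.b 19 (.l 212) (.b 20 (.l 204) (.b 21 (.l 204) (.b 22 (.l 208) (.b 23 (.l 208) (.b 29 (.l 204) (.b 37 (.l 208) (.b 38 (.l 204) (.b 39 (.l 204) (.b 46 (.l 204) (.b 47 (.l 204) (.c 4)))))))))))))))) (.b 12 (.b 2 (.l 212) (.b 4 (.l 208) (.b 7 (.l 208) (.b 19 (.l 212) (.b 20 (.l 208) (.b 21 (.l 212) (.b 22 (.l 208) (.b 23 (.l 208) (.b 37 (.l 208) (.b 46 (.l 208) (.b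 47 (.l 208) (.c 4)))))))))))) (.b 13 (.b 1 (.l 210) (.b 2 (.l 108) (.b 4 (.l 210) (.b 5 (.l 108) (.b 7 (.l 210) (.b 20 (.l 108) (.b 22 (.l 210) (.b 23 (.l 108) (.b 37 (.l 108) (.b 38 (.l 108) (.b 46 (.l 210) (.b 47 (.l 108) (.b 55 (.l 108) (.c 65)))))))))))))) (.b 1 (.b 4 (.l 210) (.b 7 (.l 210) (.b 20 (.l 210) (.b 22 (.l 210) (.b 23 (.l 210) (.b 37 (.l 210) (.b 46 (.l 210) (.b 47 (.l 210) (.b 55 (.b 2 (.l 76) (.b 5 (.l 108) (.b 19 (.l 72) (.b 21 (.l 76) (.b 29 (.l 72) (.b 38 (.l 72) (.c 4))))))) (.b 39 (.b 2 (.l 204) (.b 21 (.l 204) (.b 29 (.l 204) (.b 38 (.l 194) (.c 99))))) (.c 127))))))))))) (.c 2))))))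

def t13 : Cert := (.b 13 (.b 38 (.b 1 (.l 194) (.b 2 (.l 76) (.b 5 (.l 108) (.b 7 (.l 194) (.b 19 (.l 72) (.b 20 (.l 76) (.b 21 (.l 76) (.b 22 (.l 72) (.b 23 (.l 76) (.b 37 (.l 108) (.b 39 (.l 194) (.b 46 (.l 72) (.b 47 (.l 108) (.b 55 (.l 72) (.c 4))))))))))))))) (.b 37 (.b 1 (.l 210) (.b 2 (.l 92) (.b 4 (.l 92) (.b 5 (.l 108) (.b 7 (.l 210) (.b 20 (.l 108) (.b 21 (.l 92) (.b 22 (.l 210) (.b 23 (.l 92) (.b 39 (.l 92) (.b 46 (.l 92) (.b 47 (.l 108) (.b 55 (.l 92) (.c 62)))))))))))))) (.b 20 (.b 1 (.l 210) (.b 2 (.l 76) (.b 4 (.l 210) (.b 5 (.l 108) (.b 7 (.l 204) (.b 21 (.l 76) (.b 22 (.l 210) (.b 23 (.l 76) (.b 39 (.l 204) (.b 46 (.l 76) (.b 47 (.l 108) (.b 55 (.l 76) (.c 62))))))))))))) (.b 39 (.b 1 (.l 194) (.b 2 (.l 92) (.b 4 (.l 92) (.b 5 (.l 124) (.b 7 (.l 194) (.b 21 (.l 92)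 (.b 22 (.l 194) (.b 23 (.l 92) (.b 46 (.l 92) (.b 47 (.l 124) (.b 55 (.l 92) (.c 46)))))))))))) (.b 4 (.b 1 (.l 210) (.b 2 (.l 92) (.b 5 (.l 124) (.b 7 (.l 210) (.b 21 (.l 92) (.b 22 (.l 210) (.b 23 (.l 92) (.b 46 (.l 92) (.b 47 (.l 124) (.b 55 (.l 92) (.c 46))))))))))) (.c 16)))))) (.b 1 (.b 37 (.b 2 (.l 92) (.b 4 (.l 92) (.b 5 (.l 34) (.b 7 (.l 162) (.b 20 (.l 210) (.b 21 (.l 34) (.b 22 (.l 210) (.b 23 (.l 92) (.b 39 (.l 92) (.b 46 (.l 34) (.b 47 (.l 34) (.b 55 (.l 92) (.c 127))))))))))))) (.b 38 (.b 2 (.l 76) (.b 7 (.l 194) (.b 19 (.l 72) (.b 20 (.l 76) (.b 21 (.l 76) (.b 22 (.l 72) (.b 23 (.l 76) (.b 39 (.l 194) (.b 46 (.l 72) (.b 47 (.l 194) (.b 55 (.l 72) (.c 4)))))))))))) (.b 39 (.b 2 (.l 92) (.b 4 (.l 92) (.b 5 (.l 162) (.b 7 (.l 162) (.b 20 (.l 204) (.b 21 (.l 92) (.b 22 (.l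 194) (.b 23 (.l 92) (.b 46 (.l 92) (.b 47 (.l 194) (.b 55 (.l 92) (.c 44)))))))))))) (.b 20 (.b 2 (.l 76) (.b 4 (.l 210) (.b 7 (.l 204) (.b 21 (.l 76) (.b 22 (.l 210) (.b 23 (.l 76) (.b 46 (.l 76) (.b 47 (.l 204) (.b 55 (.l 76) (.c 127)))))))))) (.b 4 (.b 2 (.l 92) (.b 7 (.l 210) (.b 21 (.l 92) (.b 22 (.l 210) (.b 23 (.l 92) (.b 46 (.l 92) (.b 47 (.l 210) (.b 55 (.l 92) (.c 127))))))))) (.c 16)))))) (.c 2)))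

def t14 : Cert := (.b 13 (.b 23 (.b 1 (.l 194) (.b 2 (.l 68) (.b 4 (.l 124) (.b 5 (.l 108) (.b 7 (.l 194) (.b 20 (.l 68) (.b 21 (.l 68) (.b 22 (.l 194) (.b 37 (.l 108) (.b 38 (.l 68) (.b 39 (.l 124) (.b 46 (.l 68) (.b 47 (.l 108) (.b 55 (.l 68) (.c 16))))))))))))))) (.b 2 (.b 4 (.l 124) (.b 5 (.l 108) (.b 7 (.l 196) (.b 20 (.l 68) (.b 21 (.l 68) (.b 37 (.l 108) (.b 38 (.l 68) (.b 39 (.l 124) (.b 46 (.l 68) (.b 47 (.l 108) (.b 55 (.l 68) (.c 16)))))))))))) (.b 21 (.b 4 (.l 212) (.b 5 (.l 40) (.b 7 (.l 196) (.b 20 (.l 68) (.b 37 (.l 40) (.b 38 (.l 68) (.b 39 (.l 196) (.b 46 (.l 40) (.b 47 (.l 40) (.b 55 (.l 68) (.c 16))))))))))) (.b 20 (.b 1 (.l 210) (.b 4 (.l 210) (.b 5 (.l 108) (.b 7 (.l 196) (.b 22 (.l 210) (.b 37 (.l 108) (.b 38 (.l 68) (.b 39 (.l 196) (.b 46 (.l 68) (.b 47 (.l 108)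 (.b 55 (.l 68) (.c 28)))))))))))) (.b 22 (.b 1 (.l 194) (.b 4 (.l 210) (.b 7 (.l 194) (.b 37 (.l 210) (.b 38 (.l 72) (.b 39 (.l 194) (.b 46 (.l 72) (.b 47 (.l 194) (.b 55 (.l 72) (.c 16)))))))))) (.c 12)))))) (.b 1 (.b 21 (.b 2 (.l 68) (.b 4 (.l 212) (.b 5 (.l 42) (.b 7 (.l 196) (.b 20 (.l 68) (.b 23 (.l 68) (.b 37 (.l 42) (.b 38 (.l 68) (.b 39 (.l 196) (.b 46 (.l 42) (.b 47 (.l 42) (.b 55 (.l 68) (.c 16))))))))))))) (.b 23 (.b 2 (.l 68) (.b 4 (.l 210) (.b 7 (.l 194) (.b 20 (.l 68) (.b 22 (.l 194) (.b 37 (.l 210) (.b 38 (.l 68) (.b 39 (.l 194) (.b 46 (.l 68) (.b 47 (.l 194) (.b 55 (.l 68) (.c 16)))))))))))) (.b 2 (.b 4 (.l 212) (.b 7 (.l 196) (.b 20 (.l 68) (.b 37 (.l 212) (.b 38 (.l 68) (.b 39 (.l 196) (.b 46 (.l 68) (.b 47 (.l 196) (.b 55 (.l 68) (.c 16)))))))))) (.b 20 (.b 4 (.l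 210) (.b 7 (.l 196) (.b 22 (.l 210) (.b 37 (.l 210) (.b 38 (.l 68) (.b 39 (.l 196) (.b 46 (.l 68) (.b 47 (.l 196) (.b 55 (.l 68) (.c 28)))))))))) (.b 22 (.b 4 (.l 210) (.b 7 (.l 194) (.b 37 (.l 210) (.b 38 (.l 72) (.b 39 (.l 194) (.b 46 (.l 72) (.b 47 (.l 194) (.b 55 (.l 72) (.c 16))))))))) (.c 12)))))) (.c 2)))

def t15 : Cert := (.b 29 (.b 14 (.b 2 (.l 76) (.b 4 (.l 92) (.b 7 (.l 204) (.b 10 (.l 76) (.b 12 (.l 92) (.b 15 (.l 204) (.b 19 (.l 72) (.b 20 (.l 76) (.b 21 (.l 76) (.b 22 (.l 72) (.b 23 (.l 76) (.b 37 (.l 92) (.b 38 (.l 72) (.b 39 (.l 92) (.b 46 (.l 72) (.b 47 (.l 204) (.b 55 (.l 72) (.c 4)))))))))))))))))) (.b 10 (.b 2 (.l 76) (.b 4 (.l 92) (.b 7 (.l 204) (.b 12 (.l 92) (.b 15 (.l 204) (.b 20 (.l 76) (.b 21 (.l 76) (.b 23 (.l 76) (.b 37 (.l 92) (.b 38 (.l 76) (.b 39 (.l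 92) (.b 46 (.l 76) (.b 47 (.l 204) (.b 55 (.l 76) (.c 16))))))))))))))) (.b 12 (.b 2 (.l 92) (.b 4 (.l 92) (.b 7 (.l 220) (.b 15 (.l 220) (.b 21 (.l 92) (.b 23 (.l 92) (.b 37 (.l 92) (.b 39 (.l 92) (.b 46 (.l 92) (.b 47 (.l 220) (.b 55 (.l 92) (.c 127)))))))))))) (.b 15 (.b 2 (.l 204) (.b 4 (.l 220) (.b 7 (.l 204) (.b 20 (.l 204) (.b 21 (.l 204) (.b 37 (.l 220) (.b 38 (.l 204) (.b 39 (.l 204) (.b 46 (.l 204) (.b 47 (.l 204) (.c 16))))))))))) t13)))) (.b 19 (.b 14 (.b 2 (.l 68) (.b 4 (.l 212) (.b 7 (.l 196) (.b 10 (.l 68) (.b 12 (.l 212) (.b 15 (.l 196) (.b 20 (.l 68) (.b 21 (.l 68) (.b 22 (.l 72) (.b 23 (.l 68) (.b 37 (.l 212) (.b 38 (.l 68) (.b 39 (.l 196) (.b 46 (.l 68) (.b 47 (.l 196) (.b 55 (.l 68) (.c 12))))))))))))))))) (.b 10 (.b 2 (.l 68) (.b 4 (.l 212) (.b 7 (.l 196) (.b 12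 (.l 212) (.b 15 (.l 196) (.b 20 (.l 68) (.b 21 (.l 68) (.b 23 (.l 68) (.b 37 (.l 212) (.b 38 (.l 68) (.b 39 (.l 196) (.b 46 (.l 68) (.b 47 (.l 196) (.b 55 (.l 68) (.c 16))))))))))))))) (.b 15 (.b 2 (.l 196) (.b 4 (.l 212) (.b 7 (.l 196) (.b 12 (.l 212) (.b 20 (.l 196) (.b 21 (.l 196) (.b 37 (.l 212) (.b 38 (.l 196) (.b 39 (.l 196) (.b 46 (.l 196) (.b 47 (.l 196) (.c 16)))))))))))) (.b 12 (.b 2 (.l 212) (.b 4 (.l 212) (.b 7 (.l 212) (.b 21 (.l 212) (.b 37 (.l 212) (.b 46 (.l 212) (.b 47 (.l 212) (.b 13 (.b 1 (.l 10) (.b 5 (.l 124) (.b 22 (.l 194) (.b 23 (.l 124) (.b 38 (.l 194) (.b 39 (.l 124) (.b 55 (.l 124) (.c 62)))))))) (.b 5 (.b 1 (.l 42) (.b 23 (.l 124) (.b 39 (.l 124) (.b 55 (.l 124) (.c 127))))) (.c 32)))))))))) t14)))) (.c 8)))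

def t16 : Cert := (.b 31 (.b 14 (.b 2 (.l 76) (.b 4 (.l 92) (.b 5 (.l 108) (.b 7 (.l 192) (.b 10 (.l 76) (.b 11 (.l 72) (.b 12 (.l 92) (.b 13 (.l 108) (.b 15 (.l 192) (.b 19 (.l 72) (.b 20 (.l 76) (.b 21 (.l 76) (.b 22 (.l 72) (.b 23 (.l 76) (.b 28 (.l 72) (.b 29 (.l 72) (.b 30 (.l 192) (.b 37 (.l 92) (.b 38 (.l 72) (.b 39 (.l 92) (.b 46 (.l 72) (.b 47 (.l 108) (.b 55 (.l 72) (.c 4)))))))))))))))))))))))) (.b 10 (.b 1 (.l 194) (.b 2 (.l 76) (.b 4 (.l 92) (.b 5 (.l 108) (.b 7 (.l 194) (.b 11 (.l 76) (.b 12 (.l 92) (.b 13 (.l 108) (.b 15 (.l 196) (.b 19 (.l 196) (.b 20 (.l 76) (.b 21 (.l 76) (.b 22 (.l 194) (.b 23 (.l 76) (.b 28 (.l 76) (.b 29 (.l 76) (.b 30 (.l 194) (.b 37 (.l 92) (.b 38 (.l 76) (.b 39 (.l 92) (.b 46 (.l 76) (.b 47 (.l 108) (.b 55 (.l 76) (.c 6))))))))))))))))))))))))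 t9)) (.b 11 (.b 47 (.b 1 (.l 194) (.b 2 (.l 108) (.b 4 (.l 124) (.b 5 (.l 108) (.b 7 (.l 194) (.b 10 (.l 108) (.b 12 (.l 124) (.b 13 (.l 108) (.b 14 (.l 108) (.b 15 (.l 204) (.b 20 (.l 108) (.b 21 (.l 204) (.b 22 (.l 194) (.b 23 (.l 108) (.b 28 (.l 108) (.b 29 (.l 204) (.b 30 (.l 194) (.b 37 (.l 108) (.b 38 (.l 108) (.b 39 (.l 124) (.b 46 (.l 194) (.b 55 (.l 108) (.c 14))))))))))))))))))))))) t10) (.b 30 (.b 14 (.b 2 (.l 68) (.b 4 (.l 208) (.b 7 (.l 192) (.b 10 (.l 68) (.b 12 (.l 208) (.b 15 (.l 192) (.b 19 (.l 68) (.b 20 (.l 68) (.b 21 (.l 68) (.b 22 (.l 64) (.b 23 (.l 68) (.b 28 (.l 208) (.b 37 (.l 208) (.b 38 (.l 64) (.b 39 (.l 192) (.b 46 (.l 64) (.b 47 (.l 192) (.b 55 (.l 64) (.c 4))))))))))))))))))) t11) (.b 28 (.b 14 (.b 2 (.l 76) (.b 4 (.l 208) (.b 5 (.l 108) (.b 7 (.l 204)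 (.b 10 (.l 76) (.b 12 (.l 208) (.b 13 (.l 108) (.b 15 (.l 204) (.b 19 (.l 72) (.b 20 (.l 76) (.b 21 (.l 76) (.b 22 (.l 72) (.b 23 (.l 76) (.b 29 (.l 72) (.b 37 (.l 108) (.b 38 (.l 72) (.b 39 (.l 204) (.b 46 (.l 72) (.b 47 (.l 108) (.b 55 (.l 72) (.c 4))))))))))))))))))))) t12) t15))))

def t17 : Cert := (.b 14 (.b 1 (.l 46) (.b 4 (.l 92) (.b 5 (.l 46) (.b 7 (.l 196) (.b 10 (.l 76) (.b 11 (.l 76) (.b 12 (.l 46) (.b 13 (.l 108) (.b 15 (.l 46) (.b 19 (.l 196) (.b 20 (.l 46) (.b 21 (.l 76) (.b 22 (.l 46) (.b 23 (.l 46) (.b 28 (.l 46) (.b 29 (.l 76) (.b 30 (.l 46) (.b 37 (.l 46) (.b 38 (.l 76) (.b 39 (.l 92) (.b 47 (.l 46) (.b 55 (.l 76) (.c 5))))))))))))))))))))))) (.b 30 (.b 1 (.l 46) (.b 4 (.l 60) (.b 5 (.l 44) (.b 7 (.l 196) (.b 10 (.l 12) (.b 11 (.l 12) (.b 12 (.l 46) (.b 13 (.l 44)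 (.b 15 (.l 46) (.b 19 (.l 196) (.b 20 (.l 12) (.b 21 (.l 12) (.b 22 (.l 12) (.b 23 (.l 12) (.b 28 (.l 12) (.b 29 (.l 12) (.b 37 (.l 44) (.b 38 (.l 60) (.b 39 (.l 60) (.b 47 (.l 44) (.c 2))))))))))))))))))))) (.b 22 (.b 1 (.l 46) (.b 4 (.l 60) (.b 5 (.l 44) (.b 10 (.l 12) (.b 11 (.l 12) (.b 12 (.l 46) (.b 13 (.l 44) (.b 15 (.l 46) (.b 20 (.l 12) (.b 21 (.l 12) (.b 23 (.l 12) (.b 28 (.l 12) (.b 29 (.l 12) (.b 37 (.l 44) (.b 38 (.l 60) (.b 39 (.l 60) (.b 47 (.l 44) (.c 2)))))))))))))))))) (.b 38 (.b 4 (.l 60) (.b 5 (.l 60) (.b 7 (.l 196) (.b 10 (.l 60) (.b 11 (.l 60) (.b 12 (.l 60) (.b 13 (.l 60) (.b 15 (.l 196) (.b 19 (.l 196) (.b 20 (.l 76) (.b 21 (.l 76) (.b 23 (.l 60) (.b 28 (.l 76) (.b 29 (.l 76) (.b 37 (.l 108) (.b 39 (.l 60) (.b 47 (.l 60) (.b 55 (.l 76) (.c 7)))))))))))))))))))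 (.b 55 (.b 4 (.l 92) (.b 5 (.l 108) (.b 10 (.l 76) (.b 11 (.l 76) (.b 12 (.l 92) (.b 13 (.l 108) (.b 20 (.l 76) (.b 21 (.l 76) (.b 23 (.l 76) (.b 28 (.l 76) (.b 29 (.l 76) (.b 37 (.l 92) (.b 39 (.l 92) (.b 47 (.l 108) (.c 16))))))))))))))) (.c 64))))))

def t18 : Cert := (.b 14 (.b 4 (.l 92) (.b 5 (.l 108) (.b 7 (.l 204) (.b 10 (.l 76) (.b 12 (.l 92) (.b 13 (.l 108) (.b 15 (.l 204) (.b 20 (.l 76) (.b 21 (.l 76) (.b 23 (.l 76) (.b 28 (.l 76) (.b 29 (.l 76) (.b 37 (.l 92) (.b 38 (.l 76) (.b 39 (.l 92) (.b 47 (.l 108) (.b 55 (.l 76) (.c 16)))))))))))))))))) (.b 30 (.b 4 (.l 60) (.b 5 (.l 44) (.b 10 (.l 12) (.b 12 (.l 60) (.b 13 (.l 44) (.b 20 (.l 12) (.b 21 (.l 12) (.b 22 (.l 12) (.b 23 (.l 12) (.b 28 (.l 12) (.b 29 (.l 12) (.b 37 (.l 44) (.b 38 (.l 60) (.b 39 (.l 60) (.b 47 (.l 44) (.c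 16)))))))))))))))) (.b 38 (.b 4 (.l 60) (.b 5 (.l 60) (.b 7 (.l 204) (.b 10 (.l 60) (.b 12 (.l 60) (.b 13 (.l 60) (.b 15 (.l 204) (.b 20 (.l 76) (.b 21 (.l 76) (.b 22 (.l 60) (.b 23 (.l 60) (.b 28 (.l 76) (.b 29 (.l 76) (.b 37 (.l 108) (.b 39 (.l 60) (.b 47 (.l 60) (.b 55 (.l 76) (.c 15)))))))))))))))))) (.b 55 (.b 4 (.l 92) (.b 5 (.l 108) (.b 10 (.l 76) (.b 12 (.l 92) (.b 13 (.l 108) (.b 20 (.l 76) (.b 21 (.l 76) (.b 23 (.l 76) (.b 28 (.l 76) (.b 29 (.l 76) (.b 37 (.l 92) (.b 39 (.l 92) (.b 47 (.l 108) (.c 16)))))))))))))) (.b 22 (.b 4 (.l 60) (.b 5 (.l 44) (.b 10 (.l 12) (.b 12 (.l 60) (.b 13 (.l 44) (.b 20 (.l 12) (.b 21 (.l 12) (.b 23 (.l 12) (.b 28 (.l 12) (.b 29 (.l 12) (.b 37 (.l 44) (.b 39 (.l 60) (.b 47 (.l 44) (.c 16)))))))))))))) (.c 64))))))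

def t19 : Cert := (.b 14 (.b 1 (.l 46) (.b 4 (.l 212) (.b 5 (.l 46) (.b 7 (.l 196) (.b 12 (.l 46) (.b 15 (.l 46) (.b 19 (.l 68) (.b 20 (.l 46) (.b 21 (.l 68) (.b 22 (.l 46) (.b 23 (.l 46) (.b 28 (.l 46) (.b 37 (.l 46) (.b 38 (.l 68) (.b 39 (.l 196) (.b 46 (.l 46) (.b 47 (.l 46) (.b 55 (.l 68) (.c 5))))))))))))))))))) (.b 12 (.b 1 (.l 46) (.b 4 (.l 60) (.b 5 (.l 46) (.b 7 (.l 212) (.b 13 (.l 60) (.b 15 (.l 46) (.b 19 (.l 212) (.b 20 (.l 46) (.b 21 (.l 212) (.b 22 (.l 46) (.b 23 (.l 46) (.b 28 (.l 46) (.b 37 (.l 46) (.b 38 (.l 60) (.b 39 (.l 60) (.b 46 (.l 46) (.b 47 (.l 46) (.c 5)))))))))))))))))) (.b 15 (.b 1 (.l 46) (.b 4 (.l 212) (.b 5 (.l 46) (.b 7 (.l 196) (.b 19 (.l 196) (.b 20 (.l 46) (.b 21 (.l 196) (.b 22 (.l 46) (.b 23 (.l 46) (.b 28 (.l 46) (.b 37 (.l 46) (.b 38 (.l 196)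 (.b 39 (.l 196) (.b 46 (.l 46) (.b 47 (.l 46) (.c 5)))))))))))))))) (.b 13 (.b 4 (.l 60) (.b 5 (.l 44) (.b 20 (.l 44) (.b 22 (.l 44) (.b 23 (.l 44) (.b 28 (.l 44) (.b 37 (.l 44) (.b 38 (.l 60) (.b 39 (.l 60) (.b 46 (.l 44) (.b 47 (.l 44) (.c 16)))))))))))) (.b 1 (.b 5 (.l 46) (.b 20 (.l 46) (.b 22 (.l 46) (.b 23 (.l 46) (.b 28 (.l 46) (.b 37 (.l 46) (.b 46 (.l 46) (.b 47 (.l 46) (.b 21 (.b 4 (.l 212) (.b 7 (.l 196) (.b 19 (.l 42) (.b 29 (.l 12) (.b 38 (.l 68) (.b 39 (.l 196) (.b 55 (.l 68) (.c 16)))))))) (.b 29 (.b 19 (.l 10) (.b 7 (.b 4 (.l 210) (.b 38 (.l 194) (.b 39 (.l 162) (.b 55 (.l 162) (.c 16))))) (.b 4 (.b 38 (.l 60) (.b 39 (.l 60) (.b 55 (.l 92) (.c 23)))) (.c 7)))) (.c 32))))))))))) (.c 2))))))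

def t20 : Cert := (.b 46 (.b 1 (.l 46) (.b 4 (.l 212) (.b 5 (.l 44) (.b 7 (.l 204) (.b 10 (.l 44) (.b 12 (.l 46) (.b 13 (.l 44) (.b 14 (.l 46) (.b 15 (.l 46) (.b 19 (.l 212) (.b 20 (.l 44) (.b 21 (.l 76) (.b 22 (.l 44) (.b 23 (.l 44) (.b 29 (.l 76) (.b 37 (.l 44) (.b 38 (.l 76) (.b 39 (.l 204) (.b 47 (.l 44) (.b 55 (.l 76) (.c 2))))))))))))))))))))) (.b 14 (.b 1 (.l 46) (.b 4 (.l 212) (.b 5 (.l 46) (.b 7 (.l 204) (.b 10 (.l 76) (.b 12 (.l 46) (.b 13 (.l 108) (.b 15 (.l 46) (.b 19 (.l 212) (.b 20 (.l 46) (.b 21 (.l 76) (.b 22 (.l 46) (.b 23 (.l 46) (.b 29 (.l 76) (.b 37 (.l 46) (.b 38 (.l 76) (.b 39 (.l 204) (.b 47 (.l 46) (.b 55 (.l 76) (.c 5)))))))))))))))))))) (.b 22 (.b 1 (.l 46) (.b 5 (.l 44) (.b 10 (.l 12) (.b 12 (.l 46) (.b 13 (.l 44) (.b 15 (.l 46) (.b 20 (.l 12) (.b 21 (.l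 12) (.b 23 (.l 12) (.b 29 (.l 12) (.b 37 (.l 44) (.b 47 (.l 44) (.c 2))))))))))))) (.b 38 (.b 5 (.l 108) (.b 7 (.l 204) (.b 10 (.l 76) (.b 13 (.l 108) (.b 15 (.l 204) (.b 20 (.l 76) (.b 21 (.l 76) (.b 23 (.l 76) (.b 29 (.l 76) (.b 37 (.l 108) (.b 39 (.l 204) (.b 47 (.l 108) (.b 55 (.l 76) (.c 32)))))))))))))) (.b 55 (.b 5 (.l 108) (.b 10 (.l 76) (.b 13 (.l 108) (.b 20 (.l 76) (.b 21 (.l 76) (.b 23 (.l 76) (.b 29 (.l 76) (.b 37 (.l 108) (.b 47 (.l 108) (.c 32)))))))))) (.c 64))))))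

def t21 : Cert := (.b 14 (.b 4 (.l 92) (.b 7 (.l 204) (.b 10 (.l 76) (.b 12 (.l 92) (.b 15 (.l 204) (.b 20 (.l 76) (.b 21 (.l 76) (.b 23 (.l 76) (.b 37 (.l 92) (.b 38 (.l 76) (.b 39 (.l 92) (.b 46 (.l 76) (.b 47 (.l 204) (.b 55 (.l 76) (.c 16))))))))))))))) (.b 46 (.b 4 (.l 92) (.b 7 (.l 204) (.b 10 (.l 76) (.b 12 (.l 92) (.b 15 (.l 204) (.b 20 (.l 76) (.b 21 (.l 76) (.b 23 (.l 76) (.b 37 (.l 92) (.b 38 (.l 76) (.b 39 (.l 92) (.b 47 (.l 204) (.b 55 (.l 76) (.c 16)))))))))))))) (.b 38 (.b 7 (.l 204) (.b 10 (.l 76) (.b 15 (.l 204) (.b 20 (.l 76) (.b 21 (.l 76) (.b 23 (.l 76) (.b 39 (.l 204) (.b 47 (.l 204) (.b 55 (.l 76) (.c 127)))))))))) (.b 55 (.b 4 (.l 92) (.b 10 (.l 76) (.b 12 (.l 92) (.b 20 (.l 76) (.b 21 (.l 76) (.b 23 (.l 76) (.b 37 (.l 92) (.b 39 (.l 92) (.c 16))))))))) (.b 22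 (.b 10 (.l 12) (.b 20 (.l 12) (.b 21 (.l 12) (.b 23 (.l 12) (.b 12 (.b 1 (.l 46) (.b 4 (.l 60) (.b 5 (.l 46) (.b 7 (.l 220) (.b 13 (.l 60) (.b 15 (.l 46) (.b 37 (.l 46) (.b 39 (.l 60) (.b 47 (.l 46) (.c 18)))))))))) (.b 15 (.b 1 (.l 46) (.b 4 (.l 220) (.b 5 (.l 46) (.b 7 (.l 204) (.b 37 (.l 46) (.b 39 (.l 204) (.b 47 (.l 46) (.c 16)))))))) (.b 13 (.b 4 (.l 60) (.b 5 (.l 44) (.b 37 (.l 44) (.b 39 (.l 60) (.b 47 (.l 44) (.c 16)))))) (.b 1 (.b 5 (.l 46) (.b 37 (.l 46) (.b 47 (.l 46) (.b 19 (.b 39 (.b 4 (.l 60) (.b 7 (.l 162) (.c 111))) (.b 4 (.b 7 (.l 210) (.c 127)) (.c 16))) (.c 40))))) (.c 2))))))))) (.c 64))))))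

def t22 : Cert := (.b 55 (.b 10 (.l 68) (.b 20 (.l 68) (.b 21 (.l 68) (.b 23 (.l 68) (.b 12 (.b 4 (.l 92) (.b 5 (.l 124) (.b 7 (.l 212) (.b 13 (.l 124) (.b 15 (.l 212) (.b 37 (.l 92) (.b 39 (.l 92) (.b 47 (.l 124) (.c 32))))))))) (.b 15 (.b 4 (.l 212) (.b 7 (.l 196) (.b 37 (.l 212) (.b 39 (.l 196) (.b 47 (.l 196) (.c 16)))))) (.b 13 (.b 4 (.l 124) (.b 5 (.l 108) (.b 37 (.l 108) (.b 39 (.l 124) (.b 47 (.l 108) (.c 16)))))) (.b 1 (.b 37 (.b 4 (.l 92) (.b 5 (.l 42) (.b 7 (.l 162) (.b 22 (.l 46) (.b 39 (.l 92) (.b 47 (.l 42) (.c 15))))))) (.b 39 (.b 4 (.l 92) (.b 5 (.l 124) (.b 7 (.l 130) (.b 47 (.l 124) (.c 32))))) (.b 4 (.b 5 (.l 124) (.b 7 (.l 212) (.b 47 (.l 124) (.c 32)))) (.c 16)))) (.c 2))))))))) (.b 22 (.b 10 (.b 4 (.l 60) (.b 5 (.l 44) (.b 7 (.l 196) (.b 12 (.l 60) (.b 13 (.l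 44) (.b 15 (.l 196) (.b 20 (.l 12) (.b 21 (.l 12) (.b 23 (.l 12) (.b 37 (.l 44) (.b 39 (.l 60) (.b 47 (.l 44) (.c 16))))))))))))) (.b 12 (.b 1 (.l 46) (.b 4 (.l 60) (.b 5 (.l 46) (.b 7 (.l 212) (.b 13 (.l 60) (.b 15 (.l 46) (.b 20 (.l 46) (.b 21 (.l 212) (.b 23 (.l 46) (.b 37 (.l 46) (.b 39 (.l 60) (.b 47 (.l 46) (.c 18))))))))))))) (.b 15 (.b 1 (.l 46) (.b 4 (.l 212) (.b 5 (.l 46) (.b 7 (.l 196) (.b 20 (.l 46) (.b 21 (.l 196) (.b 23 (.l 46) (.b 37 (.l 46) (.b 39 (.l 196) (.b 47 (.l 46) (.c 16))))))))))) (.b 13 (.b 4 (.l 60) (.b 5 (.l 44) (.b 20 (.l 44) (.b 23 (.l 44) (.b 37 (.l 44) (.b 39 (.l 60) (.b 47 (.l 44) (.c 16)))))))) (.b 1 (.b 5 (.l 46) (.b 20 (.l 46) (.b 23 (.l 46) (.b 37 (.l 46) (.b 47 (.l 46) (.b 21 (.b 4 (.l 212) (.b 7 (.l 196) (.b 39 (.l 196) (.c 16)))) (.c 32)))))))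 (.c 2)))))) (.c 64)))

def t23 : Cert := (.b 11 (.b 46 (.b 4 (.l 60) (.b 5 (.l 44) (.b 7 (.l 204) (.b 10 (.l 44) (.b 12 (.l 60) (.b 13 (.l 44) (.b 14 (.l 76) (.b 15 (.l 204) (.b 20 (.l 44) (.b 21 (.l 76) (.b 22 (.l 44) (.b 23 (.l 44) (.b 28 (.l 44) (.b 29 (.l 76) (.b 30 (.l 44) (.b 37 (.l 44) (.b 38 (.l 60) (.b 39 (.l 60) (.b 47 (.l 44) (.b 55 (.l 76) (.c 15))))))))))))))))))))) t18) (.b 30 (.b 10 (.b 4 (.l 60) (.b 5 (.l 44) (.b 7 (.l 196) (.b 12 (.l 60) (.b 13 (.l 44) (.b 14 (.l 68) (.b 15 (.l 196) (.b 19 (.l 68) (.b 20 (.l 12) (.b 21 (.l 12) (.b 22 (.l 12) (.b 23 (.l 12) (.b 28 (.l 12) (.b 29 (.l 12) (.b 37 (.l 44) (.b 38 (.l 60) (.b 39 (.l 60) (.b 46 (.l 44) (.b 47 (.l 44) (.b 55 (.l 68) (.c 7))))))))))))))))))))) t19) (.b 28 t20 (.b 29 t21 (.b 19 (.b 14 (.b 4 (.l 212) (.b 7 (.l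 196) (.b 10 (.l 68) (.b 12 (.l 212) (.b 15 (.l 196) (.b 20 (.l 68) (.b 21 (.l 68) (.b 23 (.l 68) (.b 37 (.l 212) (.b 38 (.l 68) (.b 39 (.l 196) (.b 46 (.l 68) (.b 47 (.l 196) (.b 55 (.l 68) (.c 16))))))))))))))) (.b 46 (.b 4 (.l 212) (.b 7 (.l 196) (.b 10 (.l 68) (.b 12 (.l 212) (.b 15 (.l 196) (.b 20 (.l 68) (.b 21 (.l 68) (.b 23 (.l 68) (.b 37 (.l 212) (.b 38 (.l 68) (.b 39 (.l 196) (.b 47 (.l 196) (.b 55 (.l 68) (.c 16)))))))))))))) (.b 38 (.b 7 (.l 196) (.b 10 (.l 68) (.b 15 (.l 196) (.b 20 (.l 68) (.b 21 (.l 68) (.b 23 (.l 68) (.b 39 (.l 196) (.b 47 (.l 196) (.b 55 (.l 68) (.c 127)))))))))) t22))) (.c 8))))))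

def t24 : Cert := (.b 11 (.b 1 (.l 130) (.b 4 (.l 210) (.b 5 (.l 162) (.b 12 (.l 130) (.b 13 (.l 130) (.b 14 (.l 130) (.b 15 (.l 204) (.b 20 (.l 204) (.b 21 (.l 162) (.b 22 (.l 194) (.b 23 (.l 130) (.b 28 (.l 204) (.b 29 (.l 162) (.b 30 (.l 194) (.b 37 (.l 162) (.b 38 (.l 194) (.b 39 (.l 130) (.b 46 (.l 162) (.b 47 (.l 130) (.b 55 (.l 130) (.c 14))))))))))))))))))))) (.b 30 (.b 1 (.l 194) (.b 4 (.l 210) (.b 12 (.l 194) (.b 13 (.l 194) (.b 14 (.l 196) (.b 15 (.l 196) (.b 19 (.l 196) (.b 20 (.l 196) (.b 21 (.l 196) (.b 22 (.l 194) (.b 23 (.l 194) (.b 28 (.l 210) (.b 37 (.l 210) (.b 38 (.l 194) (.b 39 (.l 194) (.b 46 (.l 194) (.b 47 (.l 194) (.c 6)))))))))))))))))) (.b 28 (.b 1 (.l 210) (.b 4 (.l 210) (.b 12 (.l 212) (.b 13 (.l 210) (.b 14 (.l 204) (.b 15 (.l 204) (.b 19 (.l 212) (.b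 20 (.l 204) (.b 21 (.l 204) (.b 22 (.l 210) (.b 23 (.l 210) (.b 29 (.l 204) (.b 37 (.l 210) (.b 38 (.l 204) (.b 39 (.l 204) (.b 46 (.l 204) (.b 47 (.l 204) (.c 6)))))))))))))))))) (.b 29 (.b 1 (.l 162) (.b 4 (.l 220) (.b 5 (.l 162) (.b 12 (.l 162) (.b 14 (.l 162) (.b 15 (.l 204) (.b 20 (.l 204) (.b 21 (.l 162) (.b 23 (.l 162) (.b 37 (.l 162) (.b 38 (.l 204) (.b 39 (.l 162) (.b 46 (.l 162) (.b 47 (.l 204) (.b 55 (.l 162) (.c 16)))))))))))))))) (.b 19 (.b 4 (.l 212) (.b 12 (.l 212) (.b 14 (.l 196) (.b 15 (.l 196) (.b 20 (.l 196) (.b 21 (.l 196) (.b 37 (.l 212) (.b 38 (.l 196) (.b 39 (.l 196) (.b 46 (.l 196) (.b 47 (.l 196) (.c 16)))))))))))) (.c 8))))))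

def t25 : Cert := (.b 11 (.b 1 (.l 130) (.b 4 (.l 210) (.b 5 (.l 162) (.b 12 (.l 130) (.b 13 (.l 130) (.b 20 (.l 210) (.b 21 (.l 162) (.b 22 (.l 194) (.b 28 (.l 210) (.b 29 (.l 162) (.b 30 (.l 194) (.b 31 (.l 130) (.b 37 (.l 162) (.b 38 (.l 194) (.b 39 (.l 130) (.b 46 (.l 162) (.b 47 (.l 130) (.b 55 (.l 130) (.c 16))))))))))))))))))) (.b 12 (.b 1 (.l 130) (.b 4 (.l 208) (.b 5 (.l 162) (.b 13 (.l 130) (.b 15 (.l 208) (.b 20 (.l 208) (.b 21 (.l 162) (.b 22 (.l 194) (.b 28 (.l 208) (.b 29 (.l 162) (.b 30 (.l 194) (.b 31 (.l 130) (.b 37 (.l 162) (.b 38 (.l 194) (.b 39 (.l 130) (.b 46 (.l 162) (.b 47 (.l 130) (.b 55 (.l 130) (.c 18))))))))))))))))))) (.b 1 (.b 4 (.l 210) (.b 5 (.l 162) (.b 13 (.l 130) (.b 20 (.l 210) (.b 21 (.l 162) (.b 22 (.l 194) (.b 28 (.l 210) (.b 29 (.l 162) (.b 30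 (.l 194) (.b 31 (.l 130) (.b 37 (.l 162) (.b 38 (.l 194) (.b 39 (.l 130) (.b 46 (.l 162) (.b 47 (.l 130) (.b 55 (.l 130) (.c 16))))))))))))))))) (.b 15 (.b 4 (.l 208) (.b 20 (.l 208) (.b 22 (.l 192) (.b 28 (.l 208) (.b 30 (.l 192) (.b 31 (.l 128) (.b 37 (.l 208) (.b 38 (.l 192) (.b 39 (.l 128) (.b 46 (.l 192) (.b 47 (.l 128) (.b 55 (.l 128) (.c 16))))))))))))) (.b 13 (.b 4 (.l 210) (.b 20 (.l 210) (.b 22 (.l 194) (.b 28 (.l 210) (.b 30 (.l 194) (.b 31 (.l 130) (.b 37 (.l 210) (.b 38 (.l 194) (.b 39 (.l 130) (.b 46 (.l 194) (.b 47 (.l 130) (.b 55 (.l 130) (.c 16))))))))))))) (.c 2))))))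

def t26 : Cert := (.b 1 (.b 5 (.l 162) (.b 29 (.l 162) (.b 31 (.l 162) (.b 37 (.l 162) (.b 39 (.l 162) (.b 46 (.l 162) (.b 55 (.l 162) (.b 30 (.b 4 (.l 210) (.b 13 (.l 194) (.b 19 (.l 42) (.b 20 (.l 196) (.b 22 (.l 194) (.b 28 (.l 42) (.b 38 (.l 194) (.b 47 (.l 42) (.c 16))))))))) (.b 28 (.b 4 (.l 210) (.b 13 (.l 210) (.b 19 (.l 42) (.b 20 (.l 204) (.b 22 (.l 210) (.b 38 (.l 204) (.b 47 (.l 42) (.c 24)))))))) (.b 19 (.b 4 (.l 212) (.b 20 (.l 196) (.b 38 (.l 196) (.b 47 (.l 42) (.c 16))))) (.c 8))))))))))) (.b 13 (.b 31 (.b 4 (.l 210) (.b 5 (.l 40) (.b 19 (.l 40) (.b 20 (.l 196) (.b 22 (.l 194) (.b 28 (.l 40) (.b 29 (.l 162) (.b 30 (.l 40) (.b 37 (.l 40) (.b 38 (.l 194) (.b 39 (.l 130) (.b 46 (.l 40) (.b 47 (.l 40) (.b 55 (.l 130) (.c 16))))))))))))))) (.b 30 (.b 4 (.l 210) (.b 5 (.l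 40) (.b 19 (.l 40) (.b 20 (.l 196) (.b 22 (.l 194) (.b 28 (.l 40) (.b 37 (.l 40) (.b 38 (.l 194) (.b 39 (.l 194) (.b 46 (.l 40) (.b 47 (.l 40) (.c 16)))))))))))) (.b 28 (.b 4 (.l 210) (.b 5 (.l 40) (.b 19 (.l 40) (.b 20 (.l 204) (.b 22 (.l 210) (.b 29 (.l 204) (.b 37 (.l 40) (.b 38 (.l 204) (.b 39 (.l 204) (.b 46 (.l 40) (.b 47 (.l 40) (.c 24)))))))))))) (.b 29 (.b 4 (.l 220) (.b 5 (.l 162) (.b 20 (.l 204) (.b 37 (.l 162) (.b 38 (.l 204) (.b 39 (.l 162) (.b 46 (.l 162) (.b 47 (.l 204) (.b 55 (.l 162) (.c 16)))))))))) (.b 19 (.b 4 (.l 212) (.b 5 (.l 40) (.b 20 (.l 196) (.b 37 (.l 40) (.b 38 (.l 196) (.b 39 (.l 196) (.b 46 (.l 40) (.b 47 (.l 40) (.c 16))))))))) (.c 8)))))) (.c 2)))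

def t27 : Cert := (.b 11 (.b 1 (.l 210) (.b 4 (.l 210) (.b 13 (.l 210) (.b 15 (.l 204) (.b 22 (.l 210) (.b 28 (.l 204) (.b 29 (.l 204) (.b 30 (.l 210) (.b 31 (.l 210) (.b 37 (.l 210) (.b 38 (.l 204) (.b 39 (.l 204) (.b 46 (.l 204) (.b 47 (.l 204) (.c 30))))))))))))))) (.b 15 (.b 4 (.l 208) (.b 12 (.l 208) (.b 19 (.l 196) (.b 22 (.l 208) (.b 28 (.l 204) (.b 29 (.l 204) (.b 30 (.l 196) (.b 31 (.l 196) (.b 37 (.l 208) (.b 38 (.l 196) (.b 39 (.l 196) (.b 46 (.l 196) (.b 47 (.l 196) (.c 8)))))))))))))) (.b 12 (.b 4 (.l 208) (.b 22 (.l 208) (.b 28 (.l 208) (.b 30 (.l 208) (.b 31 (.l 208) (.b 37 (.l 208) (.b 46 (.l 208) (.b 47 (.l 208) (.b 29 (.b 1 (.l 162) (.b 5 (.l 162) (.b 38 (.l 204) (.b 39 (.l 162) (.b 55 (.l 162) (.c 62)))))) (.b 19 (.b 38 (.l 196) (.b 39 (.l 196) (.b 55 (.b 1 (.l 130)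 (.b 5 (.l 162) (.b 13 (.l 130) (.c 30)))) (.c 64)))) (.c 8))))))))))) (.b 13 (.b 1 (.l 210) (.b 4 (.l 210) (.b 22 (.l 210) (.b 28 (.l 210) (.b 30 (.l 210) (.b 31 (.l 210) (.b 37 (.l 210) (.b 46 (.l 210) (.b 47 (.l 210) (.b 29 (.b 38 (.l 204) (.b 39 (.l 204) (.b 19 (.b 5 (.b 55 (.l 108) (.c 64)) (.c 62)) (.c 20)))) (.b 19 (.b 38 (.l 196) (.b 39 (.l 196) (.c 28))) (.c 8)))))))))))) (.b 1 (.b 4 (.l 210) (.b 22 (.l 210) (.b 28 (.l 210) (.b 30 (.l 210) (.b 31 (.l 210) (.b 37 (.l 210) (.b 46 (.l 210) (.b 47 (.l 210) (.b 29 (.b 5 (.l 162) (.b 38 (.l 204) (.b 39 (.l 162) (.b 55 (.l 162) (.c 60))))) (.b 19 (.b 38 (.l 196) (.b 39 (.l 196) (.c 28))) (.c 8))))))))))) (.c 2))))))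

def t28 : Cert := (.b 11 (.b 46 (.b 1 (.l 162) (.b 4 (.l 210) (.b 5 (.l 40) (.b 12 (.l 162) (.b 13 (.l 40) (.b 14 (.l 72) (.b 15 (.l 196) (.b 29 (.l 72) (.b 37 (.l 40) (.b 38 (.l 72) (.b 39 (.l 162) (.b 47 (.l 40) (.b 55 (.l 72) (.c 14)))))))))))))) (.b 14 (.b 1 (.l 130) (.b 4 (.l 212) (.b 5 (.l 162) (.b 12 (.l 130) (.b 13 (.l 130) (.b 15 (.l 196) (.b 29 (.l 72) (.b 37 (.l 162) (.b 38 (.l 72) (.b 39 (.l 130) (.b 47 (.l 130) (.b 55 (.l 72) (.c 16))))))))))))) (.b 38 (.b 1 (.l 194) (.b 12 (.l 194) (.b 13 (.l 194) (.b 15 (.l 196) (.b 29 (.l 72) (.b 39 (.l 194) (.b 47 (.l 194) (.b 55 (.l 72) (.c 14))))))))) (.b 55 (.b 1 (.l 130) (.b 5 (.l 162) (.b 12 (.l 130) (.b 13 (.l 130) (.b 29 (.l 72) (.b 37 (.l 162) (.b 39 (.l 130) (.b 47 (.l 130) (.c 32))))))))) (.c 64))))) (.b 29 (.b 14 (.b 1 (.l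 10) (.b 4 (.l 212) (.b 5 (.l 162) (.b 12 (.l 10) (.b 13 (.l 10) (.b 15 (.l 10) (.b 37 (.l 162) (.b 38 (.l 72) (.b 39 (.l 162) (.b 46 (.l 72) (.b 47 (.l 196) (.b 55 (.l 72) (.c 16))))))))))))) (.b 46 (.b 1 (.l 162) (.b 4 (.l 212) (.b 5 (.l 162) (.b 12 (.l 162) (.b 15 (.l 196) (.b 37 (.l 162) (.b 38 (.l 72) (.b 39 (.l 162) (.b 47 (.l 196) (.b 55 (.l 72) (.c 16))))))))))) (.b 38 (.b 15 (.l 196) (.b 39 (.l 196) (.b 47 (.l 196) (.b 55 (.l 72) (.b 12 (.b 1 (.l 10) (.b 4 (.l 212) (.b 5 (.l 162) (.b 13 (.l 10) (.b 37 (.l 162) (.c 44)))))) (.b 1 (.b 5 (.l 162) (.b 13 (.l 10) (.b 37 (.l 162) (.c 44)))) (.b 13 (.b 37 (.b 4 (.l 210) (.b 5 (.l 40) (.c 126))) (.b 5 (.b 4 (.l 60) (.c 80)) (.c 46))) (.c 2)))))))) (.b 55 (.b 1 (.l 162) (.b 5 (.l 162) (.b 12 (.l 162) (.b 37 (.l 162) (.b 39 (.l 162) (.b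 4 (.b 15 (.l 212) (.b 47 (.l 212) (.c 46))) (.c 16))))))) (.c 64))))) (.c 12)))

def t29 : Cert := (.b 22 (.b 14 (.b 4 (.l 208) (.b 12 (.l 208) (.b 15 (.l 192) (.b 28 (.l 208) (.b 30 (.l 192) (.b 31 (.l 192) (.b 37 (.l 208) (.b 38 (.l 192) (.b 39 (.l 192) (.b 46 (.l 192) (.b 47 (.l 192) (.c 16)))))))))))) (.b 11 (.b 1 (.l 194) (.b 4 (.l 210) (.b 12 (.l 194) (.b 13 (.l 194) (.b 28 (.l 210) (.b 30 (.l 194) (.b 31 (.l 194) (.b 37 (.l 210) (.b 38 (.l 194) (.b 39 (.l 194) (.b 46 (.l 194) (.b 47 (.l 194) (.c 16))))))))))))) (.b 12 (.b 1 (.l 194) (.b 4 (.l 208) (.b 13 (.l 194) (.b 15 (.l 208) (.b 28 (.l 208) (.b 30 (.l 194) (.b 31 (.l 194) (.b 37 (.l 208) (.b 38 (.l 194) (.b 39 (.l 194) (.b 46 (.l 194) (.b 47 (.l 194) (.c 18))))))))))))) (.b 15 (.b 4 (.l 208) (.b 28 (.l 208) (.b 30 (.l 192)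 (.b 31 (.l 192) (.b 37 (.l 208) (.b 38 (.l 192) (.b 39 (.l 192) (.b 46 (.l 192) (.b 47 (.l 192) (.c 16)))))))))) (.b 13 (.b 1 (.l 194) (.b 4 (.l 210) (.b 28 (.l 210) (.b 30 (.l 194) (.b 31 (.l 194) (.b 37 (.l 210) (.b 38 (.l 194) (.b 39 (.l 194) (.b 46 (.l 194) (.b 47 (.l 194) (.c 16))))))))))) (.b 1 (.b 4 (.l 210) (.b 28 (.l 210) (.b 30 (.l 194) (.b 31 (.l 194) (.b 37 (.l 210) (.b 38 (.l 194) (.b 39 (.l 194) (.b 46 (.l 194) (.b 47 (.l 194) (.c 16)))))))))) (.c 2))))))) (.b 19 (.b 31 (.b 4 (.l 212) (.b 12 (.l 212) (.b 14 (.l 196) (.b 15 (.l 196) (.b 28 (.l 212) (.b 30 (.l 196) (.b 37 (.l 212) (.b 38 (.l 196) (.b 39 (.l 196) (.b 46 (.l 196) (.b 47 (.l 196) (.c 16)))))))))))) (.b 30 (.b 4 (.l 212) (.b 12 (.l 212) (.b 14 (.l 196) (.b 15 (.l 196) (.b 28 (.l 212) (.b 37 (.l 212) (.b 38 (.l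 196) (.b 39 (.l 196) (.b 46 (.l 196) (.b 47 (.l 196) (.c 16))))))))))) (.b 28 (.b 4 (.l 212) (.b 12 (.l 212) (.b 14 (.l 212) (.b 15 (.l 212) (.b 37 (.l 212) (.b 46 (.l 212) (.b 47 (.l 212) (.b 38 (.b 11 (.l 72) (.b 29 (.l 72) (.b 39 (.l 196) (.b 55 (.l 72) (.c 92))))) (.b 55 (.b 11 (.l 72) (.b 29 (.l 72) (.b 39 (.b 1 (.l 130) (.b 5 (.l 162) (.b 13 (.l 130) (.c 2)))) (.c 28)))) (.c 64)))))))))) t28))) (.c 4)))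

def t30 : Cert := (.b 21 (.b 14 (.b 1 (.l 162) (.b 4 (.l 212) (.b 5 (.l 162) (.b 11 (.l 162) (.b 12 (.l 162) (.b 15 (.l 196) (.b 19 (.l 196) (.b 20 (.l 196) (.b 28 (.l 204) (.b 29 (.l 162) (.b 30 (.l 196) (.b 31 (.l 162) (.b 37 (.l 162) (.b 38 (.l 196) (.b 39 (.l 162) (.b 46 (.l 162) (.b 47 (.l 196) (.b 55 (.l 162) (.c 8))))))))))))))))))) (.b 11 (.b 1 (.l 162) (.b 4 (.l 220) (.b 5 (.l 162) (.b 12 (.l 162) (.b 15 (.l 204) (.b 20 (.l 204) (.b 28 (.l 204) (.b 29 (.l 162) (.b 31 (.l 162) (.b 37 (.l 162) (.b 38 (.l 204) (.b 39 (.l 162) (.b 46 (.l 162) (.b 47 (.l 204) (.b 55 (.l 162) (.c 16)))))))))))))))) (.b 15 (.b 4 (.l 212) (.b 12 (.l 212) (.b 19 (.l 196) (.b 20 (.l 196) (.b 28 (.l 204) (.b 29 (.l 204) (.b 30 (.l 196) (.b 31 (.l 196) (.b 37 (.l 212) (.b 38 (.l 196) (.b 39 (.l 196) (.b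 46 (.l 196) (.b 47 (.l 196) (.c 8)))))))))))))) (.b 12 (.b 1 (.l 162) (.b 4 (.l 212) (.b 5 (.l 162) (.b 19 (.l 212) (.b 28 (.l 212) (.b 29 (.l 162) (.b 30 (.l 212) (.b 31 (.l 162) (.b 37 (.l 162) (.b 39 (.l 162) (.b 46 (.l 162) (.b 47 (.l 212) (.b 55 (.l 162) (.c 8)))))))))))))) t26)))) (.b 20 (.b 14 (.b 4 (.l 208) (.b 11 (.l 204) (.b 12 (.l 208) (.b 15 (.l 196) (.b 19 (.l 196) (.b 22 (.l 208) (.b 28 (.l 204) (.b 29 (.l 204) (.b 30 (.l 196) (.b 31 (.l 196) (.b 37 (.l 208) (.b 38 (.l 196) (.b 39 (.l 196) (.b 46 (.l 196) (.b 47 (.l 196) (.c 8)))))))))))))))) t27) t29))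

def t31 : Cert := (.b 11 (.b 4 (.l 210) (.b 5 (.l 34) (.b 12 (.l 2) (.b 13 (.l 2) (.b 14 (.l 2) (.b 15 (.l 2) (.b 20 (.l 210) (.b 21 (.l 34) (.b 22 (.l 194) (.b 23 (.l 130) (.b 28 (.l 210) (.b 29 (.l 34) (.b 30 (.l 194) (.b 37 (.l 34) (.b 38 (.l 194) (.b 39 (.l 130) (.b 46 (.l 34) (.b 47 (.l 34) (.b 55 (.l 130) (.c 15)))))))))))))))))))) (.b 30 (.b 4 (.l 210) (.b 5 (.l 42) (.b 12 (.l 10) (.b 13 (.l 10) (.b 14 (.l 10) (.b 15 (.l 10) (.b 19 (.l 10) (.b 20 (.l 210) (.b 21 (.l 42) (.b 22 (.l 194) (.b 23 (.l 194) (.b 28 (.l 10) (.b 29 (.l 10) (.b 37 (.l 42) (.b 38 (.l 194) (.b 39 (.l 194) (.b 46 (.l 42) (.b 47 (.l 42) (.c 7))))))))))))))))))) (.b 28 (.b 4 (.l 210) (.b 5 (.l 42) (.b 12 (.l 10) (.b 13 (.l 10) (.b 14 (.l 10) (.b 15 (.l 10) (.b 19 (.l 10) (.b 20 (.l 210) (.b 21 (.l 42) (.b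 22 (.l 210) (.b 23 (.l 210) (.b 29 (.l 10) (.b 37 (.l 42) (.b 46 (.l 42) (.b 47 (.l 42) (.c 7)))))))))))))))) (.b 29 (.b 5 (.l 34) (.b 12 (.l 10) (.b 13 (.l 10) (.b 14 (.l 10) (.b 15 (.l 10) (.b 19 (.l 10) (.b 21 (.l 34) (.b 23 (.l 162) (.b 37 (.l 34) (.b 39 (.l 162) (.b 46 (.l 34) (.b 47 (.l 34) (.b 55 (.l 162) (.c 40)))))))))))))) (.b 19 (.b 5 (.l 42) (.b 12 (.l 10) (.b 13 (.l 10) (.b 14 (.l 10) (.b 15 (.l 10) (.b 21 (.l 42) (.b 37 (.l 42) (.b 46 (.l 42) (.b 47 (.l 42) (.c 32)))))))))) (.c 8))))))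

def t32 : Cert := (.b 29 (.b 5 (.l 162) (.b 12 (.l 162) (.b 14 (.l 162) (.b 21 (.l 162) (.b 37 (.l 162) (.b 39 (.l 162) (.b 46 (.l 162) (.b 55 (.l 162) (.b 22 (.b 4 (.l 210) (.b 13 (.l 194) (.b 15 (.l 46) (.b 20 (.l 12) (.b 38 (.l 194) (.b 47 (.l 46) (.c 3))))))) (.b 38 (.b 13 (.l 194) (.b 20 (.l 76) (.b 47 (.l 194) (.b 19 (.b 15 (.l 10) (.c 83)) (.c 40))))) (.c 64))))))))))) (.b 19 (.b 14 (.b 5 (.l 42) (.b 12 (.l 10) (.b 13 (.l 10) (.b 15 (.l 10) (.b 20 (.l 46) (.b 21 (.l 42) (.b 22 (.l 46) (.b 37 (.l 42) (.b 38 (.l 68) (.b 39 (.l 130) (.b 46 (.l 42) (.b 47 (.l 42) (.b 55 (.l 68) (.c 32)))))))))))))) (.b 46 (.b 4 (.l 210) (.b 5 (.l 42) (.b 12 (.l 42) (.b 13 (.l 194) (.b 15 (.l 42) (.b 20 (.l 46) (.b 21 (.l 42) (.b 22 (.l 46) (.b 37 (.l 42) (.b 38 (.l 68) (.b 39 (.l 162) (.b 47 (.l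 42) (.b 55 (.l 68) (.c 3)))))))))))))) (.b 22 (.b 4 (.l 210) (.b 5 (.l 46) (.b 12 (.l 46) (.b 13 (.l 194) (.b 15 (.l 46) (.b 20 (.l 46) (.b 37 (.l 46) (.b 38 (.l 194) (.b 39 (.l 194) (.b 47 (.l 46) (.c 3))))))))))) (.b 55 (.b 5 (.l 162) (.b 12 (.l 130) (.b 13 (.l 130) (.b 20 (.l 68) (.b 21 (.l 68) (.b 37 (.l 162) (.b 38 (.l 68) (.b 39 (.l 130) (.b 47 (.l 130) (.c 32)))))))))) (.b 38 (.b 12 (.l 194) (.b 13 (.l 194) (.b 20 (.l 68) (.b 21 (.l 68) (.b 39 (.l 194) (.b 47 (.l 194) (.b 15 (.b 5 (.l 42) (.b 37 (.l 42) (.c 32))) (.c 115)))))))) (.c 64)))))) (.c 8)))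

def t33 : Cert := (.b 15 (.b 5 (.l 34) (.b 11 (.l 34) (.b 12 (.l 34) (.b 14 (.l 34) (.b 19 (.l 42) (.b 28 (.l 42) (.b 29 (.l 34) (.b 30 (.l 42) (.b 37 (.l 34) (.b 46 (.l 34) (.c 8))))))))))) (.b 39 (.b 5 (.l 162) (.b 11 (.l 162) (.b 12 (.l 162) (.b 14 (.l 162) (.b 29 (.l 162) (.b 37 (.l 162) (.b 46 (.l 162) (.b 55 (.l 162) (.b 13 (.b 22 (.l 194) (.b 30 (.l 194) (.b 38 (.l 194) (.c 64)))) (.b 4 (.b 30 (.b 19 (.l 42) (.b 20 (.l 196) (.b 22 (.l 60) (.b 28 (.l 42) (.b 38 (.l 60) (.c 36)))))) (.b 28 (.b 19 (.l 42) (.b 20 (.l 204) (.b 22 (.l 210) (.b 38 (.l 204) (.c 36))))) (.b 19 (.b 20 (.l 196) (.b 38 (.l 196) (.c 108))) (.c 8)))) (.c 3))))))))))) (.b 55 (.b 5 (.l 162) (.b 11 (.l 162) (.b 12 (.l 162) (.b 14 (.l 162) (.b 29 (.l 162) (.b 37 (.l 162) (.b 46 (.l 162) (.b 13 (.b 30 (.b 4 (.l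 210) (.b 19 (.l 10) (.b 20 (.l 68) (.b 22 (.l 194) (.b 28 (.l 10) (.b 38 (.l 68) (.c 16))))))) (.b 28 (.b 4 (.l 210) (.b 19 (.l 10) (.b 20 (.l 76) (.b 22 (.l 210) (.b 38 (.l 76) (.c 24)))))) (.b 19 (.b 20 (.l 68) (.b 38 (.l 68) (.b 4 (.b 22 (.l 210) (.c 63)) (.c 16)))) (.c 8)))) (.b 4 (.b 30 (.b 19 (.l 42) (.b 20 (.l 68) (.b 22 (.l 210) (.b 28 (.l 42) (.b 38 (.l 68) (.c 19)))))) (.b 28 (.b 19 (.l 42) (.b 20 (.l 76) (.b 22 (.l 210) (.b 38 (.l 76) (.c 27))))) (.b 19 (.b 20 (.l 68) (.b 38 (.l 68) (.c 19))) (.c 8)))) (.c 3)))))))))) (.c 127))))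

def t34 : Cert := (.b 39 (.b 11 (.l 194) (.b 12 (.l 194) (.b 13 (.l 194) (.b 30 (.l 194) (.b 38 (.l 194) (.b 46 (.l 194) (.b 14 (.b 5 (.l 46) (.b 20 (.l 46) (.b 28 (.l 46) (.b 29 (.l 162) (.b 37 (.l 46) (.b 55 (.l 130) (.c 32))))))) (.b 5 (.b 4 (.l 60) (.b 20 (.l 46) (.b 28 (.l 46) (.b 29 (.l 162) (.b 37 (.l 46) (.b 55 (.l 162) (.c 35))))))) (.b 4 (.b 20 (.l 210) (.b 28 (.l 210) (.b 37 (.l 210) (.b 29 (.b 55 (.l 92) (.c 108)) (.c 32))))) (.c 3)))))))))) (.b 55 (.b 11 (.b 4 (.l 210) (.b 5 (.l 162) (.b 12 (.l 130) (.b 13 (.l 130) (.b 14 (.l 72) (.b 19 (.l 72) (.b 20 (.l 210) (.b 28 (.l 72) (.b 29 (.l 72) (.b 30 (.l 194) (.b 37 (.l 162) (.b 38 (.l 72) (.b 46 (.l 72) (.c 11)))))))))))))) (.b 30 (.b 4 (.l 210) (.b 5 (.l 46) (.b 12 (.l 46) (.b 13 (.l 194) (.b 14 (.l 46) (.b 20 (.l 46) (.b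 28 (.l 46) (.b 37 (.l 46) (.b 38 (.l 64) (.b 46 (.l 46) (.c 3))))))))))) (.b 28 (.b 4 (.l 210) (.b 5 (.l 46) (.b 12 (.l 46) (.b 13 (.l 210) (.b 14 (.l 46) (.b 19 (.l 72) (.b 20 (.l 46) (.b 29 (.l 72) (.b 37 (.l 46) (.b 38 (.l 72) (.b 46 (.l 46) (.c 3)))))))))))) (.b 29 (.b 5 (.l 162) (.b 12 (.l 162) (.b 14 (.l 72) (.b 19 (.l 72) (.b 37 (.l 162) (.b 38 (.l 72) (.b 46 (.l 72) (.b 13 (.b 4 (.l 210) (.b 20 (.l 210) (.c 16))) (.c 40))))))))) (.b 19 (.b 14 (.l 72) (.b 38 (.l 72) (.b 46 (.l 72) (.b 20 (.b 4 (.l 210) (.b 5 (.l 46) (.b 12 (.l 46) (.b 13 (.l 210) (.b 37 (.l 46) (.c 3)))))) (.c 51))))) (.c 8)))))) (.c 127)))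

def t35 : Cert := (.b 38 (.b 31 (.b 4 (.l 210) (.b 5 (.l 46) (.b 11 (.l 76) (.b 12 (.l 46) (.b 13 (.l 108) (.b 15 (.l 46) (.b 19 (.l 196) (.b 28 (.l 46) (.b 29 (.l 76) (.b 37 (.l 46) (.b 39 (.l 194) (.b 47 (.l 46) (.b 55 (.l 76) (.c 3)))))))))))))) (.b 11 (.b 4 (.l 210) (.b 5 (.l 108) (.b 12 (.l 194) (.b 13 (.l 108) (.b 15 (.l 204) (.b 28 (.l 76) (.b 29 (.l 76) (.b 37 (.l 108) (.b 39 (.l 194) (.b 47 (.l 108) (.b 55 (.l 76) (.c 32)))))))))))) (.b 28 (.b 4 (.l 210) (.b 5 (.l 46) (.b 12 (.l 46) (.b 13 (.l 108) (.b 15 (.l 46) (.b 29 (.l 76) (.b 37 (.l 46) (.b 39 (.l 204) (.b 47 (.l 46) (.b 55 (.l 76) (.c 3))))))))))) (.b 29 (.b 15 (.l 204) (.b 39 (.l 204) (.b 47 (.l 204) (.b 55 (.l 76) (.c 127))))) (.b 19 (.b 15 (.l 196) (.b 39 (.l 196) (.b 47 (.l 196) (.b 55 (.l 68) (.c 127))))) (.c 8))))))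 (.b 55 (.b 31 (.b 4 (.l 210) (.b 5 (.l 46) (.b 11 (.l 76) (.b 12 (.l 46) (.b 13 (.l 108) (.b 15 (.l 46) (.b 28 (.l 46) (.b 29 (.l 76) (.b 37 (.l 46) (.b 39 (.l 130) (.b 47 (.l 46) (.c 3)))))))))))) (.b 47 (.b 4 (.l 210) (.b 5 (.l 46) (.b 11 (.l 108) (.b 12 (.l 46) (.b 13 (.l 108) (.b 15 (.l 46) (.b 28 (.l 46) (.b 37 (.l 46) (.b 39 (.l 130) (.c 3)))))))))) (.b 39 (.b 5 (.l 162) (.b 11 (.l 130) (.b 12 (.l 130) (.b 13 (.l 130) (.b 29 (.l 162) (.b 37 (.l 162) (.c 32))))))) (.b 15 (.b 5 (.l 46) (.b 12 (.l 46) (.b 28 (.l 46) (.b 37 (.l 46) (.b 19 (.b 13 (.l 10) (.b 29 (.l 10) (.c 32))) (.b 4 (.b 11 (.l 210) (.b 13 (.l 210) (.c 40))) (.c 20))))))) (.c 63))))) (.c 64)))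

def t36 : Cert := (.b 28 (.b 5 (.l 42) (.b 12 (.l 10) (.b 13 (.l 10) (.b 14 (.l 10) (.b 15 (.l 10) (.b 29 (.l 10) (.b 37 (.l 42) (.b 46 (.l 42) (.b 47 (.l 42) (.c 32)))))))))) (.b 11 (.b 14 (.b 5 (.l 34) (.b 12 (.l 2) (.b 13 (.l 2) (.b 15 (.l 2) (.b 29 (.l 10) (.b 37 (.l 34) (.b 38 (.l 72) (.b 39 (.l 130) (.b 46 (.l 34) (.b 47 (.l 34) (.b 55 (.l 72) (.c 32)))))))))))) (.b 46 (.b 4 (.l 210) (.b 5 (.l 34) (.b 12 (.l 34) (.b 13 (.l 40) (.b 15 (.l 34) (.b 29 (.l 34) (.b 37 (.l 34) (.b 38 (.l 72) (.b 39 (.l 162) (.b 47 (.l 34) (.b 55 (.l 72) (.c 15)))))))))))) (.b 55 (.b 5 (.l 162) (.b 12 (.l 130) (.b 13 (.l 130) (.b 29 (.l 72) (.b 37 (.l 162) (.b 38 (.l 72) (.b 39 (.l 130) (.b 47 (.l 130) (.c 32))))))))) (.b 38 (.b 12 (.l 194) (.b 13 (.l 194) (.b 29 (.l 72) (.b 39 (.l 194) (.b 47 (.l 194)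 (.b 15 (.b 5 (.l 34) (.b 37 (.l 34) (.c 32))) (.c 127))))))) (.c 64))))) (.b 29 (.b 12 (.l 10) (.b 13 (.l 10) (.b 14 (.l 10) (.b 15 (.l 10) (.b 5 (.b 37 (.l 34) (.b 39 (.l 162) (.b 46 (.l 34) (.b 47 (.l 34) (.b 55 (.l 162) (.c 127)))))) (.b 4 (.b 37 (.b 39 (.l 92) (.b 46 (.l 34) (.b 47 (.l 34) (.b 55 (.l 92) (.c 127))))) (.b 39 (.b 46 (.l 92) (.b 55 (.l 92) (.b 47 (.b 38 (.l 60) (.c 64)) (.c 44)))) (.b 38 (.b 46 (.l 72) (.b 55 (.l 72) (.c 83))) (.c 19)))) (.c 3))))))) (.c 12))))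

def t37 : Cert := (.b 22 (.b 31 (.b 4 (.l 210) (.b 5 (.l 46) (.b 11 (.l 194) (.b 12 (.l 46) (.b 13 (.l 194) (.b 14 (.l 46) (.b 15 (.l 46) (.b 20 (.l 46) (.b 28 (.l 46) (.b 30 (.l 46) (.b 37 (.l 46) (.b 38 (.l 194) (.b 39 (.l 194) (.b 46 (.l 46) (.b 47 (.l 46) (.c 3)))))))))))))))) (.b 47 (.b 4 (.l 210) (.b 5 (.l 46) (.b 11 (.l 194) (.b 12 (.l 46) (.b 13 (.l 194) (.b 14 (.l 46) (.b 15 (.l 46) (.b 20 (.l 46) (.b 28 (.l 46) (.b 30 (.l 46) (.b 37 (.l 46) (.b 38 (.l 194) (.b 39 (.l 194) (.b 46 (.l 46) (.c 3))))))))))))))) (.b 15 (.b 5 (.l 46) (.b 12 (.l 46) (.b 14 (.l 46) (.b 20 (.l 46) (.b 28 (.l 46) (.b 30 (.l 46) (.b 37 (.l 46) (.b 46 (.l 46) (.b 13 (.b 4 (.l 210) (.b 11 (.l 2) (.b 19 (.l 10) (.b 29 (.l 10) (.b 38 (.l 194) (.b 39 (.l 194) (.c 8))))))) (.b 29 (.b 11 (.l 34) (.b 19 (.l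 10) (.c 40))) (.c 32))))))))))) t34))) (.b 20 (.b 46 (.b 4 (.l 210) (.b 5 (.l 46) (.b 11 (.l 210) (.b 12 (.l 46) (.b 13 (.l 210) (.b 14 (.l 46) (.b 15 (.l 46) (.b 28 (.l 46) (.b 30 (.l 46) (.b 31 (.l 46) (.b 37 (.l 46) (.b 47 (.l 46) (.c 3))))))))))))) (.b 14 (.b 5 (.l 46) (.b 12 (.l 46) (.b 15 (.l 46) (.b 28 (.l 46) (.b 30 (.l 46) (.b 31 (.l 46) (.b 37 (.l 46) (.b 47 (.l 46) (.b 29 (.b 11 (.l 34) (.b 13 (.l 10) (.b 19 (.l 10) (.b 38 (.l 76) (.b 39 (.l 162) (.b 55 (.l 76) (.c 40))))))) (.b 13 (.b 4 (.l 210) (.b 11 (.l 2) (.b 19 (.l 10) (.b 38 (.l 108) (.b 39 (.l 130) (.b 55 (.l 108) (.c 8))))))) (.c 32))))))))))) (.b 30 (.b 4 (.l 210) (.b 5 (.l 46) (.b 11 (.l 210) (.b 12 (.l 46) (.b 13 (.l 210) (.b 15 (.l 46) (.b 28 (.l 46) (.b 31 (.l 46) (.b 37 (.l 46) (.b 47 (.l 46) (.c 3)))))))))))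 t35))) (.b 19 (.b 31 (.b 5 (.l 42) (.b 12 (.l 10) (.b 13 (.l 10) (.b 14 (.l 10) (.b 15 (.l 10) (.b 28 (.l 10) (.b 29 (.l 10) (.b 30 (.l 10) (.b 37 (.l 42) (.b 46 (.l 42) (.b 47 (.l 42) (.c 32)))))))))))) (.b 30 (.b 5 (.l 42) (.b 12 (.l 10) (.b 13 (.l 10) (.b 14 (.l 10) (.b 15 (.l 10) (.b 28 (.l 10) (.b 29 (.l 10) (.b 37 (.l 42) (.b 46 (.l 42) (.b 47 (.l 42) (.c 32))))))))))) t36)) (.c 4))))

def t38 : Cert := (.b 23 (.b 31 (.b 4 (.l 210) (.b 5 (.l 46) (.b 11 (.l 130) (.b 12 (.l 46) (.b 13 (.l 130) (.b 14 (.l 46) (.b 15 (.l 46) (.b 20 (.l 46) (.b 21 (.l 162) (.b 22 (.l 46) (.b 28 (.l 46) (.b 29 (.l 162) (.b 30 (.l 46) (.b 37 (.l 46) (.b 38 (.l 194) (.b 39 (.l 130) (.b 46 (.l 46) (.b 47 (.l 46) (.b 55 (.l 130) (.c 3)))))))))))))))))))) (.b 11 (.b 4 (.l 210) (.b 5 (.l 162) (.b 12 (.l 130)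 (.b 13 (.l 130) (.b 14 (.l 130) (.b 20 (.l 210) (.b 21 (.l 162) (.b 22 (.l 194) (.b 28 (.l 210) (.b 29 (.l 162) (.b 30 (.l 194) (.b 37 (.l 162) (.b 38 (.l 194) (.b 39 (.l 130) (.b 46 (.l 162) (.b 47 (.l 130) (.b 55 (.l 130) (.c 16)))))))))))))))))) (.b 30 (.b 4 (.l 210) (.b 5 (.l 46) (.b 12 (.l 46) (.b 13 (.l 194) (.b 14 (.l 46) (.b 15 (.l 46) (.b 20 (.l 46) (.b 22 (.l 46) (.b 28 (.l 46) (.b 37 (.l 46) (.b 38 (.l 194) (.b 39 (.l 194) (.b 46 (.l 46) (.b 47 (.l 46) (.c 3))))))))))))))) (.b 28 (.b 4 (.l 210) (.b 5 (.l 46) (.b 12 (.l 46) (.b 13 (.l 210) (.b 14 (.l 46) (.b 15 (.l 46) (.b 20 (.l 46) (.b 22 (.l 46) (.b 37 (.l 46) (.b 46 (.l 46) (.b 47 (.l 46) (.c 3)))))))))))) t32)))) (.b 21 (.b 31 (.b 5 (.l 42) (.b 11 (.l 162) (.b 12 (.l 42) (.b 14 (.l 42) (.b 15 (.l 42) (.b 19 (.l 42) (.b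 28 (.l 42) (.b 29 (.l 162) (.b 30 (.l 42) (.b 37 (.l 42) (.b 39 (.l 162) (.b 46 (.l 42) (.b 47 (.l 42) (.b 55 (.l 162) (.c 119))))))))))))))) (.b 47 (.b 5 (.l 34) (.b 11 (.l 34) (.b 12 (.l 34) (.b 14 (.l 34) (.b 15 (.l 34) (.b 19 (.l 42) (.b 28 (.l 42) (.b 29 (.l 34) (.b 30 (.l 42) (.b 37 (.l 34) (.b 46 (.l 34) (.c 8)))))))))))) t33)) t37))

def t39 : Cert := (.b 11 (.b 4 (.l 60) (.b 12 (.l 34) (.b 13 (.l 44) (.b 14 (.l 34) (.b 15 (.l 34) (.b 20 (.l 44) (.b 21 (.l 34) (.b 22 (.l 44) (.b 23 (.l 44) (.b 28 (.l 44) (.b 29 (.l 34) (.b 30 (.l 44) (.b 37 (.l 34) (.b 38 (.l 60) (.b 39 (.l 60) (.b 46 (.l 34) (.b 47 (.l 34) (.b 55 (.l 108) (.c 14))))))))))))))))))) (.b 30 (.b 4 (.l 60) (.b 12 (.l 42) (.b 13 (.l 44) (.b 14 (.l 42) (.b 15 (.l 42) (.b 19 (.l 42) (.b 20 (.l 44) (.b 21 (.l 42) (.b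 22 (.l 44) (.b 23 (.l 44) (.b 28 (.l 42) (.b 37 (.l 42) (.b 38 (.l 60) (.b 39 (.l 60) (.b 46 (.l 42) (.b 47 (.l 42) (.c 6))))))))))))))))) (.b 28 (.b 12 (.l 42) (.b 13 (.l 44) (.b 14 (.l 42) (.b 15 (.l 42) (.b 19 (.l 42) (.b 20 (.l 44) (.b 21 (.l 42) (.b 22 (.l 44) (.b 23 (.l 44) (.b 37 (.l 42) (.b 38 (.l 108) (.b 46 (.l 42) (.b 47 (.l 42) (.b 55 (.l 108) (.c 6))))))))))))))) (.b 29 (.b 12 (.l 34) (.b 14 (.l 34) (.b 15 (.l 34) (.b 21 (.l 34) (.b 23 (.l 162) (.b 37 (.l 34) (.b 39 (.l 162) (.b 46 (.l 34) (.b 47 (.l 34) (.b 55 (.l 162) (.c 127))))))))))) (.b 19 (.b 12 (.l 42) (.b 14 (.l 42) (.b 15 (.l 42) (.b 21 (.l 42) (.b 37 (.l 42) (.b 46 (.l 42) (.b 47 (.l 42) (.b 13 (.b 4 (.l 60) (.b 20 (.l 44) (.b 22 (.l 44) (.b 23 (.l 44) (.b 38 (.l 60) (.b 39 (.l 60) (.b 55 (.l 108) (.c 47))))))))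 (.b 4 (.b 22 (.l 60) (.b 23 (.l 60) (.b 38 (.l 60) (.b 39 (.l 60) (.b 55 (.l 124) (.c 63)))))) (.c 33)))))))))) (.c 8))))))

def t40 : Cert := (.b 23 (.b 4 (.l 60) (.b 12 (.l 60) (.b 13 (.l 44) (.b 14 (.l 108) (.b 20 (.l 44) (.b 21 (.l 162) (.b 22 (.l 44) (.b 28 (.l 44) (.b 29 (.l 162) (.b 30 (.l 44) (.b 31 (.l 44) (.b 37 (.l 44) (.b 38 (.l 60) (.b 39 (.l 60) (.b 46 (.l 44) (.b 47 (.l 44) (.b 55 (.l 108) (.c 16)))))))))))))))))) (.b 21 (.b 12 (.l 34) (.b 13 (.l 40) (.b 14 (.l 34) (.b 15 (.l 34) (.b 19 (.l 40) (.b 28 (.l 40) (.b 29 (.l 34) (.b 30 (.l 40) (.b 31 (.l 40) (.b 37 (.l 34) (.b 39 (.l 162) (.b 46 (.l 34) (.b 47 (.l 34) (.b 55 (.l 162) (.c 10))))))))))))))) (.b 20 (.b 13 (.l 44) (.b 14 (.l 108) (.b 22 (.l 44) (.b 28 (.l 44) (.b 30 (.l 44) (.b 31 (.l 44) (.b 37 (.l 44) (.b 38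 (.l 108) (.b 46 (.l 44) (.b 47 (.l 44) (.b 55 (.l 108) (.c 64)))))))))))) (.b 22 (.b 4 (.l 60) (.b 12 (.l 60) (.b 13 (.l 44) (.b 28 (.l 44) (.b 30 (.l 44) (.b 31 (.l 44) (.b 37 (.l 44) (.b 38 (.l 60) (.b 39 (.l 60) (.b 46 (.l 44) (.b 47 (.l 44) (.c 16)))))))))))) (.b 19 (.b 13 (.l 40) (.b 28 (.l 40) (.b 30 (.l 40) (.b 31 (.l 40) (.b 37 (.l 40) (.b 46 (.l 40) (.b 47 (.l 40) (.b 29 (.b 12 (.l 34) (.b 14 (.l 34) (.b 15 (.l 34) (.b 38 (.l 72) (.b 39 (.l 162) (.b 55 (.l 72) (.c 63))))))) (.b 4 (.b 12 (.l 60) (.b 14 (.l 124) (.b 38 (.l 60) (.b 39 (.l 60) (.b 55 (.l 124) (.c 49)))))) (.c 33)))))))))) (.c 4))))))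

def t41 : Cert := (.b 23 (.b 4 (.l 124) (.b 12 (.l 46) (.b 13 (.l 108) (.b 15 (.l 46) (.b 20 (.l 46) (.b 21 (.l 162) (.b 22 (.l 46) (.b 28 (.l 46) (.b 29 (.l 162) (.b 30 (.l 46) (.b 31 (.l 46) (.b 37 (.l 46) (.b 38 (.l 108) (.b 39 (.l 124) (.b 46 (.l 46) (.b 47 (.l 46) (.b 55 (.l 108) (.c 16)))))))))))))))))) (.b 21 (.b 12 (.l 34) (.b 15 (.l 34) (.b 19 (.l 42) (.b 28 (.l 42) (.b 29 (.l 34) (.b 30 (.l 42) (.b 31 (.l 42) (.b 37 (.l 34) (.b 39 (.l 162) (.b 46 (.l 34) (.b 47 (.l 34) (.b 55 (.l 162) (.c 8))))))))))))) (.b 20 (.b 12 (.l 46) (.b 13 (.l 108) (.b 15 (.l 46) (.b 22 (.l 46) (.b 28 (.l 46) (.b 30 (.l 46) (.b 31 (.l 46) (.b 37 (.l 46) (.b 38 (.l 108) (.b 46 (.l 46) (.b 47 (.l 46) (.b 55 (.l 108) (.c 66))))))))))))) (.b 22 (.b 12 (.l 46) (.b 15 (.l 46) (.b 28 (.l 46) (.b 30 (.l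 46) (.b 31 (.l 46) (.b 37 (.l 46) (.b 46 (.l 46) (.b 47 (.l 46) (.b 29 (.b 19 (.l 72) (.b 38 (.l 72) (.b 39 (.l 162) (.b 55 (.l 72) (.c 127))))) (.b 19 (.b 38 (.l 72) (.b 55 (.l 72) (.b 13 (.b 4 (.l 60) (.b 39 (.l 60) (.c 16))) (.c 78)))) (.c 8))))))))))) (.b 19 (.b 12 (.l 42) (.b 15 (.l 42) (.b 28 (.l 42) (.b 30 (.l 42) (.b 31 (.l 42) (.b 37 (.l 42) (.b 46 (.l 42) (.b 47 (.l 42) (.b 29 (.b 13 (.l 10) (.b 38 (.l 72) (.b 39 (.l 162) (.b 55 (.l 72) (.c 61))))) (.c 12)))))))))) (.c 4))))))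

def t42 : Cert := (.b 21 (.b 19 (.l 42) (.b 28 (.l 42) (.b 29 (.l 34) (.b 30 (.l 42) (.b 31 (.l 42) (.b 37 (.l 34) (.b 46 (.l 34) (.b 47 (.l 34) (.c 8))))))))) (.b 23 (.b 20 (.l 46) (.b 22 (.l 46) (.b 28 (.l 46) (.b 30 (.l 46) (.b 31 (.l 46) (.b 37 (.l 46) (.b 46 (.l 46) (.b 47 (.l 46) (.b 29 (.b 39 (.l 162) (.b 55 (.l 162) (.b 38 (.b 4 (.l 60) (.c 80)) (.c 64)))) (.b 19 (.b 4 (.b 38 (.l 60) (.b 39 (.l 60) (.b 55 (.l 124) (.c 49)))) (.c 33)) (.c 8))))))))))) (.b 20 (.b 22 (.l 46) (.b 28 (.l 46) (.b 30 (.l 46) (.b 31 (.l 46) (.b 37 (.l 46) (.b 46 (.l 46) (.b 47 (.l 46) (.b 29 (.b 38 (.l 204) (.b 39 (.l 204) (.c 61))) (.b 19 (.b 38 (.l 196) (.b 39 (.l 196) (.c 61))) (.c 8)))))))))) (.b 22 (.b 28 (.l 46) (.b 30 (.l 46) (.b 31 (.l 46) (.b 37 (.l 46) (.b 46 (.l 46) (.b 47 (.l 46) (.b 29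 (.b 19 (.b 38 (.l 72) (.b 55 (.l 72) (.b 4 (.b 39 (.l 60) (.c 125)) (.c 109)))) (.b 4 (.b 38 (.l 60) (.b 39 (.l 60) (.c 57))) (.c 41))) (.b 19 (.b 4 (.b 38 (.l 60) (.b 39 (.l 60) (.c 49))) (.c 33)) (.c 8))))))))) (.b 19 (.b 28 (.l 42) (.b 30 (.l 42) (.b 31 (.l 42) (.b 37 (.l 42) (.b 46 (.l 42) (.b 47 (.l 42) (.b 29 (.b 4 (.b 39 (.b 38 (.l 60) (.b 55 (.l 92) (.c 64))) (.b 38 (.b 55 (.l 72) (.c 125)) (.c 61))) (.c 45)) (.c 12)))))))) (.c 4))))))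

def t43 : Cert := (.b 12 (.b 23 (.b 4 (.l 60) (.b 13 (.l 60) (.b 15 (.l 46) (.b 20 (.l 46) (.b 21 (.l 162) (.b 22 (.l 46) (.b 28 (.l 46) (.b 29 (.l 162) (.b 30 (.l 46) (.b 31 (.l 46) (.b 37 (.l 46) (.b 38 (.l 60) (.b 39 (.l 60) (.b 46 (.l 46) (.b 47 (.l 46) (.b 55 (.l 124) (.c 18))))))))))))))))) (.b 21 (.b 15 (.l 34) (.b 19 (.l 42) (.b 28 (.l 42) (.b 29 (.l 34) (.b 30 (.l 42) (.b 31 (.l 42) (.b 37 (.l 34) (.b 39 (.l 162) (.b 46 (.l 34) (.b 47 (.l 34) (.b 55 (.l 162) (.c 8)))))))))))) (.b 22 (.b 4 (.l 60) (.b 13 (.l 60) (.b 15 (.l 46) (.b 20 (.l 46) (.b 28 (.l 46) (.b 30 (.l 46) (.b 31 (.l 46) (.b 37 (.l 46) (.b 38 (.l 60) (.b 39 (.l 60) (.b 46 (.l 46) (.b 47 (.l 46) (.c 18))))))))))))) (.b 20 (.b 15 (.l 46) (.b 28 (.l 46) (.b 30 (.l 46) (.b 31 (.l 46) (.b 37 (.l 46) (.b 46 (.l 46)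 (.b 47 (.l 46) (.b 29 (.b 39 (.l 162) (.b 55 (.l 162) (.c 127))) (.b 19 (.b 13 (.b 38 (.l 60) (.b 39 (.l 60) (.b 55 (.l 108) (.c 63)))) (.b 4 (.b 38 (.l 60) (.b 39 (.l 60) (.b 55 (.l 124) (.c 63)))) (.c 33))) (.c 8)))))))))) (.b 19 (.b 15 (.l 42) (.b 28 (.l 42) (.b 30 (.l 42) (.b 31 (.l 42) (.b 37 (.l 42) (.b 46 (.l 42) (.b 47 (.l 42) (.b 29 (.b 13 (.l 10) (.b 39 (.l 162) (.b 55 (.l 162) (.c 127)))) (.c 12))))))))) (.c 4)))))) (.b 13 (.b 23 (.b 4 (.l 60) (.b 20 (.l 44) (.b 22 (.l 44) (.b 28 (.l 44) (.b 30 (.l 44) (.b 31 (.l 44) (.b 37 (.l 44) (.b 38 (.l 60) (.b 39 (.l 60) (.b 46 (.l 44) (.b 47 (.l 44) (.b 55 (.l 108) (.c 16))))))))))))) (.b 22 (.b 4 (.l 60) (.b 20 (.l 44) (.b 28 (.l 44) (.b 30 (.l 44) (.b 31 (.l 44) (.b 37 (.l 44) (.b 38 (.l 60) (.b 39 (.l 60) (.b 46 (.l 44) (.b 47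 (.l 44) (.c 16))))))))))) (.b 20 (.b 28 (.l 44) (.b 30 (.l 44) (.b 31 (.l 44) (.b 37 (.l 44) (.b 38 (.l 108) (.b 46 (.l 44) (.b 47 (.l 44) (.b 55 (.l 108) (.c 64))))))))) (.b 21 (.b 19 (.l 40) (.b 28 (.l 40) (.b 30 (.l 40) (.b 31 (.l 40) (.b 37 (.l 40) (.b 46 (.l 40) (.b 47 (.l 40) (.b 29 (.b 15 (.l 34) (.b 39 (.l 162) (.b 55 (.l 162) (.c 127)))) (.c 8))))))))) (.b 19 (.b 28 (.l 40) (.b 30 (.l 40) (.b 31 (.l 40) (.b 37 (.l 40) (.b 46 (.l 40) (.b 47 (.l 40) (.b 29 (.b 15 (.l 10) (.b 4 (.b 38 (.l 60) (.b 39 (.l 60) (.b 55 (.l 124) (.c 63)))) (.c 47))) (.c 12)))))))) (.c 4)))))) (.b 15 t42 (.c 2))))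

def t44 : Cert := (.b 31 (.b 11 (.l 60) (.b 12 (.l 60) (.b 13 (.l 60) (.b 14 (.l 92) (.b 15 (.l 212) (.b 19 (.l 212) (.b 20 (.l 210) (.b 21 (.l 92) (.b 22 (.l 60) (.b 23 (.l 60) (.b 28 (.l 210) (.b 29 (.l 92) (.b 30 (.l 60) (.b 37 (.l 92) (.b 38 (.l 60) (.b 39 (.l 60) (.b 46 (.l 60) (.b 47 (.l 60) (.b 55 (.l 92) (.c 6)))))))))))))))))))) (.b 11 (.b 12 (.l 60) (.b 13 (.l 60) (.b 14 (.l 92) (.b 15 (.l 220) (.b 20 (.l 210) (.b 21 (.l 92) (.b 22 (.l 60) (.b 23 (.l 60) (.b 28 (.l 210) (.b 29 (.l 92) (.b 30 (.l 60) (.b 37 (.l 92) (.b 38 (.l 60) (.b 39 (.l 60) (.b 46 (.l 60) (.b 47 (.l 60) (.b 55 (.l 92) (.c 14)))))))))))))))))) (.b 30 (.b 12 (.l 60) (.b 13 (.l 60) (.b 14 (.l 212) (.b 15 (.l 212) (.b 19 (.l 212) (.b 20 (.l 210) (.b 21 (.l 212) (.b 22 (.l 60) (.b 23 (.l 60) (.b 28 (.l 210)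 (.b 37 (.l 210) (.b 38 (.l 60) (.b 39 (.l 60) (.b 46 (.l 60) (.b 47 (.l 60) (.c 6)))))))))))))))) (.b 28 (.b 12 (.l 212) (.b 13 (.l 210) (.b 14 (.l 212) (.b 15 (.l 212) (.b 19 (.l 212) (.b 20 (.l 210) (.b 21 (.l 212) (.b 22 (.l 210) (.b 23 (.l 210) (.b 37 (.l 210) (.b 46 (.l 210) (.b 47 (.l 210) (.c 6))))))))))))) (.b 29 (.b 12 (.l 92) (.b 14 (.l 92) (.b 15 (.l 220) (.b 21 (.l 92) (.b 23 (.l 92) (.b 37 (.l 92) (.b 39 (.l 92) (.b 46 (.l 92) (.b 47 (.l 220) (.b 55 (.l 92) (.c 127))))))))))) (.b 19 (.b 12 (.l 212) (.b 14 (.l 212) (.b 15 (.l 212) (.b 21 (.l 212) (.b 37 (.l 212) (.b 46 (.l 212) (.b 47 (.l 212) (.b 13 (.b 20 (.l 210) (.b 22 (.l 60) (.b 23 (.l 60) (.b 38 (.l 60) (.b 39 (.l 60) (.b 55 (.l 124) (.c 46))))))) (.c 32))))))))) (.c 8)))))))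

def t45 : Cert := (.b 21 (.b 11 (.l 92) (.b 12 (.l 92) (.b 15 (.l 212) (.b 19 (.l 212) (.b 28 (.l 212) (.b 29 (.l 92) (.b 30 (.l 212) (.b 31 (.l 92) (.b 37 (.l 92) (.b 39 (.l 92) (.b 46 (.l 92) (.b 47 (.l 212) (.b 55 (.l 92) (.c 8)))))))))))))) (.b 20 (.b 12 (.l 208) (.b 15 (.l 208) (.b 22 (.l 208) (.b 28 (.l 208) (.b 30 (.l 208) (.b 31 (.l 208) (.b 37 (.l 208) (.b 46 (.l 208) (.b 47 (.l 208) (.b 29 (.b 11 (.l 76) (.b 38 (.l 76) (.b 39 (.l 92) (.b 55 (.l 76) (.c 127))))) (.b 13 (.b 11 (.l 108) (.b 38 (.l 108) (.b 39 (.l 124) (.b 55 (.l 108) (.c 29))))) (.c 32)))))))))))) (.b 22 (.b 12 (.l 208) (.b 15 (.l 208) (.b 28 (.l 208) (.b 30 (.l 208) (.b 31 (.l 208) (.b 37 (.l 208) (.b 46 (.l 208) (.b 47 (.l 208) (.b 38 (.b 11 (.l 60) (.b 13 (.l 60) (.b 19 (.l 72) (.b 29 (.l 72) (.b 39 (.l 60)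 (.b 55 (.l 64) (.c 8))))))) (.b 39 (.b 11 (.l 60) (.b 13 (.l 60) (.b 29 (.l 92) (.b 55 (.l 92) (.c 32))))) (.c 17))))))))))) (.b 19 (.b 12 (.l 212) (.b 15 (.l 212) (.b 28 (.l 212) (.b 30 (.l 212) (.b 31 (.l 212) (.b 37 (.l 212) (.b 46 (.l 212) (.b 47 (.l 212) (.b 11 (.b 13 (.l 124) (.b 29 (.l 72) (.b 38 (.l 72) (.b 39 (.l 92) (.b 55 (.l 72) (.c 17)))))) (.b 29 (.b 13 (.l 10) (.b 38 (.l 72) (.b 39 (.l 92) (.b 55 (.l 72) (.c 17))))) (.c 12))))))))))) (.c 4)))))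

def t46 : Cert := (.b 21 (.b 12 (.l 92) (.b 15 (.l 220) (.b 29 (.l 92) (.b 31 (.l 92) (.b 37 (.l 92) (.b 39 (.l 92) (.b 46 (.l 92) (.b 47 (.l 220) (.b 55 (.l 92) (.c 127)))))))))) (.b 22 (.b 12 (.l 60) (.b 13 (.l 60) (.b 20 (.l 210) (.b 28 (.l 210) (.b 30 (.l 60) (.b 31 (.l 60) (.b 37 (.l 210) (.b 38 (.l 60) (.b 39 (.l 60) (.b 46 (.l 60) (.b 47 (.l 60) (.c 17)))))))))))) (.b 20 (.b 13 (.l 210) (.b 28 (.l 210) (.b 30 (.l 210) (.b 31 (.l 210) (.b 37 (.l 210) (.b 46 (.l 210) (.b 47 (.l 210) (.b 29 (.b 12 (.l 92) (.b 15 (.l 204) (.b 38 (.l 76) (.b 39 (.l 92) (.b 55 (.l 76) (.c 63)))))) (.c 32))))))))) (.b 19 (.b 46 (.b 12 (.l 60) (.b 13 (.l 40) (.b 15 (.l 212) (.b 28 (.l 40) (.b 29 (.l 72) (.b 30 (.l 40) (.b 31 (.l 40) (.b 37 (.l 40) (.b 38 (.l 60) (.b 39 (.l 60) (.b 47 (.l 40) (.b 55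 (.l 72) (.c 14))))))))))))) (.b 30 (.b 12 (.l 60) (.b 13 (.l 40) (.b 15 (.l 212) (.b 28 (.l 8) (.b 29 (.l 8) (.b 31 (.l 8) (.b 37 (.l 40) (.b 38 (.l 60) (.b 39 (.l 60) (.b 47 (.l 40) (.c 17))))))))))) (.b 55 (.b 12 (.l 92) (.b 13 (.l 124) (.b 28 (.l 72) (.b 29 (.l 72) (.b 31 (.l 72) (.b 37 (.l 92) (.b 38 (.l 72) (.b 39 (.l 92) (.b 47 (.l 124) (.c 17)))))))))) (.b 38 (.b 12 (.l 60) (.b 13 (.l 60) (.b 28 (.l 72) (.b 29 (.l 72) (.b 31 (.l 60) (.b 39 (.l 60) (.b 47 (.l 60) (.c 113)))))))) (.c 64))))) (.c 4)))))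

def t47 : Cert := (.b 20 (.b 28 (.l 210) (.b 30 (.l 210) (.b 31 (.l 210) (.b 37 (.l 210) (.b 46 (.l 210) (.b 47 (.l 210) (.b 29 (.b 21 (.b 38 (.l 76) (.b 39 (.l 92) (.b 55 (.l 76) (.c 63)))) (.b 19 (.b 38 (.b 39 (.l 60) (.b 55 (.l 68) (.c 127))) (.b 39 (.b 55 (.l 92) (.c 64)) (.c 63))) (.c 42))) (.b 19 (.b 21 (.b 38 (.l 68) (.b 39 (.l 196) (.b 55 (.l 68) (.c 63)))) (.c 34)) (.c 8))))))))) (.b 21 (.b 37 (.b 19 (.l 40) (.b 28 (.l 40) (.b 29 (.l 92) (.b 30 (.l 40) (.b 31 (.l 40) (.b 39 (.l 92) (.b 46 (.l 40) (.b 47 (.l 40) (.b 55 (.l 92) (.c 8)))))))))) (.b 28 (.b 19 (.l 40) (.b 30 (.l 40) (.b 31 (.l 40) (.b 46 (.l 40) (.b 47 (.l 40) (.b 29 (.b 38 (.l 76) (.b 39 (.l 92) (.b 55 (.l 76) (.c 63)))) (.c 38))))))) (.b 39 (.b 29 (.l 92) (.b 30 (.l 60) (.b 31 (.l 60) (.b 38 (.l 60) (.b 46 (.l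 60) (.b 47 (.l 60) (.b 55 (.l 92) (.c 46)))))))) (.b 38 (.b 30 (.l 60) (.b 31 (.l 60) (.b 46 (.l 60) (.b 47 (.l 60) (.c 46))))) (.c 17))))) (.b 19 (.b 31 (.b 28 (.l 10) (.b 29 (.l 10) (.b 30 (.l 10) (.b 37 (.l 40) (.b 38 (.l 60) (.b 39 (.l 60) (.b 46 (.l 40) (.b 47 (.l 40) (.b 55 (.l 124) (.c 17)))))))))) (.b 30 (.b 28 (.l 10) (.b 29 (.l 10) (.b 37 (.l 40) (.b 38 (.l 60) (.b 39 (.l 60) (.b 46 (.l 40) (.b 47 (.l 40) (.c 17)))))))) (.b 28 (.b 29 (.l 10) (.b 37 (.l 40) (.b 46 (.l 40) (.b 47 (.l 40) (.c 34))))) (.b 29 (.b 37 (.b 39 (.l 92) (.b 46 (.l 40) (.b 47 (.l 40) (.b 55 (.l 92) (.c 127))))) (.b 39 (.b 38 (.l 60) (.b 46 (.l 60) (.b 47 (.l 60) (.b 55 (.l 92) (.c 46))))) (.b 38 (.b 46 (.l 60) (.b 47 (.l 60) (.b 55 (.l 72) (.c 46)))) (.c 17)))) (.c 12))))) (.c 4))))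

def t48 : Cert := (.b 15 (.b 21 (.b 19 (.l 212) (.b 28 (.l 212) (.b 29 (.l 220) (.b 30 (.l 212) (.b 31 (.l 212) (.b 37 (.l 212) (.b 46 (.l 212) (.b 47 (.l 212) (.c 8))))))))) (.b 23 (.b 20 (.l 208) (.b 22 (.l 208) (.b 28 (.l 208) (.b 30 (.l 208) (.b 31 (.l 208) (.b 37 (.l 208) (.b 46 (.l 208) (.b 47 (.l 208) (.b 29 (.b 39 (.l 92) (.b 55 (.l 92) (.c 81))) (.b 19 (.b 13 (.b 38 (.l 60) (.b 39 (.l 60) (.b 55 (.l 124) (.c 17)))) (.c 32)) (.c 8))))))))))) (.b 20 (.b 22 (.l 208) (.b 28 (.l 208) (.b 30 (.l 208) (.b 31 (.l 208) (.b 37 (.l 208) (.b 46 (.l 208) (.b 47 (.l 208) (.b 29 (.b 38 (.l 204) (.b 39 (.l 204) (.b 19 (.b 13 (.l 10) (.c 61)) (.c 21)))) (.b 19 (.b 38 (.l 196) (.b 39 (.l 196) (.c 29))) (.c 8)))))))))) (.b 22 (.b 28 (.l 208) (.b 30 (.l 208) (.b 31 (.l 208) (.b 37 (.l 208) (.b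 46 (.l 208) (.b 47 (.l 208) (.b 29 (.b 39 (.b 13 (.l 60) (.b 38 (.l 60) (.b 55 (.l 92) (.c 108)))) (.b 38 (.b 13 (.l 60) (.b 19 (.l 72) (.b 55 (.l 72) (.c 40)))) (.c 17))) (.b 19 (.b 13 (.b 38 (.l 60) (.b 39 (.l 60) (.c 17))) (.c 32)) (.c 8))))))))) (.b 19 (.b 28 (.l 212) (.b 30 (.l 212) (.b 31 (.l 212) (.b 37 (.l 212) (.b 46 (.l 212) (.b 47 (.l 212) (.b 29 (.b 13 (.l 10) (.c 44)) (.c 12)))))))) (.c 4)))))) (.b 13 (.b 23 (.b 20 (.l 210) (.b 22 (.l 60) (.b 28 (.l 210) (.b 30 (.l 60) (.b 31 (.l 60) (.b 37 (.l 210) (.b 38 (.l 60) (.b 39 (.l 60) (.b 46 (.l 60) (.b 47 (.l 60) (.b 55 (.l 124) (.c 17)))))))))))) (.b 22 (.b 20 (.l 210) (.b 28 (.l 210) (.b 30 (.l 60) (.b 31 (.l 60) (.b 37 (.l 210) (.b 38 (.l 60) (.b 39 (.l 60) (.b 46 (.l 60) (.b 47 (.l 60) (.c 17)))))))))) t47)) (.c 2)))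

def t49 : Cert := (.b 11 (.b 23 (.b 12 (.l 60) (.b 13 (.l 60) (.b 20 (.l 210) (.b 21 (.l 92) (.b 22 (.l 60) (.b 28 (.l 210) (.b 29 (.l 92) (.b 30 (.l 60) (.b 31 (.l 60) (.b 37 (.l 92) (.b 38 (.l 60) (.b 39 (.l 60) (.b 46 (.l 60) (.b 47 (.l 60) (.b 55 (.l 92) (.c 17)))))))))))))))) t46) (.b 12 (.b 23 (.b 13 (.l 60) (.b 15 (.l 208) (.b 20 (.l 208) (.b 21 (.l 92) (.b 22 (.l 60) (.b 28 (.l 208) (.b 29 (.l 92) (.b 30 (.l 60) (.b 31 (.l 60) (.b 37 (.l 92) (.b 38 (.l 60) (.b 39 (.l 60) (.b 46 (.l 60) (.b 47 (.l 60) (.b 55 (.l 92) (.c 19)))))))))))))))) (.b 21 (.b 15 (.l 212) (.b 19 (.l 212) (.b 28 (.l 212) (.b 29 (.l 92) (.b 30 (.l 212) (.b 31 (.l 92) (.b 37 (.l 92) (.b 39 (.l 92) (.b 46 (.l 92) (.b 47 (.l 212) (.b 55 (.l 92) (.c 8)))))))))))) (.b 22 (.b 13 (.l 60) (.b 15 (.l 208) (.b 20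 (.l 208) (.b 28 (.l 208) (.b 30 (.l 60) (.b 31 (.l 60) (.b 37 (.l 208) (.b 38 (.l 60) (.b 39 (.l 60) (.b 46 (.l 60) (.b 47 (.l 60) (.c 19)))))))))))) (.b 20 (.b 15 (.l 208) (.b 28 (.l 208) (.b 30 (.l 208) (.b 31 (.l 208) (.b 37 (.l 208) (.b 46 (.l 208) (.b 47 (.l 208) (.b 29 (.b 39 (.l 92) (.b 55 (.l 92) (.c 127))) (.b 19 (.b 13 (.b 38 (.l 60) (.b 39 (.l 60) (.b 55 (.l 124) (.c 63)))) (.c 32)) (.c 8)))))))))) (.b 19 (.b 15 (.l 212) (.b 28 (.l 212) (.b 30 (.l 212) (.b 31 (.l 212) (.b 37 (.l 212) (.b 46 (.l 212) (.b 47 (.l 212) (.b 29 (.b 13 (.l 10) (.b 39 (.l 92) (.b 55 (.l 92) (.c 44)))) (.c 12))))))))) (.c 4)))))) t48))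

def t50 : Cert := (.b 7 (.b 10 (.b 31 (.b 1 (.l 130) (.b 4 (.l 210) (.b 5 (.l 162) (.b 11 (.l 130) (.b 12 (.l 130) (.b 13 (.l 130) (.b 14 (.l 130) (.b 15 (.l 196) (.b 19 (.l 196) (.b 20 (.l 196) (.b 21 (.l 162) (.b 22 (.l 194) (.b 23 (.l 130) (.b 28 (.l 210) (.b 29 (.l 162) (.b 30 (.l 194) (.b 37 (.l 162) (.b 38 (.l 194) (.b 39 (.l 130) (.b 46 (.l 162) (.b 47 (.l 130) (.b 55 (.l 130) (.c 6))))))))))))))))))))))) t24) (.b 23 (.b 14 (.b 1 (.l 130) (.b 4 (.l 208) (.b 5 (.l 162) (.b 11 (.l 130) (.b 12 (.l 130) (.b 13 (.l 130) (.b 15 (.l 192) (.b 20 (.l 208) (.b 21 (.l 162) (.b 22 (.l 192) (.b 28 (.l 208) (.b 29 (.l 162) (.b 30 (.l 192) (.b 31 (.l 130) (.b 37 (.l 162) (.b 38 (.l 192) (.b 39 (.l 130) (.b 46 (.l 162) (.b 47 (.l 130) (.b 55 (.l 130) (.c 16))))))))))))))))))))) t25) t30)) (.b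 1 (.b 10 (.b 31 (.b 4 (.l 210) (.b 5 (.l 42) (.b 11 (.l 130) (.b 12 (.l 10) (.b 13 (.l 10) (.b 14 (.l 10) (.b 15 (.l 10) (.b 19 (.l 10) (.b 20 (.l 210) (.b 21 (.l 42) (.b 22 (.l 194) (.b 23 (.l 130) (.b 28 (.l 10) (.b 29 (.l 10) (.b 30 (.l 10) (.b 37 (.l 42) (.b 38 (.l 194) (.b 39 (.l 130) (.b 46 (.l 42) (.b 47 (.l 42) (.b 55 (.l 130) (.c 7)))))))))))))))))))))) t31) t38) (.b 5 (.b 10 (.b 31 (.b 4 (.l 60) (.b 11 (.l 44) (.b 12 (.l 42) (.b 13 (.l 44) (.b 14 (.l 42) (.b 15 (.l 42) (.b 19 (.l 42) (.b 20 (.l 44) (.b 21 (.l 42) (.b 22 (.l 44) (.b 23 (.l 44) (.b 28 (.l 42) (.b 29 (.l 162) (.b 30 (.l 42) (.b 37 (.l 42) (.b 38 (.l 60) (.b 39 (.l 60) (.b 46 (.l 42) (.b 47 (.l 42) (.b 55 (.l 108) (.c 6))))))))))))))))))))) t39) (.b 11 t40 (.b 14 t41 t43))) (.b 4 (.b 10 t44 (.b 14 (.b 23 (.b 11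 (.l 92) (.b 12 (.l 92) (.b 13 (.l 124) (.b 15 (.l 208) (.b 20 (.l 208) (.b 21 (.l 92) (.b 22 (.l 208) (.b 28 (.l 208) (.b 29 (.l 92) (.b 30 (.l 208) (.b 31 (.l 92) (.b 37 (.l 92) (.b 39 (.l 92) (.b 46 (.l 92) (.b 47 (.l 124) (.b 55 (.l 92) (.c 32))))))))))))))))) t45) t49)) (.c 1)))))

def t51 : Cert := (.b 3 (.b 11 (.b 10 (.b 4 (.l 60) (.b 5 (.l 44) (.b 6 (.l 76) (.b 7 (.l 204) (.b 12 (.l 60) (.b 13 (.l 44) (.b 14 (.l 76) (.b 15 (.l 204) (.b 20 (.l 12) (.b 21 (.l 12) (.b 22 (.l 12) (.b 23 (.l 12) (.b 28 (.l 12) (.b 29 (.l 12) (.b 30 (.l 12) (.b 31 (.l 12) (.b 37 (.l 44) (.b 38 (.l 60) (.b 39 (.l 60) (.b 46 (.l 44) (.b 47 (.l 44) (.b 55 (.l 76) (.c 15))))))))))))))))))))))) (.b 2 (.b 4 (.l 60) (.b 5 (.l 44) (.b 6 (.l 76) (.b 7 (.l 204) (.b 12 (.l 60) (.b 13 (.l 44) (.b 14 (.l 76) (.b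 15 (.l 204) (.b 20 (.l 12) (.b 21 (.l 12) (.b 22 (.l 12) (.b 23 (.l 12) (.b 28 (.l 12) (.b 29 (.l 12) (.b 30 (.l 12) (.b 31 (.l 12) (.b 37 (.l 44) (.b 38 (.l 60) (.b 39 (.l 60) (.b 46 (.l 44) (.b 47 (.l 44) (.b 55 (.l 76) (.c 15))))))))))))))))))))))) t0)) t8) (.b 6 t16 (.b 2 (.b 31 (.b 46 (.b 1 (.l 46) (.b 4 (.l 60) (.b 5 (.l 44) (.b 7 (.l 196) (.b 10 (.l 44) (.b 11 (.l 44) (.b 12 (.l 46) (.b 13 (.l 44) (.b 14 (.l 46) (.b 15 (.l 46) (.b 19 (.l 196) (.b 20 (.l 44) (.b 21 (.l 76) (.b 22 (.l 44) (.b 23 (.l 44) (.b 28 (.l 44) (.b 29 (.l 76) (.b 30 (.l 44) (.b 37 (.l 44) (.b 38 (.l 60) (.b 39 (.l 60) (.b 47 (.l 44) (.b 55 (.l 76) (.c 2)))))))))))))))))))))))) t17) t23) t50)))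

def root : Cert := t51

lemma check_root : check 0 0 root = true := by decide +kernel

open Classical in
/-- For every connected graph on `8` vertices at least four edges cross one of the bipartitions. -/
theorem main (G : SimpleGraph (Fin 8)) (hG : G.Connected) :
    ∃ m ∈ masks, 4 ≤ edges.countP (fun e => decide (AdjE G e) && cross m e) :=
  sound G hG root 0 0 (by simp) (by simp) check_root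

end Pool.Agent.W2helper81.StabCert
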