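import Mathlib

set_option autoImplicit false

namespace Pool.Agent.W2helper81.Riesz

/-- the multiplier radius -/
noncomputable def rad (b q : ℝ) : ℝ := b / (1 - (1 - b) * q)

/-- the multiplier weight -/
noncomputable def gmul (b q : ℝ) : ℝ := 2 * rad b q - rad b q ^ 2 * q

lemma den_pos {b q : ℝ} (hb0 : 0 < b) (hb1 : b ≤ 1) (hq1 : q ≤ 1) :
    0 < 1 - (1 - b) * q := by
  nlinarith

lemma rad_pos {b q : ℝ} (hb0 : 0 < b) (hb1 : b ≤ 1) (hq1 : q ≤ 1) :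
    0 < rad b q := div_pos hb0 (den_pos hb0 hb1 hq1)

lemma le_rad {b q : ℝ} (hb0 : 0 < b) (hb1 : b ≤ 1) (hq0 : 0 ≤ q) (hq1 : q ≤ 1) :
    b ≤ rad b q := by
  unfold rad
  rw [le_div_iff₀ (den_pos hb0 hb1 hq1)]
  nlinarith [mul_nonneg hb0.le (mul_nonneg (sub_nonneg.2 hb1) hq0)]

lemma rad_mul_le {b q : ℝ} (hb0 : 0 < b) (hb1 : b ≤ 1) (hq1 : q ≤ 1) :
    rad b q * q ≤ 1 := by
  unfold rad
  rw [div_mul_eq_mul_div, div_le_one (den_pos hb0 hb1 hq1)]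
  nlinarith

lemma rad_mono {b q q' : ℝ} (hb0 : 0 < b) (hb1 : b ≤ 1) (hqq : q ≤ q')
    (hq1 : q' ≤ 1) : rad b q ≤ rad b q' := by
  unfold rad
  have h1 := den_pos hb0 hb1 hq1
  have h2 := den_pos hb0 hb1 (hqq.trans hq1)
  rw [div_le_div_iff₀ h2 h1]
  nlinarith [mul_nonneg hb0.le (mul_nonneg (sub_nonneg.2 hb1) (sub_nonneg.2 hqq))]

lemma gmul_pos {b q : ℝ} (hb0 : 0 < b) (hb1 : b ≤ 1) (hq1 : q ≤ 1) :
    0 < gmul b q := by
  have h1 := rad_pos hb0 hb1 hq1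
  have h2 := rad_mul_le hb0 hb1 hq1
  unfold gmul
  nlinarith

/-- diagonal identity -/
lemma gmul_identity {b q : ℝ} (hb0 : 0 < b) (hb1 : b ≤ 1) (hq1 : q ≤ 1) :
    gmul b q * q - rad b q ^ 2 * (q * (1 - q)) / b = rad b q * q := by
  have h1 := den_pos hb0 hb1 hq1
  unfold gmul rad
  field_simp
  ring

/-- basic facts about the averaged multipliers -/
lemma avg_facts {b qi qj : ℝ} (hb0 : 0 < b) (hb1 : b ≤ 1) (hi0 : 0 ≤ qi) (hi1 : qi ≤ 1)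
    (hj0 : 0 ≤ qj) (hj1 : qj ≤ 1) :
    0 < (gmul b qi + gmul b qj) / 2 ∧
    (gmul b qi + gmul b qj) / 2 ≤ 2 * ((rad b qi + rad b qj) / 2)
      - ((rad b qi ^ 2 + rad b qj ^ 2) / 2) * ((qi + qj) / 2) ∧
    ((rad b qi ^ 2 + rad b qj ^ 2) / 2) * ((qi + qj) / 2) ≤ (rad b qi + rad b qj) / 2 ∧
    ((rad b qi + rad b qj) / 2) ^ 2 ≤ (rad b qi ^ 2 + rad b qj ^ 2) / 2 ∧
    b ≤ (rad b qi + rad b qj) / 2 := by
  have hri := rad_pos hb0 hb1 hi1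
  have hrj := rad_pos hb0 hb1 hj1
  have hbi := le_rad hb0 hb1 hi0 hi1
  have hbj := le_rad hb0 hb1 hj0 hj1
  have hqi := rad_mul_le hb0 hb1 hi1
  have hqj := rad_mul_le hb0 hb1 hj1
  have hgi := gmul_pos hb0 hb1 hi1
  have hgj := gmul_pos hb0 hb1 hj1
  have hcheb : 0 ≤ (rad b qi ^ 2 - rad b qj ^ 2) * (qi - qj) := by
    rcases le_total qi qj with h | h
    · have := rad_mono hb0 hb1 h hj1
      have h1 : rad b qi ^ 2 ≤ rad b qj ^ 2 := pow_le_pow_left₀ hri.le this 2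
      exact mul_nonneg_of_nonpos_of_nonpos (by linarith) (by linarith)
    · have := rad_mono hb0 hb1 h hi1
      have h1 : rad b qj ^ 2 ≤ rad b qi ^ 2 := pow_le_pow_left₀ hrj.le this 2
      exact mul_nonneg (by linarith) (by linarith)
  have e2 : ((rad b qi ^ 2 + rad b qj ^ 2) / 2) * ((qi + qj) / 2) ≤
      (rad b qi ^ 2 * qi + rad b qj ^ 2 * qj) / 2 := by
    linarith
  have e3 : rad b qi ^ 2 * qi ≤ rad b qi := by
    have : rad b qi ^ 2 * qi = rad b qi * (rad b qi * qi) := by ring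
    rw [this]
    calc rad b qi * (rad b qi * qi) ≤ rad b qi * 1 := mul_le_mul_of_nonneg_left hqi hri.le
      _ = _ := mul_one _
  have e4 : rad b qj ^ 2 * qj ≤ rad b qj := by
    have : rad b qj ^ 2 * qj = rad b qj * (rad b qj * qj) := by ring
    rw [this]
    calc rad b qj * (rad b qj * qj) ≤ rad b qj * 1 := mul_le_mul_of_nonneg_left hqj hrj.le
      _ = _ := mul_one _
  refine ⟨by linarith, ?_, by linarith, ?_, by linarith⟩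
  · have e1 : (gmul b qi + gmul b qj) / 2 = 2 * ((rad b qi + rad b qj) / 2) -
        (rad b qi ^ 2 * qi + rad b qj ^ 2 * qj) / 2 := by
      unfold gmul; ring
    linarith
  · linarith [sq_nonneg (rad b qi - rad b qj)]

lemma eta_facts {b c qb R2 : ℝ} (hb0 : 0 < b) (hb1 : b ≤ 1) (hq0 : 0 ≤ qb) (hq1 : qb ≤ 1)
    (hc0 : 0 ≤ c) (hc1 : c ≤ 1) (hR : b ^ 2 ≤ R2) :
    0 ≤ b ^ 3 / 2 * qb * (1 - c ^ 2) ∧
    b ^ 2 * (1 + c ^ 2) / 2 ≤ R2 - b ^ 3 / 2 * qb * (1 - c ^ 2) ∧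
    b ^ 3 / 2 * qb * (1 - c ^ 2) ≤ b ^ 3 * qb / 2 := by
  have hc2 : 0 ≤ 1 - c ^ 2 := by nlinarith
  have hb3 : 0 < b ^ 3 := by positivity
  have hb32 : b ^ 3 ≤ b ^ 2 := by
    have : b ^ 3 = b ^ 2 * b := by ring
    rw [this]
    calc b ^ 2 * b ≤ b ^ 2 * 1 := mul_le_mul_of_nonneg_left hb1 (by positivity)
      _ = _ := mul_one _
  have e1 : b ^ 3 * qb ≤ b ^ 2 := by
    calc b ^ 3 * qb ≤ b ^ 3 * 1 := mul_le_mul_of_nonneg_left hq1 hb3.le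
      _ ≤ b ^ 2 := by linarith
  have e2 : b ^ 3 * qb * (1 - c ^ 2) ≤ b ^ 2 * (1 - c ^ 2) :=
    mul_le_mul_of_nonneg_right e1 hc2
  have e3 : b ^ 3 * qb * (1 - c ^ 2) ≤ b ^ 3 * qb * 1 :=
    mul_le_mul_of_nonneg_left (by nlinarith) (by positivity)
  refine ⟨by positivity, by linarith, by linarith⟩

/-- key inequality in the nonnegative case -/
lemma key_pos {b c qb R2 rb g η ζ Q : ℝ} (hb0 : 0 < b)
    (hc0 : 0 ≤ c) (hc1 : c ≤ 1)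
    (hη : η = b ^ 3 / 2 * qb * (1 - c ^ 2)) (hη0 : 0 ≤ η)
    (hgle : g ≤ 2 * rb - R2 * qb)
    (hrbR : rb ^ 2 ≤ R2) (hbrb : b ≤ rb) (hbR : b ^ 2 ≤ R2)
    (hζsq : ζ ^ 2 = R2 - η) (hζpos : 0 < ζ) (hζb : b * (1 + c) / 2 ≤ ζ)
    (hQ0 : 0 ≤ Q) (hQ : Q ≤ c * qb) (hQqb : Q ≤ qb) :
    g ≤ 2 * ζ - ζ ^ 2 * Q ∧ (0 < Q → Q < qb → g < 2 * ζ - ζ ^ 2 * Q) := by
  have hR2 : 0 < R2 := lt_of_lt_of_le (by positivity) hbR
  rw [hζsq]
  have hηQ : 0 ≤ η * Q := mul_nonneg hη0 hQ0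
  rcases le_or_gt rb ζ with h | h
  · have e1 : 0 ≤ R2 * (qb - Q) := mul_nonneg hR2.le (by linarith)
    constructor
    · linarith
    · intro _ h2
      have e1 : 0 < R2 * (qb - Q) := mul_pos hR2 (by linarith)
      linarith
  · have hrz : 0 < rb + ζ := by linarith
    have hsq : ζ ^ 2 < rb ^ 2 := pow_lt_pow_left₀ h hζpos.le two_ne_zero
    have hηpos : 0 < η := by linarith
    have h1 : (rb - ζ) * (rb + ζ) ≤ η := by
      have : (rb - ζ) * (rb + ζ) = rb ^ 2 - ζ ^ 2 := by ring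
      linarith
    have h3 : b ^ 3 * (1 + c) ≤ R2 * (rb + ζ) := by
      have e1 : b + b * (1 + c) / 2 ≤ rb + ζ := by linarith
      have e2 : b ^ 2 * (b + b * (1 + c) / 2) ≤ R2 * (rb + ζ) :=
        mul_le_mul hbR e1 (by positivity) hR2.le
      have e3 : b ^ 3 * (1 + c) ≤ b ^ 2 * (b + b * (1 + c) / 2) := by
        have : b ^ 2 * (b + b * (1 + c) / 2) = b ^ 3 * (1 + c) + b ^ 3 * (1 - c) / 2 := by ring
        rw [this]
        have : 0 ≤ b ^ 3 * (1 - c) := mul_nonneg (by positivity) (by linarith)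
        linarith
      linarith
    have h4 : 2 * η ≤ b ^ 3 * (1 + c) * (qb - Q) := by
      have : 2 * η = b ^ 3 * (1 + c) * (qb * (1 - c)) := by rw [hη]; ring
      rw [this]
      apply mul_le_mul_of_nonneg_left _ (by positivity)
      linarith
    have h5 : 2 * η ≤ R2 * (rb + ζ) * (qb - Q) :=
      h4.trans (mul_le_mul_of_nonneg_right h3 (by linarith))
    have h6 : 2 * (rb - ζ) ≤ R2 * (qb - Q) := by
      have h7 : 2 * (rb - ζ) * (rb + ζ) ≤ R2 * (qb - Q) * (rb + ζ) := by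
        have e1 : 2 * (rb - ζ) * (rb + ζ) = 2 * ((rb - ζ) * (rb + ζ)) := by ring
        have e2 : R2 * (qb - Q) * (rb + ζ) = R2 * (rb + ζ) * (qb - Q) := by ring
        rw [e1, e2]; linarith
      exact le_of_mul_le_mul_right h7 hrz
    constructor
    · linarith
    · intro hQpos _
      have : 0 < η * Q := mul_pos hηpos hQpos
      linarith

lemma key_neg {b qb R2 rb g η : ℝ} (hb0 : 0 < b) (hq0 : 0 ≤ qb)
    (hη1 : η ≤ b ^ 3 * qb / 2) (hg0 : 0 < g)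
    (hgle : g ≤ 2 * rb - R2 * qb) (hRq : R2 * qb ≤ rb)
    (hrbR : rb ^ 2 ≤ R2) (hbR : b ^ 2 ≤ R2) :
    (g / 2) ^ 2 ≤ R2 - η := by
  have hR2pos : 0 < R2 := lt_of_lt_of_le (by positivity) hbR
  obtain ⟨R, hRsq, hRpos, hbR', hrbR'⟩ : ∃ R : ℝ, R ^ 2 = R2 ∧ 0 < R ∧ b ≤ R ∧ rb ≤ R :=
    ⟨√R2, Real.sq_sqrt hR2pos.le, Real.sqrt_pos.2 hR2pos, Real.le_sqrt_of_sq_le hbR,
      Real.le_sqrt_of_sq_le hrbR⟩
  have hRqb : R * qb ≤ 1 := by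
    have : R * (R * qb) ≤ R * 1 := by
      have : R * (R * qb) = R2 * qb := by rw [← hRsq]; ring
      rw [this]; linarith
    exact le_of_mul_le_mul_left this hRpos
  have h1 : g / 2 ≤ R * (1 - R * qb / 2) := by
    have : R * (1 - R * qb / 2) = R - R2 * qb / 2 := by rw [← hRsq]; ring
    rw [this]; linarith
  have h2 : (g / 2) ^ 2 ≤ (R * (1 - R * qb / 2)) ^ 2 := pow_le_pow_left₀ (by linarith) h1 2
  have hRqb0 : 0 ≤ R * qb := by positivity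
  have h3 : (1 - R * qb / 2) ^ 2 ≤ 1 - R * qb / 2 := by nlinarith
  have h4 : (R * (1 - R * qb / 2)) ^ 2 ≤ R ^ 2 * (1 - R * qb / 2) := by
    rw [mul_pow]; exact mul_le_mul_of_nonneg_left h3 (by positivity)
  have h5 : b ^ 3 ≤ R ^ 3 := pow_le_pow_left₀ hb0.le hbR' 3
  have h7 : b ^ 3 * qb ≤ R ^ 3 * qb := mul_le_mul_of_nonneg_right h5 hq0
  have h8 : R ^ 2 * (1 - R * qb / 2) = R2 - R ^ 3 * qb / 2 := by rw [← hRsq]; ring
  linarith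

/-- abstract pair inequality -/
lemma pair_abs {b c qb R2 rb g η Q : ℝ} (hb0 : 0 < b) (hb1 : b ≤ 1) (hq0 : 0 ≤ qb) (hq1 : qb ≤ 1)
    (hc0 : 0 ≤ c) (hc1 : c ≤ 1) (hη : η = b ^ 3 / 2 * qb * (1 - c ^ 2)) (hg0 : 0 < g)
    (hgle : g ≤ 2 * rb - R2 * qb) (hRq : R2 * qb ≤ rb)
    (hrbR : rb ^ 2 ≤ R2) (hbrb : b ≤ rb) (hQ : |Q| ≤ c * qb) :
    0 ≤ 1 - g * Q ∧ (1 - √(1 - g * Q)) ^ 2 ≤ R2 * Q ^ 2 - η * Q ^ 2 ∧
    ((1 - √(1 - g * Q)) ^ 2 = R2 * Q ^ 2 - η * Q ^ 2 → Q = 0 ∨ Q = qb) := by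
  have hbR : b ^ 2 ≤ R2 := (pow_le_pow_left₀ hb0.le hbrb 2).trans hrbR
  obtain ⟨hη0, hζ2, hη1⟩ := eta_facts hb0 hb1 hq0 hq1 hc0 hc1 hbR
  rw [← hη] at hη0 hζ2 hη1
  have hbpos2 : 0 < b ^ 2 := by positivity
  have hRη : 0 < R2 - η := lt_of_lt_of_le (by positivity) hζ2
  rcases le_or_gt 0 Q with hQ0 | hQ0
  · rw [abs_of_nonneg hQ0] at hQ
    have hQqb : Q ≤ qb := hQ.trans (by nlinarith)
    obtain ⟨ζ, hζsq, hζpos, hζb⟩ : ∃ ζ : ℝ, ζ ^ 2 = R2 - η ∧ 0 < ζ ∧ b * (1 + c) / 2 ≤ ζ := by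
      refine ⟨√(R2 - η), Real.sq_sqrt hRη.le, Real.sqrt_pos.2 hRη, ?_⟩
      apply Real.le_sqrt_of_sq_le
      refine le_trans ?_ hζ2
      have : b ^ 2 * (1 + c ^ 2) / 2 - (b * (1 + c) / 2) ^ 2 = b ^ 2 * (1 - c) ^ 2 / 4 := by ring
      have h2 : 0 ≤ b ^ 2 * (1 - c) ^ 2 / 4 := by positivity
      linarith
    have key := key_pos hb0 hc0 hc1 hη hη0 hgle hrbR hbrb hbR hζsq hζpos hζb hQ0 hQ hQqb
    have hZ0 : 0 ≤ ζ * Q := by positivity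
    have hlam : (1 - ζ * Q) ^ 2 ≤ 1 - g * Q := by
      have := mul_le_mul_of_nonneg_right key.1 hQ0
      have e : (1 - ζ * Q) ^ 2 = 1 - (2 * ζ - ζ ^ 2 * Q) * Q := by ring
      linarith
    have hlam0 : 0 ≤ 1 - g * Q := (sq_nonneg _).trans hlam
    have hlam1 : 1 - g * Q ≤ 1 := by
      have := mul_nonneg hg0.le hQ0
      linarith
    have hs1 : √(1 - g * Q) ≤ 1 := by
      exact Real.sqrt_le_iff.2 ⟨by norm_num, by linarith⟩
    have hs2 : 1 - ζ * Q ≤ √(1 - g * Q) := Real.le_sqrt_of_sq_le hlam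
    have eR : R2 * Q ^ 2 - η * Q ^ 2 = (ζ * Q) ^ 2 := by rw [mul_pow, hζsq]; ring
    refine ⟨hlam0, ?_, ?_⟩
    · rw [eR]
      exact pow_le_pow_left₀ (by linarith) (by linarith) 2
    · intro heq
      rw [eR] at heq
      by_contra hne
      push Not at hne
      have hQpos : 0 < Q := lt_of_le_of_ne hQ0 (Ne.symm hne.1)
      have hQlt : Q < qb := lt_of_le_of_ne hQqb hne.2
      have hst := key.2 hQpos hQlt
      have e1 : 1 - √(1 - g * Q) = ζ * Q :=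
        (pow_left_inj₀ (by linarith) hZ0 (two_ne_zero)).1 heq
      have e2 : √(1 - g * Q) ^ 2 = 1 - g * Q := Real.sq_sqrt hlam0
      have e3 : √(1 - g * Q) = 1 - ζ * Q := by linarith
      rw [e3] at e2
      have := mul_lt_mul_of_pos_right hst hQpos
      have e : (1 - ζ * Q) ^ 2 = 1 - (2 * ζ - ζ ^ 2 * Q) * Q := by ring
      linarith
  · have hgQ : 0 < g * (-Q) := mul_pos hg0 (by linarith)
    have hlam1 : 1 < 1 - g * Q := by linarith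
    have hs1 : 1 < √(1 - g * Q) := by
      rw [Real.lt_sqrt (by norm_num)]; linarith
    have hs2 : √(1 - g * Q) ^ 2 = 1 - g * Q := Real.sq_sqrt (by linarith)
    have hg2 := key_neg hb0 hq0 hη1 hg0 hgle hRq hrbR hbR
    obtain ⟨u, hu⟩ : ∃ u, u = √(1 - g * Q) := ⟨_, rfl⟩
    rw [← hu] at hs1 hs2 ⊢
    have hlt : u - 1 < g / 2 * (-Q) := by
      have h0 : 0 < u - 1 := by linarith
      have h1 : (u - 1) * 2 < (u - 1) * (u + 1) := mul_lt_mul_of_pos_left (by linarith) h0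
      have h2 : (u - 1) * (u + 1) = u ^ 2 - 1 := by ring
      linarith
    have hnn : 0 ≤ u - 1 := by linarith
    have hsq : (u - 1) ^ 2 < (g / 2 * (-Q)) ^ 2 := pow_lt_pow_left₀ hlt hnn two_ne_zero
    have hfin : (g / 2 * (-Q)) ^ 2 ≤ R2 * Q ^ 2 - η * Q ^ 2 := by
      have : (g / 2 * (-Q)) ^ 2 = (g / 2) ^ 2 * Q ^ 2 := by ring
      rw [this, ← sub_mul]
      exact mul_le_mul_of_nonneg_right hg2 (sq_nonneg _)
    have hswap : (1 - u) ^ 2 = (u - 1) ^ 2 := by ring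
    refine ⟨by linarith, ?_, ?_⟩
    · rw [hswap]; linarith
    · intro heq
      rw [hswap] at heq
      linarith

/-- The scalar pair inequality. -/
lemma pair_ineq {b qi qj Q c : ℝ} (hb0 : 0 < b) (hb1 : b ≤ 1) (hi0 : 0 ≤ qi) (hi1 : qi ≤ 1)
    (hj0 : 0 ≤ qj) (hj1 : qj ≤ 1) (hc0 : 0 ≤ c) (hc1 : c ≤ 1) (hQ : |Q| ≤ c * ((qi + qj) / 2)) :
    0 ≤ 1 - (gmul b qi + gmul b qj) / 2 * Q ∧
    (1 - √(1 - (gmul b qi + gmul b qj) / 2 * Q)) ^ 2 ≤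
      (rad b qi ^ 2 + rad b qj ^ 2) / 2 * Q ^ 2
        - b ^ 3 / 2 * ((qi + qj) / 2) * (1 - c ^ 2) * Q ^ 2 ∧
    ((1 - √(1 - (gmul b qi + gmul b qj) / 2 * Q)) ^ 2 =
      (rad b qi ^ 2 + rad b qj ^ 2) / 2 * Q ^ 2
        - b ^ 3 / 2 * ((qi + qj) / 2) * (1 - c ^ 2) * Q ^ 2 → Q = 0 ∨ Q = (qi + qj) / 2) := by
  obtain ⟨hg0, hgle, hRq, hrbR, hbrb⟩ := avg_facts hb0 hb1 hi0 hi1 hj0 hj1
  exact pair_abs hb0 hb1 (by linarith) (by linarith) hc0 hc1 rfl hg0 hgle hRq hrbR hbrb hQ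

end Pool.Agent.W2helper81.Riesz
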