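import Mathlib
import Pool.Agent.W2helper81.RieszPair

set_option autoImplicit false
set_option linter.unusedSectionVars false

namespace Pool.Agent.W2helper81.Riesz

open scoped BigOperators
open Finset

variable {ι : Type*} [Fintype ι] [DecidableEq ι]
variable {E : Type*} [NormedAddCommGroup E] [InnerProductSpace ℝ E]

/-- the relation map -/
noncomputable def relMap (x : ι → E) : EuclideanSpace ℝ ι →ₗ[ℝ] E :=
  { toFun := fun w => ∑ i, w i • x i
    map_add' := fun v w => by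
      simp only [PiLp.add_apply, add_smul, Finset.sum_add_distrib]
    map_smul' := fun c w => by
      simp only [PiLp.smul_apply, smul_eq_mul, RingHom.id_apply, Finset.smul_sum, mul_smul] }

lemma relMap_apply (x : ι → E) (w : EuclideanSpace ℝ ι) : relMap x w = ∑ i, w i • x i := rfl

/-- An orthonormal basis of the space of linear relations, as plain functions. -/
lemma exists_basis [FiniteDimensional ℝ E] (x : ι → E) :
    ∃ (s : ℕ) (f : Fin s → ι → ℝ), (∀ a a', ∑ k, f a k * f a' k = if a = a' then 1 else 0) ∧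
      (∀ a, ∑ j, f a j • x j = 0) ∧
      Fintype.card ι ≤ Module.finrank ℝ E + s := by
  classical
  set K := LinearMap.ker (relMap x) with hK
  let b := stdOrthonormalBasis ℝ K
  refine ⟨Module.finrank ℝ K, fun a i => ((b a : K) : EuclideanSpace ℝ ι) i, ?_, ?_, ?_⟩
  · intro a a'
    have h := orthonormal_iff_ite.1 b.orthonormal a a'
    rw [Submodule.coe_inner, PiLp.inner_apply] at h
    rw [← h]
    apply Finset.sum_congr rfl
    intro k _
    rw [RCLike.inner_apply, conj_trivial, mul_comm]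
  · intro a
    have h : ((b a : K) : EuclideanSpace ℝ ι) ∈ LinearMap.ker (relMap x) := (b a).2
    rw [LinearMap.mem_ker, relMap_apply] at h
    exact h
  · have h2 := LinearMap.finrank_range_add_finrank_ker (relMap x)
    rw [finrank_euclideanSpace] at h2
    have h3 : Module.finrank ℝ (LinearMap.range (relMap x)) ≤ Module.finrank ℝ E :=
      Submodule.finrank_le _
    rw [hK]
    omega

/-- `Q` is a symmetric projection onto linear relations of `x` of trace at least `card - dim`. -/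
structure ProjData (x : ι → E) (Q : ι → ι → ℝ) : Prop where
  symm : ∀ i j, Q i j = Q j i
  idem : ∀ i j, ∑ k, Q i k * Q j k = Q i j
  rel : ∀ i, ∑ j, Q i j • x j = 0
  tr : (Fintype.card ι : ℝ) - Module.finrank ℝ E ≤ ∑ i, Q i i

lemma exists_projData [FiniteDimensional ℝ E] (x : ι → E) : ∃ Q, ProjData x Q := by
  obtain ⟨s, f, horth, hT, hcard⟩ := exists_basis x
  refine ⟨fun i j => ∑ a, f a i * f a j, ?_, ?_, ?_, ?_⟩
  · intro i j
    apply Finset.sum_congr rfl
    intro a _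
    ring
  · intro i j
    calc ∑ k, (∑ a, f a i * f a k) * (∑ a, f a j * f a k)
        = ∑ k, ∑ a, ∑ a', f a i * f a k * (f a' j * f a' k) := by
          apply Finset.sum_congr rfl
          intro k _
          rw [Finset.sum_mul_sum]
      _ = ∑ a, ∑ a', ∑ k, f a i * f a k * (f a' j * f a' k) := by
          rw [Finset.sum_comm]
          apply Finset.sum_congr rfl
          intro a _
          rw [Finset.sum_comm]
      _ = ∑ a, ∑ a', f a i * f a' j * (if a = a' then 1 else 0) := by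
          apply Finset.sum_congr rfl
          intro a _
          apply Finset.sum_congr rfl
          intro a' _
          rw [← horth a a', Finset.mul_sum]
          apply Finset.sum_congr rfl
          intro k _
          ring
      _ = ∑ a, f a i * f a j := by
          apply Finset.sum_congr rfl
          intro a _
          simp
  · intro i
    calc ∑ j, (∑ a, f a i * f a j) • x j = ∑ a, f a i • ∑ j, f a j • x j := by
          simp only [Finset.sum_smul, Finset.smul_sum, mul_smul]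
          rw [Finset.sum_comm]
      _ = 0 := by simp only [hT, smul_zero, Finset.sum_const_zero]
  · have h1 : ∑ i, ∑ a, f a i * f a i = (s : ℝ) := by
      rw [Finset.sum_comm]
      have : ∀ a, ∑ k, f a k * f a k = 1 := by
        intro a
        rw [horth a a]
        simp
      simp [this]
    rw [h1]
    have h5 : (Fintype.card ι : ℝ) ≤ Module.finrank ℝ E + s := by exact_mod_cast hcard
    linarith

section facts

variable {x : ι → E} {Q : ι → ι → ℝ}

lemma ProjData.diag_nonneg (h : ProjData x Q) (i : ι) : 0 ≤ Q i i := by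
  rw [← h.idem i i]
  exact Finset.sum_nonneg fun k _ => mul_self_nonneg _

lemma ProjData.diag_le_one (h : ProjData x Q) (i : ι) : Q i i ≤ 1 := by
  have h1 : Q i i * Q i i ≤ ∑ k, Q i k * Q i k :=
    Finset.single_le_sum (f := fun k => Q i k * Q i k) (fun k _ => mul_self_nonneg _)
      (Finset.mem_univ i)
  rw [h.idem i i] at h1
  by_contra hc
  push Not at hc
  nlinarith

lemma ProjData.sq_sum (h : ProjData x Q) (i j : ι) :
    ∑ k, (Q i k - Q j k) ^ 2 = Q i i + Q j j - 2 * Q i j := by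
  have : ∀ k, (Q i k - Q j k) ^ 2 = Q i k * Q i k + Q j k * Q j k - 2 * (Q i k * Q j k) := by
    intro k; ring
  simp only [this, Finset.sum_sub_distrib, Finset.sum_add_distrib, ← Finset.mul_sum, h.idem]

lemma ProjData.sq_le (h : ProjData x Q) (i j : ι) : Q i j ^ 2 ≤ Q i i * Q j j := by
  have h1 := Finset.sum_mul_sq_le_sq_mul_sq Finset.univ (fun k => Q i k) (fun k => Q j k)
  have h2 : ∑ k, Q i k ^ 2 = Q i i := by
    rw [← h.idem i i]; exact Finset.sum_congr rfl fun k _ => by ring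
  have h3 : ∑ k, Q j k ^ 2 = Q j j := by
    rw [← h.idem j j]; exact Finset.sum_congr rfl fun k _ => by ring
  rw [h2, h3, h.idem] at h1
  exact h1

/-- the squared cosines -/
noncomputable def cosq (Q : ι → ι → ℝ) (i j : ι) : ℝ := Q i j ^ 2 / (Q i i * Q j j)

lemma ProjData.cosq_nonneg (h : ProjData x Q) (i j : ι) : 0 ≤ cosq Q i j :=
  div_nonneg (sq_nonneg _) (mul_nonneg (h.diag_nonneg i) (h.diag_nonneg j))

lemma ProjData.cosq_le_one (h : ProjData x Q) (i j : ι) : cosq Q i j ≤ 1 := by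
  unfold cosq
  rcases eq_or_lt_of_le (mul_nonneg (h.diag_nonneg i) (h.diag_nonneg j)) with h0 | h0
  · rw [← h0]; simp
  · rw [div_le_one h0]; exact h.sq_le i j

lemma ProjData.abs_le (h : ProjData x Q) (i j : ι) :
    |Q i j| ≤ √(cosq Q i j) * ((Q i i + Q j j) / 2) := by
  have hi := h.diag_nonneg i
  have hj := h.diag_nonneg j
  rcases eq_or_lt_of_le (mul_nonneg hi hj) with h0 | h0
  · have h1 := h.sq_le i j
    rw [← h0] at h1
    have h2 : Q i j = 0 := by nlinarith [sq_nonneg (Q i j)]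
    rw [h2, abs_zero]
    exact mul_nonneg (Real.sqrt_nonneg _) (by linarith)
  · have e1 : |Q i j| = √(cosq Q i j) * √(Q i i * Q j j) := by
      unfold cosq
      rw [← Real.sqrt_mul (div_nonneg (sq_nonneg _) h0.le), div_mul_cancel₀ _ h0.ne',
        Real.sqrt_sq_eq_abs]
    rw [e1]
    apply mul_le_mul_of_nonneg_left _ (Real.sqrt_nonneg _)
    rw [Real.sqrt_le_left (by linarith)]
    nlinarith [sq_nonneg (Q i i - Q j j)]

lemma ProjData.rel_inner (h : ProjData x Q) (i : ι) (v : E) :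
    ∑ j, Q i j * inner ℝ v (x j) = 0 := by
  have h1 : inner ℝ v (∑ j, Q i j • x j) = (0 : ℝ) := by rw [h.rel i, inner_zero_right]
  rw [inner_sum] at h1
  simpa only [real_inner_smul_right] using h1

end facts

lemma off_sum (f : ι → ι → ℝ) :
    ∑ i, ∑ j ∈ univ.erase i, f i j = ∑ i, ∑ j, f i j - ∑ i, f i i := by
  rw [← Finset.sum_sub_distrib]
  apply Finset.sum_congr rfl
  intro i _
  rw [Finset.sum_erase_eq_sub (Finset.mem_univ i)]

/-- sum of `φ` of the inner products over the ordered pairs of distinct indices -/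
noncomputable def pairSum (φ : ℝ → ℝ) (x : ι → E) : ℝ :=
  ∑ i, ∑ j ∈ univ.erase i, φ (inner ℝ (x i) (x j))

/-- the total crude slack -/
noncomputable def xi (Q : ι → ι → ℝ) : ℝ :=
  ∑ i, ∑ j, (Q i i + Q j j) / 2 * (1 - cosq Q i j) * Q i j ^ 2

/-- the basic kernels -/
noncomputable def ker (b t : ℝ) : ℝ := t / (1 - b * t)

noncomputable def psi (b q : ℝ) : ℝ := rad b q * q

/-- the gap between the `b`-energy and its lower bound -/
noncomputable def gap (b : ℝ) (x : ι → E) (Q : ι → ι → ℝ) : ℝ :=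
  pairSum (ker b) x -
    (-(Fintype.card ι : ℝ) + ‖∑ i, x i‖ ^ 2 + ∑ i, psi b (Q i i) + b ^ 2 / 2 * xi Q)

/-- the individual gaps -/
noncomputable def gapPair (b : ℝ) (x : ι → E) (Q : ι → ι → ℝ) (i j : ι) : ℝ :=
  ker b (inner ℝ (x i) (x j)) - ((1 - (gmul b (Q i i) + gmul b (Q j j)) / 2 * Q i j) *
    inner ℝ (x i) (x j) - (rad b (Q i i) ^ 2 + rad b (Q j j) ^ 2) / 2 * Q i j ^ 2 / b
    + b ^ 2 / 2 * ((Q i i + Q j j) / 2 * (1 - cosq Q i j) * Q i j ^ 2))

lemma gap_eq {x : ι → E} {Q : ι → ι → ℝ} (h : ProjData x Q) (hx : ∀ i, ‖x i‖ = 1)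
    {b : ℝ} (hb0 : 0 < b) (hb1 : b ≤ 1) :
    gap b x Q = ∑ i, ∑ j ∈ univ.erase i, gapPair b x Q i j := by
  have hxx : ∀ i, inner ℝ (x i) (x i) = (1 : ℝ) := fun i => by
    rw [real_inner_self_eq_norm_sq, hx i]; norm_num
  have hb : b ≠ 0 := hb0.ne'
  -- split
  have s1 : ∑ i, ∑ j ∈ univ.erase i, gapPair b x Q i j = pairSum (ker b) x -
      (∑ i, ∑ j ∈ univ.erase i, ((1 - (gmul b (Q i i) + gmul b (Q j j)) / 2 * Q i j) *
        inner ℝ (x i) (x j)) -
       ∑ i, ∑ j ∈ univ.erase i, ((rad b (Q i i) ^ 2 + rad b (Q j j) ^ 2) / 2 * Q i j ^ 2 / b) +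
       ∑ i, ∑ j ∈ univ.erase i, (b ^ 2 / 2 * ((Q i i + Q j j) / 2 * (1 - cosq Q i j) * Q i j ^ 2))) := by
    unfold pairSum gapPair
    simp only [Finset.sum_sub_distrib, Finset.sum_add_distrib]
  -- first
  have s2 : ∑ i, ∑ j ∈ univ.erase i, ((1 - (gmul b (Q i i) + gmul b (Q j j)) / 2 * Q i j) *
        inner ℝ (x i) (x j)) = ‖∑ i, x i‖ ^ 2 - Fintype.card ι + ∑ i, gmul b (Q i i) * Q i i := by
    rw [off_sum]
    have e1 : ∑ i, ∑ j, inner ℝ (x i) (x j) = ‖∑ i, x i‖ ^ 2 := by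
      rw [← real_inner_self_eq_norm_sq, sum_inner]
      exact Finset.sum_congr rfl fun i _ => by rw [inner_sum]
    have e2 : ∑ i, ∑ j, gmul b (Q i i) * (Q i j * inner ℝ (x i) (x j)) = 0 := by
      apply Finset.sum_eq_zero
      intro i _
      rw [← Finset.mul_sum, h.rel_inner, mul_zero]
    have e3 : ∑ i, ∑ j, gmul b (Q j j) * (Q i j * inner ℝ (x i) (x j)) = 0 := by
      rw [Finset.sum_comm]
      apply Finset.sum_eq_zero
      intro i _
      rw [← Finset.mul_sum]
      have : ∑ j, Q j i * inner ℝ (x j) (x i) = 0 := by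
        rw [← h.rel_inner i (x i)]
        exact Finset.sum_congr rfl fun j _ => by rw [h.symm, real_inner_comm]
      rw [this, mul_zero]
    have e4 : ∀ i j, (1 - (gmul b (Q i i) + gmul b (Q j j)) / 2 * Q i j) * inner ℝ (x i) (x j) =
        inner ℝ (x i) (x j) - 2⁻¹ * (gmul b (Q i i) * (Q i j * inner ℝ (x i) (x j)))
          - 2⁻¹ * (gmul b (Q j j) * (Q i j * inner ℝ (x i) (x j))) := by
      intro i j; ring
    have e5 : ∑ i, ∑ j, (1 - (gmul b (Q i i) + gmul b (Q j j)) / 2 * Q i j) *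
        inner ℝ (x i) (x j) = ‖∑ i, x i‖ ^ 2 := by
      simp only [e4, Finset.sum_sub_distrib, ← Finset.mul_sum]
      simp only [← Finset.mul_sum] at e2 e3
      rw [e1]
      simp only [Finset.mul_sum] at e2 e3 ⊢
      have e2' : ∑ i, ∑ j, 2⁻¹ * (gmul b (Q i i) * (Q i j * inner ℝ (x i) (x j))) = 0 := by
        simp only [← Finset.mul_sum] at e2 ⊢
        rw [e2, mul_zero]
      have e3' : ∑ i, ∑ j, 2⁻¹ * (gmul b (Q j j) * (Q i j * inner ℝ (x i) (x j))) = 0 := by
        simp only [← Finset.mul_sum] at e3 ⊢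
        rw [e3, mul_zero]
      linarith
    rw [e5]
    have e6 : ∀ i, (1 - (gmul b (Q i i) + gmul b (Q i i)) / 2 * Q i i) * inner ℝ (x i) (x i) =
        1 - gmul b (Q i i) * Q i i := by
      intro i; rw [hxx]; ring
    simp only [e6, Finset.sum_sub_distrib, Finset.sum_const, Finset.card_univ, nsmul_eq_mul, mul_one]
    ring
  have hsq : ∀ i, ∑ j, Q i j ^ 2 = Q i i := fun i => by
    rw [← h.idem i i]; exact Finset.sum_congr rfl fun k _ => by ring
  have s3 : ∑ i, ∑ j ∈ univ.erase i, ((rad b (Q i i) ^ 2 + rad b (Q j j) ^ 2) / 2 * Q i j ^ 2 / b)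
      = ∑ i, rad b (Q i i) ^ 2 * (Q i i * (1 - Q i i)) / b := by
    rw [off_sum]
    have e1 : ∑ i, ∑ j, rad b (Q i i) ^ 2 / (2 * b) * Q i j ^ 2 =
        ∑ i, rad b (Q i i) ^ 2 / (2 * b) * Q i i := by
      apply Finset.sum_congr rfl
      intro i _
      rw [← Finset.mul_sum, hsq]
    have e2 : ∑ i, ∑ j, rad b (Q j j) ^ 2 / (2 * b) * Q i j ^ 2 =
        ∑ i, rad b (Q i i) ^ 2 / (2 * b) * Q i i := by
      rw [Finset.sum_comm]
      apply Finset.sum_congr rfl
      intro i _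
      rw [← Finset.mul_sum]
      congr 1
      rw [← hsq i]
      exact Finset.sum_congr rfl fun j _ => by rw [h.symm]
    have e3 : ∀ i j, (rad b (Q i i) ^ 2 + rad b (Q j j) ^ 2) / 2 * Q i j ^ 2 / b =
        rad b (Q i i) ^ 2 / (2 * b) * Q i j ^ 2 + rad b (Q j j) ^ 2 / (2 * b) * Q i j ^ 2 := by
      intro i j; field_simp
    simp only [e3, Finset.sum_add_distrib, e1, e2]
    rw [← Finset.sum_add_distrib, ← Finset.sum_add_distrib, ← Finset.sum_sub_distrib]
    apply Finset.sum_congr rfl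
    intro i _
    field_simp
    ring
  have s4 : ∑ i, ∑ j ∈ univ.erase i, (b ^ 2 / 2 * ((Q i i + Q j j) / 2 * (1 - cosq Q i j) * Q i j ^ 2))
      = b ^ 2 / 2 * xi Q := by
    rw [off_sum]
    unfold xi
    have e1 : ∀ i, b ^ 2 / 2 * ((Q i i + Q i i) / 2 * (1 - cosq Q i i) * Q i i ^ 2) = 0 := by
      intro i
      unfold cosq
      rcases eq_or_ne (Q i i) 0 with h0 | h0
      · rw [h0]; simp
      · have : Q i i ^ 2 / (Q i i * Q i i) = 1 := by
          rw [sq]; exact div_self (mul_ne_zero h0 h0)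
        rw [this]; simp
    simp only [e1, Finset.sum_const_zero, sub_zero, Finset.mul_sum]
  rw [s1, s2, s3, s4]
  unfold gap
  have s5 : ∑ i, psi b (Q i i) = ∑ i, gmul b (Q i i) * Q i i -
      ∑ i, rad b (Q i i) ^ 2 * (Q i i * (1 - Q i i)) / b := by
    rw [← Finset.sum_sub_distrib]
    apply Finset.sum_congr rfl
    intro i _
    unfold psi
    rw [gmul_identity hb0 hb1 (h.diag_le_one i)]
  rw [s5]
  ring

lemma gap_scalar (b t μ A B : ℝ) (hb : b ≠ 0) (hy : 1 - b * t ≠ 0) :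
    t / (1 - b * t) - (μ ^ 2 * t - A / b + b ^ 2 / 2 * B) =
      ((μ * (1 - b * t) - 1) ^ 2 / (1 - b * t) + (A - b ^ 3 / 2 * B - (1 - μ) ^ 2)) / b := by
  obtain ⟨y, hydef⟩ : ∃ y, y = 1 - b * t := ⟨_, rfl⟩
  have ht : t = (1 - y) / b := by rw [hydef]; field_simp; ring
  rw [← hydef] at hy ⊢
  rw [ht]
  field_simp
  ring

lemma gapPair_nonneg {x : ι → E} {Q : ι → ι → ℝ} (h : ProjData x Q)
    {b : ℝ} (hb0 : 0 < b) (hb1 : b ≤ 1) (i j : ι) (ht : b * inner ℝ (x i) (x j) < 1) :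
    0 ≤ gapPair b x Q i j ∧ (gapPair b x Q i j = 0 →
      (Q i j = 0 ∨ Q i j = (Q i i + Q j j) / 2) ∧
      √(1 - (gmul b (Q i i) + gmul b (Q j j)) / 2 * Q i j) * (1 - b * inner ℝ (x i) (x j)) = 1) := by
  have hc := pair_ineq (c := √(cosq Q i j)) (Q := Q i j) hb0 hb1 (h.diag_nonneg i)
    (h.diag_le_one i) (h.diag_nonneg j) (h.diag_le_one j) (Real.sqrt_nonneg _)
    (Real.sqrt_le_iff.2 ⟨by norm_num, by simpa using h.cosq_le_one i j⟩) (h.abs_le i j)
  rw [Real.sq_sqrt (h.cosq_nonneg i j)] at hc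
  obtain ⟨h1, h2, h3⟩ := hc
  set lam := 1 - (gmul b (Q i i) + gmul b (Q j j)) / 2 * Q i j with hlam
  set t := inner ℝ (x i) (x j) with htdef
  have hmu : √lam ^ 2 = lam := Real.sq_sqrt h1
  obtain ⟨μ, hμ⟩ : ∃ μ, μ = √lam := ⟨_, rfl⟩
  rw [← hμ] at hmu h2 h3 ⊢
  have hy : 0 < 1 - b * t := by linarith
  have hbne : b ≠ 0 := hb0.ne'
  have hy' : 1 - b * t ≠ 0 := hy.ne'
  have key : gapPair b x Q i j = ((μ * (1 - b * t) - 1) ^ 2 / (1 - b * t)
      + ((rad b (Q i i) ^ 2 + rad b (Q j j) ^ 2) / 2 * Q i j ^ 2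
        - b ^ 3 / 2 * ((Q i i + Q j j) / 2 * (1 - cosq Q i j) * Q i j ^ 2) - (1 - μ) ^ 2)) / b := by
    unfold gapPair ker
    rw [← hlam, ← htdef, ← hmu]
    exact gap_scalar b t μ _ _ hbne hy'
  have e0 : b ^ 3 / 2 * ((Q i i + Q j j) / 2 * (1 - cosq Q i j) * Q i j ^ 2) =
      b ^ 3 / 2 * ((Q i i + Q j j) / 2) * (1 - cosq Q i j) * Q i j ^ 2 := by ring
  rw [e0] at key
  have hA : 0 ≤ (μ * (1 - b * t) - 1) ^ 2 / (1 - b * t) := div_nonneg (sq_nonneg _) hy.le
  rw [key]
  constructor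
  · apply div_nonneg _ hb0.le
    linarith
  · intro h0
    rw [div_eq_zero_iff] at h0
    rcases h0 with h0 | h0
    · have e1 : (μ * (1 - b * t) - 1) ^ 2 / (1 - b * t) = 0 := by linarith
      have e2 : (1 - μ) ^ 2 = (rad b (Q i i) ^ 2 + rad b (Q j j) ^ 2) / 2 * Q i j ^ 2
        - b ^ 3 / 2 * ((Q i i + Q j j) / 2) * (1 - cosq Q i j) * Q i j ^ 2 := by linarith
      refine ⟨h3 e2, ?_⟩
      rw [div_eq_zero_iff] at e1
      rcases e1 with e1 | e1
      · have := pow_eq_zero_iff (two_ne_zero) |>.1 e1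
        linarith
      · exact absurd e1 hy.ne'
    · exact absurd h0 hbne

lemma gap_nonneg {x : ι → E} {Q : ι → ι → ℝ} (h : ProjData x Q) (hx : ∀ i, ‖x i‖ = 1)
    {b : ℝ} (hb0 : 0 < b) (hb1 : b ≤ 1) (ht : ∀ i j, i ≠ j → b * inner ℝ (x i) (x j) < 1) :
    0 ≤ gap b x Q := by
  rw [gap_eq h hx hb0 hb1]
  apply Finset.sum_nonneg
  intro i _
  apply Finset.sum_nonneg
  intro j hj
  exact (gapPair_nonneg h hb0 hb1 i j (ht i j (Finset.ne_of_mem_erase hj).symm)).1

lemma gap_zero {x : ι → E} {Q : ι → ι → ℝ} (h : ProjData x Q) (hx : ∀ i, ‖x i‖ = 1)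
    {b : ℝ} (hb0 : 0 < b) (hb1 : b ≤ 1) (ht : ∀ i j, i ≠ j → b * inner ℝ (x i) (x j) < 1)
    (h0 : gap b x Q = 0) (i j : ι) (hij : i ≠ j) :
    (Q i j = 0 ∨ Q i j = (Q i i + Q j j) / 2) ∧
      √(1 - (gmul b (Q i i) + gmul b (Q j j)) / 2 * Q i j) * (1 - b * inner ℝ (x i) (x j)) = 1 := by
  rw [gap_eq h hx hb0 hb1] at h0
  have h1 : ∀ i j, i ≠ j → 0 ≤ gapPair b x Q i j := fun i j hij =>
    (gapPair_nonneg h hb0 hb1 i j (ht i j hij)).1
  have h2 := (Finset.sum_eq_zero_iff_of_nonneg (fun i _ => Finset.sum_nonneg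
    (fun j hj => h1 i j (Finset.ne_of_mem_erase hj).symm))).1 h0 i (Finset.mem_univ i)
  have h3 := (Finset.sum_eq_zero_iff_of_nonneg
    (fun j hj => h1 i j (Finset.ne_of_mem_erase hj).symm)).1 h2 j
    (Finset.mem_erase.2 ⟨hij.symm, Finset.mem_univ j⟩)
  exact (gapPair_nonneg h hb0 hb1 i j (ht i j hij)).2 h3

end Pool.Agent.W2helper81.Riesz
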