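import Mathlib
import Pool.Agent.W2helper81.RieszSum

set_option autoImplicit false
set_option linter.unusedSectionVars false

namespace Pool.Agent.W2helper81.Riesz

open MeasureTheory Set Filter Topology

/-- the parameter -/
noncomputable def bb (τ : ℝ) : ℝ := 1 / (1 + τ)

/-- the weight -/
noncomputable def wt (ρ τ : ℝ) : ℝ := τ ^ (-ρ) * bb τ ^ 2

lemma bb_pos {τ : ℝ} (h : 0 < τ) : 0 < bb τ := by unfold bb; positivity

lemma bb_lt_one {τ : ℝ} (h : 0 < τ) : bb τ < 1 := by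
  unfold bb
  rw [div_lt_one (by linarith)]
  linarith

lemma one_sub_bb {τ : ℝ} (h : 0 < τ) : 1 - bb τ = τ * bb τ := by
  unfold bb
  field_simp
  ring

lemma wt_pos (ρ : ℝ) {τ : ℝ} (h : 0 < τ) : 0 < wt ρ τ :=
  mul_pos (Real.rpow_pos_of_pos h _) (pow_pos (bb_pos h) 2)

lemma continuousOn_bb : ContinuousOn bb (Ioi 0) := by
  unfold bb
  apply ContinuousOn.div continuousOn_const (by fun_prop)
  intro x hx
  have : (0 : ℝ) < x := hx
  positivity

lemma continuousOn_wt (ρ : ℝ) : ContinuousOn (wt ρ) (Ioi 0) := by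
  unfold wt
  apply ContinuousOn.mul
  · apply ContinuousOn.rpow_const (by fun_prop)
    intro x hx
    left
    exact (ne_of_gt hx)
  · exact continuousOn_bb.pow 2

lemma integrableOn_wt {ρ : ℝ} (h0 : -1 < ρ) (h1 : ρ < 1) : IntegrableOn (wt ρ) (Ioi 0) := by
  rw [← Set.Ioc_union_Ioi_eq_Ioi zero_le_one]
  apply IntegrableOn.union
  · have hint : IntegrableOn (fun t : ℝ => t ^ (-ρ)) (Ioc 0 1) := by
      refine IntegrableOn.congr_set_ae (t := Ioo 0 1) ?_ (Filter.EventuallyEq.symm Ioo_ae_eq_Ioc)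
      rw [intervalIntegral.integrableOn_Ioo_rpow_iff zero_lt_one]
      linarith
    refine Integrable.mono' hint ?_ ?_
    · exact ((continuousOn_wt ρ).mono (fun x hx => hx.1)).aestronglyMeasurable measurableSet_Ioc
    · refine ae_restrict_of_forall_mem measurableSet_Ioc fun t ht => ?_
      rw [Real.norm_of_nonneg (wt_pos ρ ht.1).le]
      unfold wt
      have hb := bb_pos ht.1
      have hb1 := (bb_lt_one ht.1).le
      calc t ^ (-ρ) * bb t ^ 2 ≤ t ^ (-ρ) * 1 :=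
            mul_le_mul_of_nonneg_left (pow_le_one₀ hb.le hb1) (Real.rpow_nonneg ht.1.le _)
        _ = _ := mul_one _
  · have hint : IntegrableOn (fun t : ℝ => t ^ (-ρ - 2)) (Ioi 1) :=
      integrableOn_Ioi_rpow_of_lt (by linarith) zero_lt_one
    refine Integrable.mono' hint ?_ ?_
    · exact ((continuousOn_wt ρ).mono (fun x (hx : 1 < x) =>
        lt_trans zero_lt_one hx)).aestronglyMeasurable measurableSet_Ioi
    · refine ae_restrict_of_forall_mem measurableSet_Ioi fun t (ht : 1 < t) => ?_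
      have ht0 : 0 < t := by linarith
      rw [Real.norm_of_nonneg (wt_pos ρ ht0).le]
      unfold wt
      rw [Real.rpow_sub ht0]
      rw [div_eq_mul_inv]
      apply mul_le_mul_of_nonneg_left _ (Real.rpow_nonneg ht0.le _)
      unfold bb
      rw [div_pow, one_pow, one_div, Real.rpow_two]
      apply inv_anti₀ (by positivity)
      nlinarith

lemma integrableOn_wt_mul {ρ : ℝ} (h0 : -1 < ρ) (h1 : ρ < 1) (g : ℝ → ℝ)
    (hg : ContinuousOn g (Icc 0 1)) : IntegrableOn (fun τ => wt ρ τ * g (bb τ)) (Ioi 0) := by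
  obtain ⟨M, hM⟩ := isCompact_Icc.exists_bound_of_continuousOn hg
  have hmaps : MapsTo bb (Ioi 0) (Icc 0 1) := fun τ hτ => ⟨(bb_pos hτ).le, (bb_lt_one hτ).le⟩
  refine Integrable.mono' ((integrableOn_wt h0 h1).mul_const M) ?_ ?_
  · exact ((continuousOn_wt ρ).mul (hg.comp continuousOn_bb hmaps)).aestronglyMeasurable
      measurableSet_Ioi
  · refine ae_restrict_of_forall_mem measurableSet_Ioi fun t ht => ?_
    rw [norm_mul, Real.norm_of_nonneg (wt_pos ρ ht).le]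
    exact mul_le_mul_of_nonneg_left (hM _ (hmaps ht)) (wt_pos ρ ht).le

lemma ker_identity {t τ : ℝ} (ht : t < 1) (hτ : 0 < τ) :
    (τ + (1 - t))⁻¹ - (τ + 1)⁻¹ = bb τ ^ 2 * ker (bb τ) t := by
  unfold ker bb
  have h1 : τ + (1 - t) ≠ 0 := by linarith
  have h2 : τ + 1 ≠ 0 := by linarith
  have h3 : 1 + τ ≠ 0 := by linarith
  have e : 1 - 1 / (1 + τ) * t = (τ + (1 - t)) / (1 + τ) := by field_simp; ring
  rw [e]
  field_simp
  ring

/-- Integral representation for positive exponents. -/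
lemma rep_pos {ρ : ℝ} (h0 : 0 < ρ) (h1 : ρ < 1) :
    ∃ C : ℝ, 0 < C ∧ ∀ t : ℝ, t < 1 →
      (1 - t) ^ (-ρ) = 1 + C * ∫ τ in Ioi 0, wt ρ τ * ker (bb τ) t := by
  have hp : 1 - ρ ∈ Ioo (0 : ℝ) 1 := ⟨by linarith, by linarith⟩
  set I := ∫ t in Ioi 0, Real.rpowIntegrand₀₁ (1 - ρ) t 1 with hI
  have hIpos : 0 < I := Real.integral_rpowIntegrand₀₁_one_pos hp
  refine ⟨1 / I, by positivity, ?_⟩
  intro t ht
  have hu : 0 < 1 - t := by linarith
  have e1 := Real.integral_rpowIntegrand₀₁_eq_rpow_mul_const hp hu.le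
  have i1 := Real.integrableOn_rpowIntegrand₀₁_Ioi hp hu.le
  have i2 := Real.integrableOn_rpowIntegrand₀₁_Ioi hp zero_le_one
  have e2 : ∫ τ in Ioi 0, wt ρ τ * ker (bb τ) t =
      (1 - t)⁻¹ * (∫ τ in Ioi 0, Real.rpowIntegrand₀₁ (1 - ρ) τ (1 - t)) - I := by
    rw [hI, ← integral_const_mul, ← integral_sub (i1.const_mul _) i2]
    apply setIntegral_congr_fun measurableSet_Ioi
    intro τ hτ
    have hτ' : 0 < τ := hτ
    simp only
    rw [Real.rpowIntegrand₀₁_eq_pow_div hp hτ'.le hu.le,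
      Real.rpowIntegrand₀₁_eq_pow_div hp hτ'.le zero_le_one]
    have e3 : 1 - ρ - 1 = -ρ := by ring
    rw [e3]
    unfold wt
    rw [mul_assoc, ← ker_identity ht hτ']
    have h1 : τ + (1 - t) ≠ 0 := by linarith
    have h2 : τ + 1 ≠ 0 := by linarith
    have h3 := hu.ne'
    field_simp
  rw [e2, e1, ← hI]
  have e4 : (1 - t) ^ (1 - ρ) = (1 - t) * (1 - t) ^ (-ρ) := by
    rw [show (1 : ℝ) - ρ = 1 + -ρ by ring, Real.rpow_add hu, Real.rpow_one]
  rw [e4]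
  have h3 := hu.ne'
  have h4 := hIpos.ne'
  field_simp
  ring

/-- Integral representation for negative exponents. -/
lemma rep_neg {ρ : ℝ} (h0 : -1 < ρ) (h1 : ρ < 0) :
    ∃ C : ℝ, 0 < C ∧ ∀ t : ℝ, t < 1 →
      -(1 - t) ^ (-ρ) = -1 + C * ∫ τ in Ioi 0, wt ρ τ * ker (bb τ) t := by
  have hp : -ρ ∈ Ioo (0 : ℝ) 1 := ⟨by linarith, by linarith⟩
  set I := ∫ t in Ioi 0, Real.rpowIntegrand₀₁ (-ρ) t 1 with hI
  have hIpos : 0 < I := Real.integral_rpowIntegrand₀₁_one_pos hp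
  refine ⟨1 / I, by positivity, ?_⟩
  intro t ht
  have hu : 0 < 1 - t := by linarith
  have e1 := Real.integral_rpowIntegrand₀₁_eq_rpow_mul_const hp hu.le
  have i1 := Real.integrableOn_rpowIntegrand₀₁_Ioi hp hu.le
  have i2 := Real.integrableOn_rpowIntegrand₀₁_Ioi hp zero_le_one
  have e2 : ∫ τ in Ioi 0, wt ρ τ * ker (bb τ) t =
      I - (∫ τ in Ioi 0, Real.rpowIntegrand₀₁ (-ρ) τ (1 - t)) := by
    rw [hI, ← integral_sub i2 i1]
    apply setIntegral_congr_fun measurableSet_Ioi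
    intro τ hτ
    have hτ' : 0 < τ := hτ
    simp only
    unfold wt Real.rpowIntegrand₀₁
    rw [mul_assoc, ← ker_identity ht hτ']
    ring
  rw [e2, e1, ← hI]
  have h4 := hIpos.ne'
  field_simp
  ring

/-! ### moments -/

noncomputable def mA (ρ : ℝ) : ℝ := ∫ τ in Ioi 0, wt ρ τ * (bb τ * (1 - bb τ))
noncomputable def mB (ρ : ℝ) : ℝ := ∫ τ in Ioi 0, wt ρ τ * (bb τ * (1 - bb τ) * (1 - bb τ))
noncomputable def mC (ρ : ℝ) : ℝ := ∫ τ in Ioi 0, wt ρ τ * (bb τ ^ 2)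

lemma int_A {ρ : ℝ} (h0 : -1 < ρ) (h1 : ρ < 1) :
    IntegrableOn (fun τ => wt ρ τ * (bb τ * (1 - bb τ))) (Ioi 0) :=
  integrableOn_wt_mul h0 h1 (fun b => b * (1 - b)) (by fun_prop)

lemma int_B {ρ : ℝ} (h0 : -1 < ρ) (h1 : ρ < 1) :
    IntegrableOn (fun τ => wt ρ τ * (bb τ * (1 - bb τ) * (1 - bb τ))) (Ioi 0) :=
  integrableOn_wt_mul h0 h1 (fun b => b * (1 - b) * (1 - b)) (by fun_prop)

lemma int_C {ρ : ℝ} (h0 : -1 < ρ) (h1 : ρ < 1) :
    IntegrableOn (fun τ => wt ρ τ * (bb τ ^ 2)) (Ioi 0) :=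
  integrableOn_wt_mul h0 h1 (fun b => b ^ 2) (by fun_prop)

lemma hasDerivAt_bb {τ : ℝ} (hτ : 0 < τ) : HasDerivAt bb (-(bb τ ^ 2)) τ := by
  have h1 : HasDerivAt (fun x : ℝ => 1 + x) 1 τ := by
    simpa using (hasDerivAt_id τ).const_add 1
  have h2 := h1.inv (by linarith : (1 : ℝ) + τ ≠ 0)
  have e : bb = fun x : ℝ => (1 + x)⁻¹ := by
    funext x; unfold bb; rw [one_div]
  have h3 : HasDerivAt (fun x : ℝ => (1 + x)⁻¹) (-(bb τ ^ 2)) τ := by
    refine HasDerivAt.congr_deriv h2 ?_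
    unfold bb
    rw [div_pow, one_pow, neg_div]
  rw [← e] at h3
  exact h3

lemma hasDerivAt_F {α : ℝ} {k : ℕ} {τ : ℝ} (hτ : 0 < τ) :
    HasDerivAt (fun x : ℝ => x ^ α * bb x ^ (k + 1))
      (α * τ ^ (α - 1) * bb τ ^ (k + 1) - (k + 1) * (τ ^ α * bb τ ^ (k + 2))) τ := by
  have h1 : HasDerivAt (fun x : ℝ => x ^ α) (α * τ ^ (α - 1)) τ :=
    Real.hasDerivAt_rpow_const (Or.inl hτ.ne')
  have h2 := (hasDerivAt_bb hτ).pow (k + 1)
  have h3 : HasDerivAt (fun x : ℝ => x ^ α * bb x ^ (k + 1)) _ τ := h1.mul h2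
  refine HasDerivAt.congr_deriv h3 ?_
  push_cast
  ring

lemma tendsto_F {α : ℝ} {k : ℕ} (hα : α < k) :
    Tendsto (fun x : ℝ => x ^ α * bb x ^ k) atTop (𝓝 0) := by
  have h1 : Tendsto (fun x : ℝ => x ^ (-((k : ℝ) - α))) atTop (𝓝 0) :=
    tendsto_rpow_neg_atTop (by linarith)
  refine tendsto_of_tendsto_of_tendsto_of_le_of_le' tendsto_const_nhds h1 ?_ ?_
  · filter_upwards [eventually_gt_atTop 0] with x hx
    exact mul_nonneg (Real.rpow_nonneg hx.le _) (pow_nonneg (bb_pos hx).le _)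
  · filter_upwards [eventually_gt_atTop 0] with x hx
    have e : x ^ (-((k : ℝ) - α)) = x ^ α * (1 / x) ^ k := by
      rw [neg_sub, Real.rpow_sub hx, Real.rpow_natCast, one_div, inv_pow, div_eq_mul_inv]
    rw [e]
    apply mul_le_mul_of_nonneg_left _ (Real.rpow_nonneg hx.le _)
    apply pow_le_pow_left₀ (bb_pos hx).le
    unfold bb
    exact one_div_le_one_div_of_le hx (by linarith)

lemma cont_F {α : ℝ} {k : ℕ} (hα : 0 < α) :
    ContinuousWithinAt (fun x : ℝ => x ^ α * bb x ^ k) (Ici 0) 0 := by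
  apply ContinuousAt.continuousWithinAt
  apply ContinuousAt.mul
  · exact Real.continuousAt_rpow_const _ _ (Or.inr hα.le)
  · apply ContinuousAt.pow
    unfold bb
    apply ContinuousAt.div continuousAt_const (by fun_prop)
    norm_num

lemma moment_B {ρ : ℝ} (h0 : -1 < ρ) (h1 : ρ < 1) : 4 * mB ρ = (2 - ρ) * mA ρ := by
  have hd : ∀ τ ∈ Ioi (0 : ℝ), HasDerivAt (fun x : ℝ => x ^ (2 - ρ) * bb x ^ (3 + 1))
      ((2 - ρ) * (wt ρ τ * (bb τ * (1 - bb τ))) - 4 * (wt ρ τ * (bb τ * (1 - bb τ) * (1 - bb τ)))) τ := by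
    intro τ hτ
    have hτ' : 0 < τ := hτ
    have h := hasDerivAt_F (α := 2 - ρ) (k := 3) hτ'
    convert h using 1
    rw [one_sub_bb hτ']
    unfold wt
    have e1 : τ ^ (2 - ρ - 1) = τ ^ (-ρ) * τ := by
      rw [show 2 - ρ - 1 = -ρ + 1 by ring, Real.rpow_add hτ', Real.rpow_one]
    have e2 : τ ^ (2 - ρ) = τ ^ (-ρ) * τ ^ 2 := by
      rw [show 2 - ρ = -ρ + 2 by ring, Real.rpow_add hτ', Real.rpow_two]
    rw [e1, e2]
    push_cast
    ring
  have hint : IntegrableOn (fun τ => (2 - ρ) * (wt ρ τ * (bb τ * (1 - bb τ))) -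
      4 * (wt ρ τ * (bb τ * (1 - bb τ) * (1 - bb τ)))) (Ioi 0) :=
    ((int_A h0 h1).const_mul _).sub ((int_B h0 h1).const_mul _)
  have h := integral_Ioi_of_hasDerivAt_of_tendsto (cont_F (k := 3 + 1) (by linarith)) hd hint
    (tendsto_F (k := 3 + 1) (by push_cast; linarith))
  rw [integral_sub ((int_A h0 h1).const_mul _) ((int_B h0 h1).const_mul _), integral_const_mul,
    integral_const_mul] at h
  rw [Real.zero_rpow (by linarith)] at h
  change (2 - ρ) * mA ρ - 4 * mB ρ = _ at h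
  linarith

lemma moment_C {ρ : ℝ} (h0 : -1 < ρ) (h1 : ρ < 1) : (1 - ρ) * mC ρ = (2 + ρ) * mA ρ := by
  have hd : ∀ τ ∈ Ioi (0 : ℝ), HasDerivAt (fun x : ℝ => x ^ (1 - ρ) * bb x ^ (2 + 1))
      ((1 - ρ) * (wt ρ τ * (bb τ ^ 2)) - (2 + ρ) * (wt ρ τ * (bb τ * (1 - bb τ)))) τ := by
    intro τ hτ
    have hτ' : 0 < τ := hτ
    have h := hasDerivAt_F (α := 1 - ρ) (k := 2) hτ'
    convert h using 1
    have hb : bb τ + τ * bb τ = 1 := by
      have := one_sub_bb hτ'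
      linarith
    rw [one_sub_bb hτ']
    unfold wt
    have e1 : τ ^ (1 - ρ - 1) = τ ^ (-ρ) := by
      rw [show 1 - ρ - 1 = -ρ by ring]
    have e2 : τ ^ (1 - ρ) = τ ^ (-ρ) * τ := by
      rw [show 1 - ρ = -ρ + 1 by ring, Real.rpow_add hτ', Real.rpow_one]
    rw [e1, e2]
    push_cast
    have e3 : bb τ ^ 3 = bb τ ^ 3 * (bb τ + τ * bb τ) := by rw [hb, mul_one]
    linear_combination (-(1 - ρ) * τ ^ (-ρ)) * e3
  have hint : IntegrableOn (fun τ => (1 - ρ) * (wt ρ τ * (bb τ ^ 2)) -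
      (2 + ρ) * (wt ρ τ * (bb τ * (1 - bb τ)))) (Ioi 0) :=
    ((int_C h0 h1).const_mul _).sub ((int_A h0 h1).const_mul _)
  have h := integral_Ioi_of_hasDerivAt_of_tendsto (cont_F (k := 2 + 1) (by linarith)) hd hint
    (tendsto_F (k := 2 + 1) (by push_cast; linarith))
  rw [integral_sub ((int_C h0 h1).const_mul _) ((int_A h0 h1).const_mul _), integral_const_mul,
    integral_const_mul] at h
  rw [Real.zero_rpow (by linarith)] at h
  change (1 - ρ) * mC ρ - (2 + ρ) * mA ρ = _ at h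
  linarith

/-- A nonnegative function with zero weighted integral vanishes somewhere. -/
lemma exists_zero {ρ : ℝ} {g : ℝ → ℝ} (hint : IntegrableOn (fun τ => wt ρ τ * g τ) (Ioi 0))
    (hnn : ∀ τ, 0 < τ → 0 ≤ g τ) (h0 : ∫ τ in Ioi 0, wt ρ τ * g τ ≤ 0) : ∃ τ, 0 < τ ∧ g τ = 0 := by
  have hn : 0 ≤ᵐ[volume.restrict (Ioi 0)] (fun τ => wt ρ τ * g τ) :=
    ae_restrict_of_forall_mem measurableSet_Ioi fun τ hτ =>
      mul_nonneg (wt_pos ρ hτ).le (hnn τ hτ)
  have h1 : ∫ τ in Ioi 0, wt ρ τ * g τ = 0 :=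
    le_antisymm h0 (integral_nonneg_of_ae hn)
  rw [integral_eq_zero_iff_of_nonneg_ae hn hint] at h1
  have h2 : ∀ᵐ τ ∂(volume.restrict (Ioi (0 : ℝ))), g τ = 0 := by
    filter_upwards [h1, ae_restrict_mem measurableSet_Ioi] with τ hτ hmem
    have h3 : wt ρ τ * g τ = 0 := hτ
    rcases mul_eq_zero.1 h3 with h4 | h4
    · exact absurd h4 (wt_pos ρ hmem).ne'
    · exact h4
  have h3 : ∀ᵐ τ ∂(volume.restrict (Ioi (0 : ℝ))), 0 < τ ∧ g τ = 0 := by
    filter_upwards [h2, ae_restrict_mem measurableSet_Ioi] with τ hτ hmem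
    exact ⟨hmem, hτ⟩
  have hne : (ae (volume.restrict (Ioi (0 : ℝ)))).NeBot := by
    rw [ae_neBot]
    intro hzero
    rw [Measure.restrict_eq_zero, Real.volume_Ioi] at hzero
    exact absurd hzero (by simp)
  exact h3.exists

lemma integral_pos_of_pos {ρ : ℝ} {g : ℝ → ℝ}
    (hint : IntegrableOn (fun τ => wt ρ τ * g τ) (Ioi 0))
    (hpos : ∀ τ, 0 < τ → 0 < g τ) : 0 < ∫ τ in Ioi 0, wt ρ τ * g τ := by
  by_contra hcon
  push Not at hcon
  obtain ⟨τ, hτ, h⟩ := exists_zero hint (fun τ hτ => (hpos τ hτ).le) hcon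
  exact absurd h (hpos τ hτ).ne'

lemma mA_pos {ρ : ℝ} (h0 : -1 < ρ) (h1 : ρ < 1) : 0 < mA ρ :=
  integral_pos_of_pos (int_A h0 h1) (fun τ hτ => by
    have h1 := bb_pos hτ
    have h2 := bb_lt_one hτ
    exact mul_pos h1 (by linarith))

end Pool.Agent.W2helper81.Riesz
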