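import Mathlib
import Pool.Agent.W2helper81.RieszSum

set_option autoImplicit false
set_option linter.unusedSectionVars false

namespace Pool.Agent.W2helper81.Riesz

open scoped BigOperators
open Finset

/-! ### The fractional bound -/

/-- the convex function -/
noncomputable def phi (K L x : ℝ) : ℝ := x / (K + L * (1 - x))

lemma phi_zero (K L : ℝ) : phi K L 0 = 0 := by unfold phi; simp

lemma phi_super1 {K L x y : ℝ} (hK : 0 < K) (hL : 0 ≤ L) (hx : 0 ≤ x) (hy : 0 ≤ y)
    (hxy : x + y ≤ 1) : phi K L x + phi K L y ≤ phi K L (x + y) := by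
  unfold phi
  have h0 : 0 < K + L * (1 - (x + y)) := by nlinarith
  have h1 : K + L * (1 - (x + y)) ≤ K + L * (1 - x) := by nlinarith
  have h2 : K + L * (1 - (x + y)) ≤ K + L * (1 - y) := by nlinarith
  rw [add_div]
  exact add_le_add (div_le_div_of_nonneg_left hx h0 h1) (div_le_div_of_nonneg_left hy h0 h2)

lemma phi_super2 {K L x y : ℝ} (hK : 0 < K) (hL : 0 ≤ L) (hx1 : x ≤ 1)
    (hy1 : y ≤ 1) (hxy : 1 ≤ x + y) :
    phi K L x + phi K L y ≤ phi K L 1 + phi K L (x + y - 1) := by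
  rcases eq_or_lt_of_le hL with hL0 | hL0
  · unfold phi
    rw [← hL0]
    simp only [zero_mul, add_zero]
    apply le_of_eq
    field_simp
    ring
  unfold phi
  obtain ⟨A, hA⟩ : ∃ A, A = K + L := ⟨_, rfl⟩
  have e : ∀ z : ℝ, K + L * (1 - z) = A - L * z := fun z => by rw [hA]; ring
  rw [e, e, e, e]
  have hy0 : 0 ≤ y := by linarith
  have hx0 : 0 ≤ x := by linarith
  have p1 : 0 < A - L * x := by rw [hA]; nlinarith
  have p2 : 0 < A - L * y := by rw [hA]; nlinarith
  have p3 : 0 < A - L * 1 := by rw [hA]; nlinarith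
  have p4 : 0 < A - L * (x + y - 1) := by rw [hA]; nlinarith
  have f : ∀ z : ℝ, 0 < A - L * z → z / (A - L * z) = (A / (A - L * z) - 1) / L := by
    intro z hz
    have hL' := hL0.ne'
    obtain ⟨w, hw⟩ : ∃ w, w = A - L * z := ⟨_, rfl⟩
    have hz' : z = (A - w) / L := by rw [hw]; field_simp; ring
    rw [← hw] at hz ⊢
    rw [hz']
    have := hz.ne'
    field_simp
  rw [f x p1, f y p2, f 1 p3, f (x + y - 1) p4, ← add_div, ← add_div]
  apply div_le_div_of_nonneg_right _ hL0.le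
  have hprod : (A - L * 1) * (A - L * (x + y - 1)) ≤ (A - L * x) * (A - L * y) := by
    have : (A - L * x) * (A - L * y) - (A - L * 1) * (A - L * (x + y - 1))
        = L ^ 2 * ((1 - x) * (1 - y)) := by ring
    have h2 : 0 ≤ L ^ 2 * ((1 - x) * (1 - y)) :=
      mul_nonneg (sq_nonneg _) (mul_nonneg (by linarith) (by linarith))
    linarith
  have hA0 : 0 ≤ A := by rw [hA]; linarith
  have g1 : A / (A - L * x) + A / (A - L * y) =
      A * ((A - L * x) + (A - L * y)) / ((A - L * x) * (A - L * y)) := by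
    have := p1.ne'
    have := p2.ne'
    field_simp
    ring
  have g2 : A / (A - L * 1) + A / (A - L * (x + y - 1)) =
      A * ((A - L * x) + (A - L * y)) / ((A - L * 1) * (A - L * (x + y - 1))) := by
    have h3 := p3.ne'
    have h4 := p4.ne'
    rw [div_add_div _ _ h3 h4]
    congr 1
    ring
  have hnum : 0 ≤ A * ((A - L * x) + (A - L * y)) := by positivity
  have : A / (A - L * x) + A / (A - L * y) ≤ A / (A - L * 1) + A / (A - L * (x + y - 1)) := by
    rw [g1, g2]
    exact div_le_div_of_nonneg_left hnum (mul_pos p3 p4) hprod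
  linarith

lemma phi_bound {J : Type*} (s : Finset J) (x : J → ℝ) {K L : ℝ} (hK : 0 < K) (hL : 0 ≤ L)
    (hx0 : ∀ j ∈ s, 0 ≤ x j) (hx1 : ∀ j ∈ s, x j ≤ 1) :
    ∃ (n : ℕ) (θ : ℝ), 0 ≤ θ ∧ θ ≤ 1 ∧ ∑ j ∈ s, x j = n + θ ∧
      ∑ j ∈ s, phi K L (x j) ≤ n * phi K L 1 + phi K L θ := by
  classical
  induction s using Finset.induction_on with
  | empty => exact ⟨0, 0, le_refl _, by norm_num, by simp, by simp [phi_zero]⟩
  | insert j s hj ih =>
    obtain ⟨n, θ, h0, h1, hS, hP⟩ := ih (fun k hk => hx0 k (Finset.mem_insert_of_mem hk))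
      (fun k hk => hx1 k (Finset.mem_insert_of_mem hk))
    have a0 := hx0 j (Finset.mem_insert_self _ _)
    have a1 := hx1 j (Finset.mem_insert_self _ _)
    rw [Finset.sum_insert hj, Finset.sum_insert hj]
    rcases le_or_gt (x j + θ) 1 with h | h
    · refine ⟨n, x j + θ, by linarith, h, by rw [hS]; ring, ?_⟩
      have := phi_super1 hK hL a0 h0 h
      linarith
    · refine ⟨n + 1, x j + θ - 1, by linarith, by linarith, by rw [hS]; push_cast; ring, ?_⟩
      have := phi_super2 hK hL a1 h1 h.le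
      push_cast
      linarith

/-- The weighted inequality for one index. -/
lemma per_index {J : Type*} [Fintype J] (x q : J → ℝ) {K1 K2 L : ℝ} {m : ℕ} (hm : 1 ≤ m)
    (hK2 : 0 < K2) (hL : 0 < L)
    (hc1 : K1 * (K2 + L) ≤ (m + 1) * (K2 * L)) (hc2 : K1 ≤ m * L)
    (hx0 : ∀ j, 0 ≤ x j) (hx1 : ∀ j, x j ≤ 1) (hxq : ∑ j, x j * q j = 1)
    (hS0 : (m : ℝ) ≤ ∑ j, x j) (hS1 : ∑ j, x j ≤ m + 1) :
    K1 * ((m + 1 - ∑ j, x j) * (∑ j, x j - m) / ((∑ j, x j) * (m * (m + 1)))) ≤
      K2 * (∑ j, x j * q j ^ 2 - 1 / ∑ j, x j) + L * ∑ j, x j * q j ^ 2 * (1 - x j) := by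
  obtain ⟨S, hS⟩ : ∃ S, S = ∑ j, x j := ⟨_, rfl⟩
  rw [← hS] at hS0 hS1 ⊢
  have hm0 : (1 : ℝ) ≤ m := by exact_mod_cast hm
  have hSpos : 0 < S := by linarith
  obtain ⟨θ, hθ⟩ : ∃ θ, θ = S - m := ⟨_, rfl⟩
  have hθ0 : 0 ≤ θ := by linarith
  have hθ1 : θ ≤ 1 := by linarith
  -- bound on the sum of phi
  have hΦ : ∑ j, phi K2 L (x j) ≤ m * phi K2 L 1 + phi K2 L θ := by
    obtain ⟨n, θ', h0, h1, hS', hP⟩ := phi_bound Finset.univ x hK2 hL.le
      (fun j _ => hx0 j) (fun j _ => hx1 j)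
    rw [← hS] at hS'
    rcases lt_trichotomy n m with h | h | h
    · have h2 : (n : ℝ) + 1 ≤ m := by exact_mod_cast h
      have h3 : θ' = 1 := by linarith
      have h4 : θ = 0 := by linarith
      have h5 : (n : ℝ) + 1 = m := by linarith
      rw [h4, phi_zero]
      rw [h3] at hP
      calc ∑ j, phi K2 L (x j) ≤ n * phi K2 L 1 + phi K2 L 1 := hP
        _ = ((n : ℝ) + 1) * phi K2 L 1 := by ring
        _ = m * phi K2 L 1 + 0 := by rw [h5]; ring
    · subst h
      have : θ = θ' := by linarith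
      rw [this]; exact hP
    · have h2 : (m : ℝ) + 1 ≤ n := by exact_mod_cast h
      have h3 : θ' = 0 := by linarith
      have h4 : θ = 1 := by linarith
      have h5 : (n : ℝ) = m + 1 := by linarith
      rw [h4]
      rw [h3, phi_zero, h5] at hP
      calc ∑ j, phi K2 L (x j) ≤ (m + 1) * phi K2 L 1 + 0 := hP
        _ = m * phi K2 L 1 + phi K2 L 1 := by ring
  set W := K2 + L * (1 - θ) with hW
  have hWpos : 0 < W := by
    have : 0 ≤ L * (1 - θ) := mul_nonneg hL.le (by linarith)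
    linarith
  have hphi1 : phi K2 L 1 = 1 / K2 := by unfold phi; simp
  have hphiθ : phi K2 L θ = θ / W := rfl
  set F := m * phi K2 L 1 + phi K2 L θ with hF
  have hFval : F = (m * W + θ * K2) / (K2 * W) := by
    rw [hF, hphi1, hphiθ]
    field_simp
  have hnumpos : 0 < m * W + θ * K2 := by
    have : 0 < (m : ℝ) * W := mul_pos (by linarith) hWpos
    have : 0 ≤ θ * K2 := mul_nonneg hθ0 hK2.le
    linarith
  have hFpos : 0 < F := by rw [hFval]; positivity
  -- Cauchy
  have hC : 1 / F ≤ ∑ j, x j * q j ^ 2 * (K2 + L * (1 - x j)) := by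
    have hw : ∀ j, 0 < K2 + L * (1 - x j) := fun j => by
      have : 0 ≤ L * (1 - x j) := mul_nonneg hL.le (by linarith [hx1 j])
      linarith
    have h1 : ∀ j, 2 * (1 / F) * (x j * q j) - (1 / F) ^ 2 * phi K2 L (x j) ≤
        x j * q j ^ 2 * (K2 + L * (1 - x j)) := by
      intro j
      have hwj := hw j
      unfold phi
      have e : x j * q j ^ 2 * (K2 + L * (1 - x j)) -
          (2 * (1 / F) * (x j * q j) - (1 / F) ^ 2 * (x j / (K2 + L * (1 - x j)))) =
          x j * (q j * (K2 + L * (1 - x j)) - 1 / F) ^ 2 / (K2 + L * (1 - x j)) := by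
        obtain ⟨w, hwdef⟩ : ∃ w, w = K2 + L * (1 - x j) := ⟨_, rfl⟩
        rw [← hwdef] at hwj ⊢
        have h2 := hwj.ne'
        have h3 := hFpos.ne'
        field_simp
        ring
      have e2 : 0 ≤ x j * (q j * (K2 + L * (1 - x j)) - 1 / F) ^ 2 / (K2 + L * (1 - x j)) :=
        div_nonneg (mul_nonneg (hx0 j) (sq_nonneg _)) hwj.le
      linarith
    have h2 := Finset.sum_le_sum (fun j (_ : j ∈ Finset.univ) => h1 j)
    rw [Finset.sum_sub_distrib, ← Finset.mul_sum, ← Finset.mul_sum, hxq] at h2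
    have h3 : (1 / F) ^ 2 * ∑ j, phi K2 L (x j) ≤ (1 / F) ^ 2 * F :=
      mul_le_mul_of_nonneg_left hΦ (sq_nonneg _)
    have h4 : (1 / F) ^ 2 * F = 1 / F := by
      have := hFpos.ne'
      field_simp
    linarith
  have hsplit : ∑ j, x j * q j ^ 2 * (K2 + L * (1 - x j)) =
      K2 * ∑ j, x j * q j ^ 2 + L * ∑ j, x j * q j ^ 2 * (1 - x j) := by
    rw [Finset.mul_sum, Finset.mul_sum, ← Finset.sum_add_distrib]
    exact Finset.sum_congr rfl fun j _ => by ring
  rw [hsplit] at hC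
  have hfin : K1 * ((m + 1 - S) * (S - m) / (S * (m * (m + 1)))) ≤ 1 / F - K2 / S := by
    have e1 : 1 / F - K2 / S = K2 * L * (θ * (1 - θ)) / (S * (m * W + θ * K2)) := by
      rw [hFval]
      have h1 := hK2.ne'
      have h2 := hWpos.ne'
      have h3 := hnumpos.ne'
      have h4 := hSpos.ne'
      have hS2 : S = m + θ := by linarith
      rw [one_div, inv_div, div_sub_div _ _ h3 h4, div_eq_div_iff (mul_ne_zero h3 h4)
        (mul_ne_zero h4 h3)]
      rw [hS2, hW]
      ring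
    have e2 : (m + 1 - S) * (S - m) = θ * (1 - θ) := by rw [hθ]; ring
    rw [e1, e2]
    have h5 : K1 * (m * W + θ * K2) ≤ K2 * L * (m * (m + 1)) := by
      have a1 : K1 * (m * W + θ * K2) =
          (1 - θ) * (m * (K1 * (K2 + L))) + θ * (K2 * (K1 * (m + 1))) := by rw [hW]; ring
      have a2 : m * (K1 * (K2 + L)) ≤ m * ((m + 1) * (K2 * L)) :=
        mul_le_mul_of_nonneg_left hc1 (by linarith)
      have a3 : K2 * (K1 * (m + 1)) ≤ K2 * (m * L * (m + 1)) :=
        mul_le_mul_of_nonneg_left (mul_le_mul_of_nonneg_right hc2 (by linarith)) hK2.le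
      have a4 : (1 - θ) * (m * (K1 * (K2 + L))) ≤ (1 - θ) * (m * ((m + 1) * (K2 * L))) :=
        mul_le_mul_of_nonneg_left a2 (by linarith)
      have a5 : θ * (K2 * (K1 * (m + 1))) ≤ θ * (K2 * (m * L * (m + 1))) :=
        mul_le_mul_of_nonneg_left a3 hθ0
      rw [a1]
      have a6 : (1 - θ) * (m * ((m + 1) * (K2 * L))) + θ * (K2 * (m * L * (m + 1))) =
        K2 * L * (m * (m + 1)) := by ring
      linarith
    have hmm : (0 : ℝ) < m * (m + 1) := by positivity
    have hθθ : 0 ≤ θ * (1 - θ) := mul_nonneg hθ0 (by linarith)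
    have e3 : K1 * (θ * (1 - θ) / (S * (m * (m + 1)))) =
        (K1 * (m * W + θ * K2)) * (θ * (1 - θ)) / (S * (m * (m + 1)) * (m * W + θ * K2)) := by
      have h3 := hnumpos.ne'
      have h4 := hSpos.ne'
      have h5 := hmm.ne'
      field_simp
    have e4 : K2 * L * (θ * (1 - θ)) / (S * (m * W + θ * K2)) =
        (K2 * L * (m * (m + 1))) * (θ * (1 - θ)) / (S * (m * (m + 1)) * (m * W + θ * K2)) := by
      have h3 := hnumpos.ne'
      have h4 := hSpos.ne'
      have h5 := hmm.ne'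
      rw [div_eq_div_iff (mul_ne_zero h4 h3) (mul_ne_zero (mul_ne_zero h4 h5) h3)]
      ring
    rw [e3, e4]
    apply div_le_div_of_nonneg_right _ (by positivity)
    exact mul_le_mul_of_nonneg_right h5 hθθ
  have e5 : K2 * (∑ j, x j * q j ^ 2 - 1 / S) = K2 * ∑ j, x j * q j ^ 2 - K2 / S := by ring
  rw [e5]
  linarith

end Pool.Agent.W2helper81.Riesz
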