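import Mathlib
import Pool.Agent.W2helper81.RieszPer

set_option autoImplicit false
set_option linter.unusedSectionVars false

namespace Pool.Agent.W2helper81.Riesz

open scoped BigOperators
open Finset

/-- denominators -/
noncomputable def dn (b q : ℝ) : ℝ := 1 - (1 - b) * q

/-- the difference between `psi` and its chord -/
noncomputable def Dv (b a c q : ℝ) : ℝ :=
  b * (1 - b) * (q - a) * (q - c) / (dn b q * dn b a * dn b c)

noncomputable def al (b a c : ℝ) : ℝ := -(b * (1 - b) * a * c) / (dn b a * dn b c)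

noncomputable def ga (b a c : ℝ) : ℝ := b / (dn b a * dn b c)

lemma dn_pos {b q : ℝ} (hb0 : 0 < b) (hb1 : b ≤ 1) (hq1 : q ≤ 1) : 0 < dn b q :=
  den_pos hb0 hb1 hq1

lemma dn_le_one {b q : ℝ} (hb1 : b ≤ 1) (hq0 : 0 ≤ q) : dn b q ≤ 1 := by
  unfold dn
  nlinarith

lemma psi_decomp {b a c q : ℝ} (hb0 : 0 < b) (hb1 : b ≤ 1) (ha : a ≤ 1) (hc : c ≤ 1)
    (hq : q ≤ 1) : psi b q = Dv b a c q + al b a c + ga b a c * q := by
  have h1 := (dn_pos hb0 hb1 ha).ne'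
  have h2 := (dn_pos hb0 hb1 hc).ne'
  have h3 := (dn_pos hb0 hb1 hq).ne'
  have e1 : psi b q = b * q / dn b q := by
    unfold psi rad
    rw [show 1 - (1 - b) * q = dn b q from rfl]
    ring
  rw [e1]
  unfold Dv al ga
  field_simp
  unfold dn
  ring

lemma Dv_tangent {b a c p q : ℝ} (hb0 : 0 < b) (hb1 : b ≤ 1) (ha : a ≤ 1) (hc : c ≤ 1)
    (hp : p ≤ 1) (hq : q ≤ 1) :
    Dv b a c q = Dv b a c p + (b / dn b p ^ 2 - ga b a c) * (q - p)
      + b * (1 - b) * (q - p) ^ 2 / (dn b q * dn b p ^ 2) := by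
  have h1 := (dn_pos hb0 hb1 ha).ne'
  have h2 := (dn_pos hb0 hb1 hc).ne'
  have h3 := (dn_pos hb0 hb1 hq).ne'
  have h4 := (dn_pos hb0 hb1 hp).ne'
  unfold Dv ga
  field_simp
  unfold dn
  ring

lemma ga_pos {b a c : ℝ} (hb0 : 0 < b) (hb1 : b ≤ 1) (ha : a ≤ 1) (hc : c ≤ 1) :
    0 < ga b a c := div_pos hb0 (mul_pos (dn_pos hb0 hb1 ha) (dn_pos hb0 hb1 hc))

lemma Dv_nonneg {b a c q : ℝ} (hb0 : 0 < b) (hb1 : b ≤ 1) (ha : a ≤ 1) (hc : c ≤ 1)
    (hq : q ≤ 1) (h : 0 ≤ (q - a) * (q - c)) : 0 ≤ Dv b a c q := by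
  unfold Dv
  apply div_nonneg
  · rw [mul_assoc]
    exact mul_nonneg (mul_nonneg hb0.le (by linarith)) h
  · exact (mul_pos (mul_pos (dn_pos hb0 hb1 hq) (dn_pos hb0 hb1 ha)) (dn_pos hb0 hb1 hc)).le

/-- Jensen with remainder. -/
lemma sum_Dv_ge {J : Type*} [Fintype J] (x q : J → ℝ) {b a c : ℝ} (hb0 : 0 < b) (hb1 : b ≤ 1)
    (ha : a ≤ 1) (hc : c ≤ 1) (hx0 : ∀ j, 0 ≤ x j) (hq0 : ∀ j, 0 ≤ q j) (hq1 : ∀ j, q j ≤ 1)
    (hxq : ∑ j, x j * q j = 1) (hS1 : 1 ≤ ∑ j, x j) :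
    (∑ j, x j) * Dv b a c (1 / ∑ j, x j) +
      b * (1 - b) / dn b (1 / ∑ j, x j) ^ 2 * (∑ j, x j * q j ^ 2 - 1 / ∑ j, x j) ≤
      ∑ j, x j * Dv b a c (q j) := by
  obtain ⟨S, hS⟩ : ∃ S, S = ∑ j, x j := ⟨_, rfl⟩
  rw [← hS] at hS1 ⊢
  have hSpos : 0 < S := by linarith
  obtain ⟨p, hp⟩ : ∃ p, p = 1 / S := ⟨_, rfl⟩
  have hp1 : p ≤ 1 := by rw [hp, div_le_one hSpos]; exact hS1
  have hSp : S * p = 1 := by rw [hp]; field_simp
  rw [← hp]
  have hdp := dn_pos hb0 hb1 hp1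
  have h1 : ∀ j, x j * Dv b a c p + (b / dn b p ^ 2 - ga b a c) * (x j * q j - p * x j)
      + b * (1 - b) / dn b p ^ 2 * (x j * q j ^ 2 - 2 * p * (x j * q j) + p ^ 2 * x j)
      ≤ x j * Dv b a c (q j) := by
    intro j
    rw [Dv_tangent (p := p) hb0 hb1 ha hc hp1 (hq1 j)]
    have hdq := dn_pos hb0 hb1 (hq1 j)
    have hdq1 := dn_le_one hb1 (hq0 j)
    have e1 : b * (1 - b) * (q j - p) ^ 2 / dn b p ^ 2 ≤
        b * (1 - b) * (q j - p) ^ 2 / (dn b (q j) * dn b p ^ 2) := by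
      apply div_le_div_of_nonneg_left
      · exact mul_nonneg (mul_nonneg hb0.le (by linarith)) (sq_nonneg _)
      · positivity
      · calc dn b (q j) * dn b p ^ 2 ≤ 1 * dn b p ^ 2 :=
              mul_le_mul_of_nonneg_right hdq1 (by positivity)
          _ = _ := one_mul _
    have e2 := mul_le_mul_of_nonneg_left e1 (hx0 j)
    have e3 : x j * (b * (1 - b) * (q j - p) ^ 2 / dn b p ^ 2) =
        b * (1 - b) / dn b p ^ 2 * (x j * q j ^ 2 - 2 * p * (x j * q j) + p ^ 2 * x j) := by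
      ring
    rw [e3] at e2
    have e4 : x j * (Dv b a c p + (b / dn b p ^ 2 - ga b a c) * (q j - p)
      + b * (1 - b) * (q j - p) ^ 2 / (dn b (q j) * dn b p ^ 2)) =
      x j * Dv b a c p + (b / dn b p ^ 2 - ga b a c) * (x j * q j - p * x j)
      + x j * (b * (1 - b) * (q j - p) ^ 2 / (dn b (q j) * dn b p ^ 2)) := by ring
    rw [e4]
    linarith
  have h2 := Finset.sum_le_sum (fun j (_ : j ∈ Finset.univ) => h1 j)
  have h3 : ∑ j, (x j * Dv b a c p + (b / dn b p ^ 2 - ga b a c) * (x j * q j - p * x j)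
      + b * (1 - b) / dn b p ^ 2 * (x j * q j ^ 2 - 2 * p * (x j * q j) + p ^ 2 * x j)) =
      S * Dv b a c p + b * (1 - b) / dn b p ^ 2 * (∑ j, x j * q j ^ 2 - p) := by
    simp only [Finset.sum_add_distrib, ← Finset.mul_sum, ← Finset.sum_mul, Finset.sum_sub_distrib,
      hxq, ← hS]
    have e1 : (1 : ℝ) - p * S = 0 := by linarith
    have e2 : p ^ 2 * S = p := by
      calc p ^ 2 * S = p * (S * p) := by ring
        _ = p := by rw [hSp]; ring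
    rw [e1, e2]
    ring
  rw [h3] at h2
  exact h2

lemma chord_factor {β u : ℝ} (hβ0 : 0 ≤ β) (hβ1 : β ≤ 1) (hu0 : 0 ≤ u) (hu1 : u < 1) :
    1 / (1 - β * u) ≤ 1 + β * (u / (1 - u)) := by
  have h1 : 0 < 1 - u := by linarith
  have h2 : 0 < 1 - β * u := by nlinarith
  rw [div_le_iff₀ h2]
  have e : (1 + β * (u / (1 - u))) * (1 - β * u) = 1 + β * (1 - β) * u ^ 2 / (1 - u) := by
    field_simp
    ring
  rw [e]
  have : 0 ≤ β * (1 - β) * u ^ 2 / (1 - u) :=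
    div_nonneg (mul_nonneg (mul_nonneg hβ0 (by linarith)) (sq_nonneg _)) h1.le
  linarith

/-- the constant `κ` -/
noncomputable def kap (m : ℕ) : ℝ := (3 * m - 1) / (m - 1) ^ 2

lemma inv_dn_bound {m : ℕ} (hm : 2 ≤ m) {b p : ℝ} (hb0 : 0 < b) (hb1 : b ≤ 1)
    (hpc : p ≤ 1 / m) :
    1 / (dn b p * dn b (1 / (m + 1)) * dn b (1 / m)) ≤ 1 + kap m * (1 - b) := by
  have hm2 : (2 : ℝ) ≤ m := by exact_mod_cast hm
  have hm0 : (0 : ℝ) < m := by linarith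
  have hm1 : (0 : ℝ) < m - 1 := by linarith
  have hc1 : (1 : ℝ) / m < 1 := by rw [div_lt_one hm0]; linarith
  have ha1 : (1 : ℝ) / (m + 1) < 1 := by rw [div_lt_one (by linarith)]; linarith
  have hc0 : (0 : ℝ) ≤ 1 / m := by positivity
  have ha0 : (0 : ℝ) ≤ 1 / (m + 1) := by positivity
  have hdc := dn_pos hb0 hb1 hc1.le
  have hda := dn_pos hb0 hb1 ha1.le
  have hdp : dn b (1 / m) ≤ dn b p := by
    unfold dn
    have := mul_le_mul_of_nonneg_left hpc (sub_nonneg.2 hb1)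
    linarith
  obtain ⟨β, hβ⟩ : ∃ β, β = 1 - b := ⟨_, rfl⟩
  have hβ0 : 0 ≤ β := by linarith
  have hβ1 : β ≤ 1 := by linarith
  have f1 : 1 / dn b (1 / m) ≤ 1 + β * (1 / (m - 1)) := by
    have h := chord_factor hβ0 hβ1 hc0 hc1
    have e : (1 : ℝ) / m / (1 - 1 / m) = 1 / (m - 1) := by field_simp
    rw [e] at h
    unfold dn
    rw [← hβ]
    exact h
  have f2 : 1 / dn b (1 / (m + 1)) ≤ 1 + β * (1 / m) := by
    have h := chord_factor hβ0 hβ1 ha0 ha1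
    have e : (1 : ℝ) / (m + 1) / (1 - 1 / (m + 1)) = 1 / m := by
      have e1 : (1 : ℝ) - 1 / (m + 1) = m / (m + 1) := by field_simp; ring
      rw [e1]
      field_simp
    rw [e] at h
    unfold dn
    rw [← hβ]
    exact h
  have f3 : 1 / dn b p ≤ 1 + β * (1 / (m - 1)) :=
    (one_div_le_one_div_of_le hdc hdp).trans f1
  have g1 : 0 < 1 / dn b (1 / m) := by positivity
  have g2 : 0 < 1 / dn b (1 / (m + 1)) := by positivity
  have g3 : 0 < 1 / dn b p := by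
    have : 0 < dn b p := lt_of_lt_of_le hdc hdp
    positivity
  have e0 : 1 / (dn b p * dn b (1 / (m + 1)) * dn b (1 / m)) =
      (1 / dn b p) * (1 / dn b (1 / (m + 1))) * (1 / dn b (1 / m)) := by
    rw [one_div_mul_one_div, one_div_mul_one_div]
  rw [e0]
  have hu : 0 < 1 / ((m : ℝ) - 1) := by positivity
  have hv : 0 < 1 / (m : ℝ) := by positivity
  obtain ⟨u, hudef⟩ : ∃ u, u = 1 / ((m : ℝ) - 1) := ⟨_, rfl⟩
  obtain ⟨v, hvdef⟩ : ∃ v, v = 1 / (m : ℝ) := ⟨_, rfl⟩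
  have e2 : (1 + u) ^ 2 * (1 + v) = 1 + kap m := by
    rw [hudef, hvdef]
    unfold kap
    field_simp
    ring
  rw [← hudef] at hu f1 f3
  rw [← hvdef] at hv f2
  have p1 : (1 / dn b p) * (1 / dn b (1 / (m + 1))) * (1 / dn b (1 / m)) ≤
      (1 + β * u) * (1 + β * v) * (1 + β * u) := by
    apply mul_le_mul _ f1 g1.le (by positivity)
    exact mul_le_mul f3 f2 g2.le (by positivity)
  have p2 : (1 + β * u) * (1 + β * v) * (1 + β * u) ≤ 1 + β * ((1 + u) ^ 2 * (1 + v) - 1) := by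
    have b2 : β ^ 2 ≤ β := by nlinarith
    have b3 : β ^ 3 ≤ β := by
      have : β ^ 3 = β ^ 2 * β := by ring
      nlinarith [sq_nonneg β]
    have c2 : 0 ≤ u ^ 2 + 2 * u * v := by positivity
    have c3 : 0 ≤ u ^ 2 * v := by positivity
    have := mul_le_mul_of_nonneg_right b2 c2
    have := mul_le_mul_of_nonneg_right b3 c3
    nlinarith
  calc _ ≤ _ := p1
    _ ≤ _ := p2
    _ = 1 + kap m * (1 - b) := by rw [e2, hβ]; ring

/-- pointwise bound, bad case -/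
lemma sum_Dv_bad {J : Type*} [Fintype J] (x q : J → ℝ) {m : ℕ} (hm : 2 ≤ m) {b : ℝ}
    (hb0 : 0 < b) (hb1 : b ≤ 1)
    (hx0 : ∀ j, 0 ≤ x j) (hq0 : ∀ j, 0 ≤ q j) (hq1 : ∀ j, q j ≤ 1)
    (hxq : ∑ j, x j * q j = 1) (hS0 : (m : ℝ) ≤ ∑ j, x j) (hS1 : ∑ j, x j ≤ m + 1) :
    b * (1 - b) * (1 + 2 / (m + 1) * (1 - b)) * (∑ j, x j * q j ^ 2 - 1 / ∑ j, x j) -
      b * (1 - b) * (1 + kap m * (1 - b)) *
        ((m + 1 - ∑ j, x j) * (∑ j, x j - m) / ((∑ j, x j) * (m * (m + 1)))) ≤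
      ∑ j, x j * Dv b (1 / (m + 1)) (1 / m) (q j) := by
  have hm2 : (2 : ℝ) ≤ m := by exact_mod_cast hm
  have hm0 : (0 : ℝ) < m := by linarith
  have hc1 : (1 : ℝ) / m ≤ 1 := by rw [div_le_one hm0]; linarith
  have ha1 : (1 : ℝ) / (m + 1) ≤ 1 := by rw [div_le_one (by linarith)]; linarith
  have h := sum_Dv_ge x q hb0 hb1 ha1 hc1 hx0 hq0 hq1 hxq (by linarith)
  refine le_trans ?_ h
  obtain ⟨S, hS⟩ : ∃ S, S = ∑ j, x j := ⟨_, rfl⟩
  rw [← hS] at hS0 hS1 ⊢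
  have hSpos : 0 < S := by linarith
  obtain ⟨B, hB⟩ : ∃ B, B = ∑ j, x j * q j ^ 2 - 1 / S := ⟨_, rfl⟩
  have hB0 : 0 ≤ B := by
    have hcs : ∀ j, 2 * (1 / S) * (x j * q j) - (1 / S) ^ 2 * x j ≤ x j * q j ^ 2 := by
      intro j
      have : x j * q j ^ 2 - (2 * (1 / S) * (x j * q j) - (1 / S) ^ 2 * x j) =
        x j * (q j - 1 / S) ^ 2 := by ring
      have h2 : 0 ≤ x j * (q j - 1 / S) ^ 2 := mul_nonneg (hx0 j) (sq_nonneg _)
      linarith
    have h2 := Finset.sum_le_sum (fun j (_ : j ∈ Finset.univ) => hcs j)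
    rw [Finset.sum_sub_distrib, ← Finset.mul_sum, ← Finset.mul_sum, hxq, ← hS] at h2
    have h4 : (1 / S) ^ 2 * S = 1 / S := by field_simp
    rw [hB]; linarith
  rw [← hB]
  obtain ⟨p, hp⟩ : ∃ p, p = 1 / S := ⟨_, rfl⟩
  rw [← hp]
  have hpc : p ≤ 1 / m := by rw [hp]; exact one_div_le_one_div_of_le hm0 hS0
  have hpa : 1 / (m + 1) ≤ p := by rw [hp]; exact one_div_le_one_div_of_le hSpos hS1
  have hp1 : p ≤ 1 := hpc.trans hc1
  have hβ : 0 ≤ 1 - b := by linarith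
  have hbβ : 0 ≤ b * (1 - b) := mul_nonneg hb0.le hβ
  have hdp := dn_pos hb0 hb1 hp1
  have t1 : b * (1 - b) * (1 + 2 / (m + 1) * (1 - b)) * B ≤ b * (1 - b) / dn b p ^ 2 * B := by
    apply mul_le_mul_of_nonneg_right _ hB0
    rw [div_eq_mul_one_div (b * (1 - b)) (dn b p ^ 2)]
    apply mul_le_mul_of_nonneg_left _ hbβ
    rw [le_div_iff₀ (by positivity)]
    have hv0 : 0 ≤ (1 - b) * p := mul_nonneg hβ (le_trans (by positivity) hpa)
    have hv1 : (1 - b) * p ≤ 1 := by nlinarith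
    have a1 : 1 + 2 / (m + 1) * (1 - b) ≤ 1 + 2 * ((1 - b) * p) := by
      have := mul_le_mul_of_nonneg_left hpa hβ
      have e : 2 / ((m : ℝ) + 1) * (1 - b) = 2 * ((1 - b) * (1 / (m + 1))) := by ring
      rw [e]; linarith
    calc (1 + 2 / (m + 1) * (1 - b)) * dn b p ^ 2 ≤ (1 + 2 * ((1 - b) * p)) * dn b p ^ 2 :=
          mul_le_mul_of_nonneg_right a1 (by positivity)
      _ = 1 - ((1 - b) * p) ^ 2 * (3 - 2 * ((1 - b) * p)) := by unfold dn; ring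
      _ ≤ 1 := by
          have : 0 ≤ ((1 - b) * p) ^ 2 * (3 - 2 * ((1 - b) * p)) :=
            mul_nonneg (sq_nonneg _) (by linarith)
          linarith
  have t2 : - (b * (1 - b) * (1 + kap m * (1 - b)) *
        ((m + 1 - S) * (S - m) / (S * (m * (m + 1))))) ≤ S * Dv b (1 / (m + 1)) (1 / m) p := by
    have e1 : S * Dv b (1 / (m + 1)) (1 / m) p = - (b * (1 - b) *
        (1 / (dn b p * dn b (1 / (m + 1)) * dn b (1 / m))) *
        ((m + 1 - S) * (S - m) / (S * (m * (m + 1))))) := by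
      unfold Dv
      have e2 : S * ((p - 1 / (m + 1)) * (p - 1 / m)) =
          -((m + 1 - S) * (S - m) / (S * (m * (m + 1)))) := by
        rw [hp]; field_simp; ring
      calc S * (b * (1 - b) * (p - 1 / (m + 1)) * (p - 1 / m) /
            (dn b p * dn b (1 / (m + 1)) * dn b (1 / m)))
          = b * (1 - b) * (1 / (dn b p * dn b (1 / (m + 1)) * dn b (1 / m))) *
            (S * ((p - 1 / (m + 1)) * (p - 1 / m))) := by ring
        _ = _ := by rw [e2]; ring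
    rw [e1]
    apply neg_le_neg
    apply mul_le_mul_of_nonneg_right
    · exact mul_le_mul_of_nonneg_left (inv_dn_bound hm hb0 hb1 hpc) hbβ
    · apply div_nonneg (mul_nonneg (by linarith) (by linarith)) (by positivity)
  linarith

/-- pointwise bound, good case -/
lemma sum_Dv_good {J : Type*} [Fintype J] (x q : J → ℝ) {m : ℕ} (hm : 2 ≤ m) {b : ℝ}
    (hb0 : 0 < b) (hb1 : b ≤ 1)
    (hx0 : ∀ j, 0 ≤ x j) (hq0 : ∀ j, 0 ≤ q j) (hq1 : ∀ j, q j ≤ 1)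
    (hxq : ∑ j, x j * q j = 1) (hS1 : 1 ≤ ∑ j, x j)
    (hg : ∑ j, x j ≤ m ∨ (m : ℝ) + 1 ≤ ∑ j, x j) :
    0 ≤ ∑ j, x j * Dv b (1 / (m + 1)) (1 / m) (q j) := by
  have hm2 : (2 : ℝ) ≤ m := by exact_mod_cast hm
  have hm0 : (0 : ℝ) < m := by linarith
  have hc1 : (1 : ℝ) / m ≤ 1 := by rw [div_le_one hm0]; linarith
  have ha1 : (1 : ℝ) / (m + 1) ≤ 1 := by rw [div_le_one (by linarith)]; linarith
  have h := sum_Dv_ge x q hb0 hb1 ha1 hc1 hx0 hq0 hq1 hxq hS1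
  refine le_trans ?_ h
  obtain ⟨S, hS⟩ : ∃ S, S = ∑ j, x j := ⟨_, rfl⟩
  rw [← hS] at hS1 hg ⊢
  have hSpos : 0 < S := by linarith
  obtain ⟨B, hB⟩ : ∃ B, B = ∑ j, x j * q j ^ 2 - 1 / S := ⟨_, rfl⟩
  have hB0 : 0 ≤ B := by
    have hcs : ∀ j, 2 * (1 / S) * (x j * q j) - (1 / S) ^ 2 * x j ≤ x j * q j ^ 2 := by
      intro j
      have : x j * q j ^ 2 - (2 * (1 / S) * (x j * q j) - (1 / S) ^ 2 * x j) =
        x j * (q j - 1 / S) ^ 2 := by ring
      have h2 : 0 ≤ x j * (q j - 1 / S) ^ 2 := mul_nonneg (hx0 j) (sq_nonneg _)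
      linarith
    have h2 := Finset.sum_le_sum (fun j (_ : j ∈ Finset.univ) => hcs j)
    rw [Finset.sum_sub_distrib, ← Finset.mul_sum, ← Finset.mul_sum, hxq, ← hS] at h2
    have h4 : (1 / S) ^ 2 * S = 1 / S := by field_simp
    rw [hB]; linarith
  rw [← hB]
  have hp1 : 1 / S ≤ 1 := by rw [div_le_one hSpos]; exact hS1
  have hβ : 0 ≤ 1 - b := by linarith
  have t1 : 0 ≤ b * (1 - b) / dn b (1 / S) ^ 2 * B :=
    mul_nonneg (div_nonneg (mul_nonneg hb0.le hβ) (sq_nonneg _)) hB0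
  have t2 : 0 ≤ Dv b (1 / (m + 1)) (1 / m) (1 / S) := by
    apply Dv_nonneg hb0 hb1 ha1 hc1 hp1
    rcases hg with hg | hg
    · have h1 : 1 / (m : ℝ) ≤ 1 / S := one_div_le_one_div_of_le hSpos hg
      have h2 : 1 / ((m : ℝ) + 1) ≤ 1 / m := one_div_le_one_div_of_le hm0 (by linarith)
      exact mul_nonneg (by linarith) (by linarith)
    · have h1 : 1 / S ≤ 1 / ((m : ℝ) + 1) := one_div_le_one_div_of_le (by linarith) hg
      have h2 : 1 / ((m : ℝ) + 1) ≤ 1 / m := one_div_le_one_div_of_le hm0 (by linarith)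
      exact mul_nonneg_of_nonpos_of_nonpos (by linarith) (by linarith)
  have := mul_nonneg hSpos.le t2
  linarith

end Pool.Agent.W2helper81.Riesz
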