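import Mathlib
import Pool.Agent.W2helper81.RieszBr

set_option autoImplicit false
set_option linter.unusedSectionVars false

namespace Pool.Agent.W2helper81.Riesz

open scoped BigOperators
open Finset

variable {ι : Type*} [Fintype ι] [DecidableEq ι]
variable {E : Type*} [NormedAddCommGroup E] [InnerProductSpace ℝ E]
variable {x : ι → E} {Q : ι → ι → ℝ}

lemma ProjData.sum_sq (h : ProjData x Q) (i : ι) : ∑ j, Q i j ^ 2 = Q i i := by
  rw [← h.idem i i]; exact Finset.sum_congr rfl fun k _ => by ring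

lemma ProjData.eq_zero_left (h : ProjData x Q) {i : ι} (hi : Q i i = 0) (j : ι) : Q i j = 0 := by
  have := h.sq_le i j
  rw [hi, zero_mul] at this
  exact pow_eq_zero_iff (two_ne_zero) |>.1 (le_antisymm this (sq_nonneg _))

lemma ProjData.eq_zero_right (h : ProjData x Q) {j : ι} (hj : Q j j = 0) (i : ι) : Q i j = 0 := by
  rw [h.symm]; exact h.eq_zero_left hj i

lemma ProjData.sq_eq (h : ProjData x Q) (i j : ι) : Q i j ^ 2 = Q i i * Q j j * cosq Q i j := by
  unfold cosq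
  rcases eq_or_ne (Q i i) 0 with hi | hi
  · rw [h.eq_zero_left hi, hi]; simp
  rcases eq_or_ne (Q j j) 0 with hj | hj
  · rw [h.eq_zero_right hj, hj]; simp
  field_simp

lemma ProjData.cosq_mul (h : ProjData x Q) {i : ι} (hi : Q i i ≠ 0) (j : ι) :
    cosq Q i j * Q j j = Q i j ^ 2 / Q i i := by
  rw [h.sq_eq i j]; field_simp

lemma ProjData.cosq_symm (h : ProjData x Q) (i j : ι) : cosq Q i j = cosq Q j i := by
  unfold cosq
  rw [h.symm i j, mul_comm]

lemma ProjData.sum_cosq_mul (h : ProjData x Q) {i : ι} (hi : Q i i ≠ 0) :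
    ∑ j, cosq Q i j * Q j j = 1 := by
  simp only [h.cosq_mul hi]
  rw [← Finset.sum_div, h.sum_sq, div_self hi]

lemma ProjData.cosq_diag (h : ProjData x Q) {i : ι} (hi : Q i i ≠ 0) : cosq Q i i = 1 := by
  unfold cosq
  rw [sq]
  exact div_self (mul_ne_zero hi hi)

lemma ProjData.one_le_sum_cosq (h : ProjData x Q) {i : ι} (hi : Q i i ≠ 0) :
    1 ≤ ∑ j, cosq Q i j := by
  rw [← h.cosq_diag hi]
  exact Finset.single_le_sum (f := fun j => cosq Q i j) (fun j _ => h.cosq_nonneg i j)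
    (Finset.mem_univ i)

lemma ProjData.sum_D_ge (h : ProjData x Q) (D : ℝ → ℝ) (hD : 0 ≤ D 0) :
    ∑ i, Q i i * ∑ j, cosq Q i j * D (Q j j) ≤ ∑ i, D (Q i i) := by
  have e1 : ∑ i, Q i i * ∑ j, cosq Q i j * D (Q j j) =
      ∑ j, (∑ i, cosq Q j i * Q i i) * D (Q j j) := by
    simp only [Finset.mul_sum]
    rw [Finset.sum_comm]
    apply Finset.sum_congr rfl
    intro j _
    rw [Finset.sum_mul]
    apply Finset.sum_congr rfl
    intro i _
    rw [h.cosq_symm i j]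
    ring
  rw [e1]
  apply Finset.sum_le_sum
  intro j _
  rcases eq_or_ne (Q j j) 0 with hj | hj
  · have : ∑ i, cosq Q j i * Q i i = 0 := by
      apply Finset.sum_eq_zero
      intro i _
      unfold cosq
      rw [h.eq_zero_left hj, hj]
      simp
    rw [this, hj, zero_mul]
    exact hD
  · rw [h.sum_cosq_mul hj, one_mul]

lemma ProjData.xi_eq (h : ProjData x Q) :
    xi Q = ∑ i, Q i i * ∑ j, cosq Q i j * Q j j ^ 2 * (1 - cosq Q i j) := by
  unfold xi
  have e1 : ∀ i j, (Q i i + Q j j) / 2 * (1 - cosq Q i j) * Q i j ^ 2 =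
      2⁻¹ * (Q i i * (1 - cosq Q i j) * Q i j ^ 2) + 2⁻¹ * (Q j j * (1 - cosq Q i j) * Q i j ^ 2) := by
    intro i j; ring
  simp only [e1, Finset.sum_add_distrib, ← Finset.mul_sum]
  have e2 : ∑ i, ∑ j, Q i i * (1 - cosq Q i j) * Q i j ^ 2 =
      ∑ i, ∑ j, Q j j * (1 - cosq Q i j) * Q i j ^ 2 := by
    rw [Finset.sum_comm]
    apply Finset.sum_congr rfl
    intro i _
    apply Finset.sum_congr rfl
    intro j _
    rw [h.cosq_symm j i, h.symm j i]
  have e3 : ∑ i, ∑ j, Q j j * (1 - cosq Q i j) * Q i j ^ 2 =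
      ∑ i, Q i i * ∑ j, cosq Q i j * Q j j ^ 2 * (1 - cosq Q i j) := by
    apply Finset.sum_congr rfl
    intro i _
    rw [Finset.mul_sum]
    apply Finset.sum_congr rfl
    intro j _
    rw [h.sq_eq i j]
    ring
  have e4 : ∑ i, ∑ j, 2⁻¹ * (Q i i * (1 - cosq Q i j) * Q i j ^ 2) =
      2⁻¹ * ∑ i, ∑ j, Q i i * (1 - cosq Q i j) * Q i j ^ 2 := by
    simp only [Finset.mul_sum]
  have e5 : ∑ i, ∑ j, 2⁻¹ * (Q j j * (1 - cosq Q i j) * Q i j ^ 2) =
      2⁻¹ * ∑ i, ∑ j, Q j j * (1 - cosq Q i j) * Q i j ^ 2 := by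
    simp only [Finset.mul_sum]
  rw [← e3, e2]
  ring

lemma ProjData.xi_nonneg (h : ProjData x Q) : 0 ≤ xi Q := by
  unfold xi
  apply Finset.sum_nonneg
  intro i _
  apply Finset.sum_nonneg
  intro j _
  have h1 := h.cosq_le_one i j
  have h2 := h.diag_nonneg i
  have h3 := h.diag_nonneg j
  exact mul_nonneg (mul_nonneg (by linarith) (by linarith)) (sq_nonneg _)

noncomputable def Sv (Q : ι → ι → ℝ) (i : ι) : ℝ := ∑ j, cosq Q i j
noncomputable def Bv (Q : ι → ι → ℝ) (i : ι) : ℝ := ∑ j, cosq Q i j * Q j j ^ 2 - 1 / ∑ j, cosq Q i j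
noncomputable def Cv (Q : ι → ι → ℝ) (i : ι) : ℝ :=
  ∑ j, cosq Q i j * Q j j ^ 2 * (1 - cosq Q i j)
noncomputable def Av (m : ℕ) (Q : ι → ι → ℝ) (i : ι) : ℝ :=
  (m + 1 - ∑ j, cosq Q i j) * (∑ j, cosq Q i j - m) / ((∑ j, cosq Q i j) * (m * (m + 1)))

/-- the bad indices -/
def bad (m : ℕ) (Q : ι → ι → ℝ) (i : ι) : Prop :=
  Q i i ≠ 0 ∧ (m : ℝ) ≤ ∑ j, cosq Q i j ∧ ∑ j, cosq Q i j ≤ m + 1

open Classical in
noncomputable def X0 (m : ℕ) (Q : ι → ι → ℝ) : ℝ :=
  ∑ i, if bad m Q i then Q i i * (Bv Q i - Av m Q i) else 0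

open Classical in
noncomputable def X1 (m : ℕ) (Q : ι → ι → ℝ) : ℝ :=
  ∑ i, if bad m Q i then Q i i * (2 / (m + 1) * Bv Q i - kap m * Av m Q i) else 0

open Classical in
noncomputable def X2 (m : ℕ) (Q : ι → ι → ℝ) : ℝ :=
  ∑ i, if bad m Q i then Q i i * (Cv Q i / 2) else 0

lemma ProjData.Cv_nonneg (h : ProjData x Q) (i : ι) : 0 ≤ Cv Q i := by
  unfold Cv
  apply Finset.sum_nonneg
  intro j _
  have h1 := h.cosq_le_one i j
  exact mul_nonneg (mul_nonneg (h.cosq_nonneg i j) (sq_nonneg _)) (by linarith)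

/-- pointwise lower bound of the bracket -/
lemma ProjData.bracket_ge (h : ProjData x Q) {m : ℕ} (hm : 2 ≤ m) {b : ℝ} (hb0 : 0 < b)
    (hb1 : b ≤ 1) :
    b * (1 - b) * X0 m Q + b * (1 - b) * (1 - b) * X1 m Q + b ^ 2 * X2 m Q ≤
      ∑ i, Dv b (1 / (m + 1)) (1 / m) (Q i i) + b ^ 2 / 2 * xi Q := by
  classical
  have hm2 : (2 : ℝ) ≤ m := by exact_mod_cast hm
  have hm0 : (0 : ℝ) < m := by linarith
  have hc1 : (1 : ℝ) / m ≤ 1 := by rw [div_le_one hm0]; linarith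
  have ha1 : (1 : ℝ) / (m + 1) ≤ 1 := by rw [div_le_one (by linarith)]; linarith
  have hD0 : 0 ≤ Dv b (1 / (m + 1)) (1 / m) 0 := by
    apply Dv_nonneg hb0 hb1 ha1 hc1 (by norm_num)
    have : (0 - 1 / ((m : ℝ) + 1)) * (0 - 1 / m) = 1 / (m + 1) * (1 / m) := by ring
    rw [this]; positivity
  have h1 := h.sum_D_ge (fun q => Dv b (1 / (m + 1)) (1 / m) q) hD0
  rw [h.xi_eq]
  have h2 : b * (1 - b) * X0 m Q + b * (1 - b) * (1 - b) * X1 m Q + b ^ 2 * X2 m Q ≤
      ∑ i, Q i i * ∑ j, cosq Q i j * Dv b (1 / (m + 1)) (1 / m) (Q j j) +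
      b ^ 2 / 2 * ∑ i, Q i i * ∑ j, cosq Q i j * Q j j ^ 2 * (1 - cosq Q i j) := by
    unfold X0 X1 X2
    rw [Finset.mul_sum, Finset.mul_sum, Finset.mul_sum, Finset.mul_sum, ← Finset.sum_add_distrib,
      ← Finset.sum_add_distrib, ← Finset.sum_add_distrib]
    apply Finset.sum_le_sum
    intro i _
    have hqi := h.diag_nonneg i
    have hC := h.Cv_nonneg i
    have hCdef : ∑ j, cosq Q i j * Q j j ^ 2 * (1 - cosq Q i j) = Cv Q i := rfl
    rw [hCdef]
    have hb2 : 0 ≤ b ^ 2 / 2 * (Q i i * Cv Q i) := by positivity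
    by_cases hbad : bad m Q i
    · rw [if_pos hbad, if_pos hbad, if_pos hbad]
      obtain ⟨hi, hS0, hS1⟩ := hbad
      have h3 := sum_Dv_bad (fun j => cosq Q i j) (fun j => Q j j) hm hb0 hb1
        (fun j => h.cosq_nonneg i j) (fun j => h.diag_nonneg j) (fun j => h.diag_le_one j)
        (h.sum_cosq_mul hi) hS0 hS1
      have h4 := mul_le_mul_of_nonneg_left h3 hqi
      have e1 : Q i i * (b * (1 - b) * (1 + 2 / (m + 1) * (1 - b)) *
          (∑ j, cosq Q i j * Q j j ^ 2 - 1 / ∑ j, cosq Q i j) -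
          b * (1 - b) * (1 + kap m * (1 - b)) *
        ((m + 1 - ∑ j, cosq Q i j) * (∑ j, cosq Q i j - m) /
          ((∑ j, cosq Q i j) * (m * (m + 1))))) =
          b * (1 - b) * (Q i i * (Bv Q i - Av m Q i)) +
          b * (1 - b) * (1 - b) * (Q i i * (2 / (m + 1) * Bv Q i - kap m * Av m Q i)) := by
        unfold Bv Av
        ring
      rw [e1] at h4
      have e2 : b ^ 2 * (Q i i * (Cv Q i / 2)) = b ^ 2 / 2 * (Q i i * Cv Q i) := by ring
      rw [e2]
      linarith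
    · rw [if_neg hbad, if_neg hbad, if_neg hbad, mul_zero, mul_zero, mul_zero, add_zero, add_zero]
      rcases eq_or_ne (Q i i) 0 with hi | hi
      · rw [hi]; simp
      · have hg : ∑ j, cosq Q i j ≤ m ∨ (m : ℝ) + 1 ≤ ∑ j, cosq Q i j := by
          by_contra hcon
          push Not at hcon
          exact hbad ⟨hi, hcon.1.le, hcon.2.le⟩
        have h3 := sum_Dv_good (fun j => cosq Q i j) (fun j => Q j j) hm hb0 hb1
          (fun j => h.cosq_nonneg i j) (fun j => h.diag_nonneg j) (fun j => h.diag_le_one j)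
          (h.sum_cosq_mul hi) (h.one_le_sum_cosq hi) hg
        have h4 := mul_nonneg hqi h3
        linarith
  linarith

/-- The combination of the three constants is nonnegative. -/
lemma ProjData.X_nonneg (h : ProjData x Q) {m : ℕ} (hm : 2 ≤ m) {mA mB mC : ℝ} (hA : 0 < mA)
    (hB : 0 ≤ mB) (hC : 0 < mC)
    (hc1 : (mA + kap m * mB) * ((mA + 2 / (m + 1) * mB) + mC / 2) ≤
      (m + 1) * ((mA + 2 / (m + 1) * mB) * (mC / 2)))
    (hc2 : mA + kap m * mB ≤ m * (mC / 2)) :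
    0 ≤ mA * X0 m Q + mB * X1 m Q + mC * X2 m Q := by
  classical
  unfold X0 X1 X2
  rw [Finset.mul_sum, Finset.mul_sum, Finset.mul_sum, ← Finset.sum_add_distrib,
    ← Finset.sum_add_distrib]
  apply Finset.sum_nonneg
  intro i _
  by_cases hbad : bad m Q i
  · rw [if_pos hbad, if_pos hbad, if_pos hbad]
    obtain ⟨hi, hS0, hS1⟩ := hbad
    have hK2 : 0 < mA + 2 / (m + 1) * mB := by positivity
    have h3 := per_index (fun j => cosq Q i j) (fun j => Q j j) (m := m) (by omega) hK2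
      (L := mC / 2) (by positivity) hc1 hc2
      (fun j => h.cosq_nonneg i j) (fun j => h.cosq_le_one i j)
      (h.sum_cosq_mul hi) hS0 hS1
    have h4 : (mA + kap m * mB) * Av m Q i ≤ (mA + 2 / (m + 1) * mB) * Bv Q i + mC / 2 * Cv Q i :=
      h3
    have h5 := mul_nonneg (h.diag_nonneg i) (sub_nonneg.2 h4)
    have e : mA * (Q i i * (Bv Q i - Av m Q i)) +
      mB * (Q i i * (2 / (m + 1) * Bv Q i - kap m * Av m Q i)) + mC * (Q i i * (Cv Q i / 2)) =
      Q i i * ((mA + 2 / (m + 1) * mB) * Bv Q i + mC / 2 * Cv Q i -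
        (mA + kap m * mB) * Av m Q i) := by ring
    rw [e]
    exact h5
  · rw [if_neg hbad, if_neg hbad, if_neg hbad]
    simp

end Pool.Agent.W2helper81.Riesz
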