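import Mathlib
import Pool.Agent.W2helper81.RieszBracket

set_option autoImplicit false
set_option linter.unusedSectionVars false

namespace Pool.Agent.W2helper81.Riesz

open scoped BigOperators
open Finset

variable {ι : Type*} [Fintype ι] [DecidableEq ι]
variable {E : Type*} [NormedAddCommGroup E] [InnerProductSpace ℝ E]
variable {x : ι → E} {Q : ι → ι → ℝ}

/-- number of indices in the class `a` -/
def csize {r : ℕ} (c : ι → Fin r) (a : Fin r) : ℕ := (univ.filter (fun i => c i = a)).card

/-- `x` is the union of `r` mutually orthogonal regular simplices, the classes of `c`. -/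
def IsOrthSimplices {r : ℕ} (c : ι → Fin r) (x : ι → E) : Prop :=
  (∀ a, 2 ≤ csize c a) ∧
  ∀ i j, inner ℝ (x i) (x j) =
    if i = j then 1 else if c i = c j then -1 / ((csize c (c i) : ℝ) - 1) else 0

lemma ProjData.diag_lt_one (h : ProjData x Q) (hx : ∀ i, ‖x i‖ = 1) (i : ι) : Q i i < 1 := by
  rcases lt_or_eq_of_le (h.diag_le_one i) with h1 | h1
  · exact h1
  · exfalso
    have h2 := h.sum_sq i
    have h3 : ∀ j, j ≠ i → Q i j = 0 := by
      intro j hj
      have h4 : ∑ k ∈ univ.erase i, Q i k ^ 2 = 0 := by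
        rw [Finset.sum_erase_eq_sub (Finset.mem_univ i), h2, h1]; norm_num
      have h5 := (Finset.sum_eq_zero_iff_of_nonneg (fun k _ => sq_nonneg (Q i k))).1 h4 j
        (Finset.mem_erase.2 ⟨hj, Finset.mem_univ j⟩)
      exact pow_eq_zero_iff (two_ne_zero) |>.1 h5
    have h4 := h.rel i
    rw [Finset.sum_eq_single i (fun j _ hj => by rw [h3 j hj, zero_smul])
      (fun hh => absurd (Finset.mem_univ i) hh), h1, one_smul] at h4
    have h5 := hx i
    rw [h4, norm_zero] at h5
    norm_num at h5

/-- structure from a zero gap -/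
lemma structure_aux (h : ProjData x Q) (hx : ∀ i, ‖x i‖ = 1)
    {b : ℝ} (hb0 : 0 < b) (hb1 : b ≤ 1) (ht : ∀ i j, i ≠ j → b * inner ℝ (x i) (x j) < 1)
    (h0 : gap b x Q = 0) (hsum : ∑ i, x i = 0) :
    (∀ i, Q i i ≠ 0) ∧ (∀ i j, Q i j ≠ 0 → Q i j = Q i i ∧ Q j j = Q i i) ∧
    (∀ i j, i ≠ j → Q i j = 0 → inner ℝ (x i) (x j) = (0 : ℝ)) ∧
    (∀ i j, i ≠ j → Q i j ≠ 0 → inner ℝ (x i) (x j) = -(Q i i / (1 - Q i i))) := by
  have hz := gap_zero h hx hb0 hb1 ht h0
  have h00 : ∀ i j, i ≠ j → Q i j = 0 → inner ℝ (x i) (x j) = (0 : ℝ) := by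
    intro i j hij hQ
    have h1 := (hz i j hij).2
    rw [hQ] at h1
    rw [mul_zero, sub_zero, Real.sqrt_one, one_mul] at h1
    have h2 : b * inner ℝ (x i) (x j) = 0 := by linarith
    rcases mul_eq_zero.1 h2 with h3 | h3
    · exact absurd h3 hb0.ne'
    · exact h3
  have hQQ : ∀ i j, Q i j ≠ 0 → Q i j = Q i i ∧ Q j j = Q i i := by
    intro i j hQ
    rcases eq_or_ne i j with hij | hij
    · subst hij; exact ⟨rfl, rfl⟩
    · rcases (hz i j hij).1 with h1 | h1
      · exact absurd h1 hQ
      · have h2 := h.sq_le i j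
        rw [h1] at h2
        have h3 : Q i i = Q j j := by nlinarith [sq_nonneg (Q i i - Q j j)]
        constructor
        · rw [h1, h3]; ring
        · exact h3.symm
  have hne : ∀ i, Q i i ≠ 0 := by
    intro i hi
    have h1 : ∀ j, j ≠ i → inner ℝ (x i) (x j) = (0 : ℝ) := fun j hj =>
      h00 i j hj.symm (h.eq_zero_left hi j)
    have h2 : inner ℝ (x i) (∑ j, x j) = (1 : ℝ) := by
      rw [inner_sum, Finset.sum_eq_single i (fun j _ hj => h1 j hj)
        (fun hh => absurd (Finset.mem_univ i) hh), real_inner_self_eq_norm_sq, hx i]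
      norm_num
    rw [hsum, inner_zero_right] at h2
    norm_num at h2
  refine ⟨hne, hQQ, h00, ?_⟩
  intro i j hij hQ
  obtain ⟨e1, e2⟩ := hQQ i j hQ
  have h1 := (hz i j hij).2
  rw [e1, e2] at h1
  obtain ⟨q, hq⟩ : ∃ q, q = Q i i := ⟨_, rfl⟩
  have hq1 : q < 1 := by rw [hq]; exact h.diag_lt_one hx i
  have hq0 : 0 ≤ q := by rw [hq]; exact h.diag_nonneg i
  rw [← hq] at h1 ⊢
  have hd := den_pos hb0 hb1 hq1.le
  have e3 : 1 - (gmul b q + gmul b q) / 2 * q = ((1 - q) / (1 - (1 - b) * q)) ^ 2 := by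
    unfold gmul rad
    field_simp
    ring
  have hpos : 0 < (1 - q) / (1 - (1 - b) * q) := div_pos (by linarith) hd
  rw [e3, Real.sqrt_sq hpos.le] at h1
  have hq1' : 1 - q ≠ 0 := by linarith
  have hd' := hd.ne'
  have hb' := hb0.ne'
  have h2 : 1 - b * inner ℝ (x i) (x j) = (1 - (1 - b) * q) / (1 - q) := by
    rw [div_mul_eq_mul_div, div_eq_iff hd'] at h1
    rw [eq_div_iff hq1']
    linarith
  have h3 : b * inner ℝ (x i) (x j) = b * (-(q / (1 - q))) := by
    have : (1 - (1 - b) * q) / (1 - q) = 1 + b * (q / (1 - q)) := by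
      field_simp
      ring
    rw [this] at h2
    linarith
  exact mul_left_cancel₀ hb' h3

lemma structure_main (h : ProjData x Q) (hx : ∀ i, ‖x i‖ = 1)
    {b : ℝ} (hb0 : 0 < b) (hb1 : b ≤ 1) (ht : ∀ i j, i ≠ j → b * inner ℝ (x i) (x j) < 1)
    (h0 : gap b x Q = 0) (hsum : ∑ i, x i = 0) (r : ℕ) (htr : ∑ i, Q i i = r) :
    ∃ c : ι → Fin r, IsOrthSimplices c x ∧ ∀ i, Q i i = 1 / (csize c (c i) : ℝ) := by
  classical
  obtain ⟨hne, hQQ, h00, hin⟩ := structure_aux h hx hb0 hb1 ht h0 hsum
  have hrow : ∀ i j, Q i j ≠ 0 ↔ Q j = Q i := by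
    intro i j
    constructor
    · intro hQ
      obtain ⟨e1, e2⟩ := hQQ i j hQ
      have h1 := h.sq_sum i j
      rw [e1, e2] at h1
      have h2 : ∑ k, (Q i k - Q j k) ^ 2 = 0 := by rw [h1]; ring
      funext k
      have h3 := (Finset.sum_eq_zero_iff_of_nonneg (fun k _ => sq_nonneg (Q i k - Q j k))).1 h2 k
        (Finset.mem_univ k)
      have := pow_eq_zero_iff (two_ne_zero) |>.1 h3
      linarith
    · intro hQ
      have : Q i j = Q j j := by rw [hQ]
      rw [this]; exact hne j
  have hclass : ∀ i : ι, ((univ.filter (fun j => Q j = Q i)).card : ℝ) * Q i i = 1 := by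
    intro i
    have h1 := h.sum_sq i
    have h2 : ∑ j, Q i j ^ 2 = ∑ j, if Q j = Q i then Q i i ^ 2 else 0 := by
      apply Finset.sum_congr rfl
      intro j _
      split_ifs with hh
      · rw [(hQQ i j ((hrow i j).2 hh)).1]
      · have : Q i j = 0 := by
          by_contra hcon
          exact hh ((hrow i j).1 hcon)
        rw [this]; norm_num
    rw [h2, ← Finset.sum_filter, Finset.sum_const, nsmul_eq_mul] at h1
    have h3 := hne i
    have h4 : ((univ.filter (fun j => Q j = Q i)).card : ℝ) * Q i i * Q i i = 1 * Q i i := by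
      rw [one_mul, mul_assoc, ← sq]; exact h1
    exact mul_right_cancel₀ h3 h4
  set R := Finset.univ.image Q with hR
  have hRcard : R.card = r := by
    have h1 : ∑ i, Q i i = ∑ i, (1 : ℝ) / (univ.filter (fun j => Q j = Q i)).card := by
      apply Finset.sum_congr rfl
      intro i _
      have h2 := hclass i
      have h3 : ((univ.filter (fun j => Q j = Q i)).card : ℝ) ≠ 0 := by
        intro h4; rw [h4, zero_mul] at h2; norm_num at h2
      rw [eq_div_iff h3, mul_comm]; exact h2
    have h2 : ∑ i, (1 : ℝ) / (univ.filter (fun j => Q j = Q i)).card =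
        ∑ v ∈ R, ∑ i ∈ univ.filter (fun i => Q i = v), (1 : ℝ) / (univ.filter (fun j => Q j = Q i)).card := by
      rw [hR]
      exact (Finset.sum_fiberwise_of_maps_to (fun i _ => Finset.mem_image_of_mem Q (Finset.mem_univ i))
        (fun i => (1 : ℝ) / (univ.filter (fun j => Q j = Q i)).card)).symm
    have h3 : ∀ v ∈ R, ∑ i ∈ univ.filter (fun i => Q i = v),
        (1 : ℝ) / (univ.filter (fun j => Q j = Q i)).card = 1 := by
      intro v hv
      rw [hR, Finset.mem_image] at hv
      obtain ⟨i0, _, rfl⟩ := hv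
      rw [Finset.sum_congr rfl (g := fun _ => (1 : ℝ) / (univ.filter (fun j => Q j = Q i0)).card)]
      · rw [Finset.sum_const, nsmul_eq_mul]
        have h4 : ((univ.filter (fun j => Q j = Q i0)).card : ℝ) ≠ 0 := by
          have h2 := hclass i0
          intro h4; rw [h4, zero_mul] at h2; norm_num at h2
        field_simp
      · intro i hi
        rw [(Finset.mem_filter.1 hi).2]
    rw [h1, h2, Finset.sum_congr rfl h3, Finset.sum_const, nsmul_eq_mul, mul_one] at htr
    exact_mod_cast htr
  let e : R ≃ Fin r := Fintype.equivFinOfCardEq (by rw [Fintype.card_coe]; exact hRcard)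
  have hmem : ∀ i : ι, Q i ∈ R := fun i => Finset.mem_image_of_mem _ (Finset.mem_univ i)
  let c : ι → Fin r := fun i => e ⟨Q i, hmem i⟩
  have hcc : ∀ i j : ι, c i = c j ↔ Q i = Q j := by
    intro i j
    simp only [c]
    rw [e.injective.eq_iff, Subtype.mk.injEq]
  have hsize : ∀ i, csize c (c i) = (univ.filter (fun j => Q j = Q i)).card := by
    intro i
    unfold csize
    congr 1
    ext j
    simp only [Finset.mem_filter, Finset.mem_univ, true_and]
    exact hcc j i
  have hq : ∀ i, Q i i = 1 / (csize c (c i) : ℝ) := by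
    intro i
    have h2 := hclass i
    rw [← hsize] at h2
    have h3 : (csize c (c i) : ℝ) ≠ 0 := by
      intro h4; rw [h4, zero_mul] at h2; norm_num at h2
    rw [eq_div_iff h3, mul_comm]; exact h2
  have hk2 : ∀ i, 2 ≤ csize c (c i) := by
    intro i
    have h1 := h.diag_lt_one hx i
    have h2 := hclass i
    rw [← hsize] at h2
    by_contra hcon
    have h3 : csize c (c i) = 0 ∨ csize c (c i) = 1 := by omega
    rcases h3 with h3 | h3
    · rw [h3] at h2; norm_num at h2
    · rw [h3] at h2; norm_num at h2; linarith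
  refine ⟨c, ⟨?_, ?_⟩, hq⟩
  · intro a
    obtain ⟨⟨v, hv⟩, rfl⟩ := e.surjective a
    have hv' := hv
    rw [hR, Finset.mem_image] at hv'
    obtain ⟨i, _, rfl⟩ := hv'
    exact hk2 i
  · intro i j
    by_cases hij : i = j
    · rw [if_pos hij, hij, real_inner_self_eq_norm_sq, hx j]; norm_num
    rw [if_neg hij]
    by_cases hc : c i = c j
    · rw [if_pos hc]
      have hQ : Q i j ≠ 0 := (hrow i j).2 ((hcc i j).1 hc).symm
      rw [hin i j hij hQ, hq i]
      have h2 : (2 : ℝ) ≤ csize c (c i) := by exact_mod_cast hk2 i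
      have h3 : (csize c (c i) : ℝ) - 1 ≠ 0 := by linarith
      have h4 : (csize c (c i) : ℝ) ≠ 0 := by linarith
      have h5 : 1 - 1 / (csize c (c i) : ℝ) = (csize c (c i) - 1) / csize c (c i) := by
        field_simp
      rw [h5]
      field_simp
    · rw [if_neg hc]
      apply h00 i j hij
      by_contra hcon
      exact hc ((hcc i j).2 ((hrow i j).1 hcon).symm)

/-- pair sums of a union of orthogonal simplices -/
lemma pairSum_orth {r : ℕ} {c : ι → Fin r} (h : IsOrthSimplices c x) (φ : ℝ → ℝ) :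
    pairSum φ x = ∑ i, (((csize c (c i) : ℝ) - 1) * φ (-1 / ((csize c (c i) : ℝ) - 1)) +
      ((Fintype.card ι : ℝ) - csize c (c i)) * φ 0) := by
  classical
  unfold pairSum
  apply Finset.sum_congr rfl
  intro i _
  rw [← Finset.sum_filter_add_sum_filter_not (univ.erase i) (fun j => c j = c i)]
  congr 1
  · rw [Finset.sum_congr rfl (g := fun _ => φ (-1 / ((csize c (c i) : ℝ) - 1)))]
    · rw [Finset.sum_const, nsmul_eq_mul]
      congr 1
      have e : (univ.erase i).filter (fun j => c j = c i) = (univ.filter (fun j => c j = c i)).erase i := by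
        ext j
        simp only [Finset.mem_filter, Finset.mem_erase, Finset.mem_univ, true_and, and_true]
      have hmem : i ∈ univ.filter (fun j => c j = c i) :=
        Finset.mem_filter.2 ⟨Finset.mem_univ i, rfl⟩
      rw [e, Finset.card_erase_of_mem hmem]
      have h2 : 2 ≤ csize c (c i) := h.1 (c i)
      unfold csize at h2 ⊢
      rw [Nat.cast_sub (by omega)]
      norm_num
    · intro j hj
      rw [Finset.mem_filter, Finset.mem_erase] at hj
      rw [h.2 i j, if_neg (Ne.symm hj.1.1), if_pos hj.2.symm]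
  · rw [Finset.sum_congr rfl (g := fun _ => φ 0)]
    · rw [Finset.sum_const, nsmul_eq_mul]
      congr 1
      have e : (univ.erase i).filter (fun j => ¬ c j = c i) = univ.filter (fun j => ¬ c j = c i) := by
        ext j
        simp only [Finset.mem_filter, Finset.mem_erase, Finset.mem_univ, true_and, and_true]
        constructor
        · intro hh; exact hh.2
        · intro hh
          refine ⟨?_, hh⟩
          rintro rfl
          exact hh rfl
      rw [e]
      have h1 := Finset.card_filter_add_card_filter_not (s := (univ : Finset ι)) (fun j => c j = c i)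
      rw [Finset.card_univ] at h1
      unfold csize
      rw [← h1]
      push_cast
      ring
    · intro j hj
      rw [Finset.mem_filter, Finset.mem_erase] at hj
      rw [h.2 i j, if_neg (Ne.symm hj.1.1), if_neg (Ne.symm hj.2)]

/-- sum over indices of a function of the class -/
lemma sum_class {r : ℕ} (c : ι → Fin r) (F : ℕ → ℝ) :
    ∑ i, F (csize c (c i)) = ∑ a, (csize c a : ℝ) * F (csize c a) := by
  classical
  rw [← Finset.sum_fiberwise (s := univ) (g := c) (f := fun i => F (csize c (c i)))]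
  apply Finset.sum_congr rfl
  intro a _
  rw [Finset.sum_congr rfl (g := fun _ => F (csize c a))]
  · rw [Finset.sum_const, nsmul_eq_mul]
    rfl
  · intro i hi
    rw [(Finset.mem_filter.1 hi).2]

lemma sum_csize {r : ℕ} (c : ι → Fin r) : ∑ a, csize c a = Fintype.card ι := by
  classical
  unfold csize
  rw [← Finset.card_univ]
  exact (Finset.card_eq_sum_card_fiberwise (fun i _ => Finset.mem_univ (c i))).symm

/-- balanced value -/
noncomputable def valN (N m r e : ℕ) (φ : ℝ → ℝ) : ℝ :=
  ((r : ℝ) - e) * (m * (((m : ℝ) - 1) * φ (-1 / ((m : ℝ) - 1)) + ((N : ℝ) - m) * φ 0)) +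
  e * ((m + 1) * ((m : ℝ) * φ (-1 / (m : ℝ)) + ((N : ℝ) - (m + 1)) * φ 0))

lemma pairSum_balanced {r m e : ℕ} {c : ι → Fin r} (h : IsOrthSimplices c x)
    (hN : Fintype.card ι = r * m + e) (hs : ∀ a, csize c a = m ∨ csize c a = m + 1) (φ : ℝ → ℝ) :
    pairSum φ x = valN (Fintype.card ι) m r e φ := by
  classical
  rw [pairSum_orth h φ]
  rw [sum_class c (fun k => ((k : ℝ) - 1) * φ (-1 / ((k : ℝ) - 1)) +
    ((Fintype.card ι : ℝ) - k) * φ 0)]
  -- count classes
  set A := univ.filter (fun a : Fin r => csize c a = m + 1) with hA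
  have hAcard : A.card = e := by
    have h1 := sum_csize c
    have h2 : ∑ a, csize c a = ∑ a : Fin r, (m + if csize c a = m + 1 then 1 else 0) := by
      apply Finset.sum_congr rfl
      intro a _
      rcases hs a with h3 | h3
      · rw [if_neg (by omega)]; omega
      · rw [if_pos h3]; omega
    rw [h2, Finset.sum_add_distrib, Finset.sum_const, Finset.card_univ, Fintype.card_fin,
      smul_eq_mul, ← Finset.card_filter] at h1
    rw [hA]
    omega
  have hsplit : ∀ a, (csize c a : ℝ) * (((csize c a : ℝ) - 1) * φ (-1 / ((csize c a : ℝ) - 1)) +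
    ((Fintype.card ι : ℝ) - csize c a) * φ 0) =
    (m * (((m : ℝ) - 1) * φ (-1 / ((m : ℝ) - 1)) + ((Fintype.card ι : ℝ) - m) * φ 0)) +
    (if csize c a = m + 1 then ((m + 1) * ((m : ℝ) * φ (-1 / (m : ℝ)) +
      ((Fintype.card ι : ℝ) - (m + 1)) * φ 0)) -
      (m * (((m : ℝ) - 1) * φ (-1 / ((m : ℝ) - 1)) + ((Fintype.card ι : ℝ) - m) * φ 0)) else 0) := by
    intro a
    rcases hs a with h3 | h3
    · rw [if_neg (by omega), h3]; ring
    · rw [if_pos h3, h3]
      push_cast
      rw [show (m : ℝ) + 1 - 1 = m by ring]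
      ring
  rw [Finset.sum_congr rfl (fun a _ => hsplit a), Finset.sum_add_distrib, Finset.sum_const,
    Finset.card_univ, Fintype.card_fin, nsmul_eq_mul, ← Finset.sum_filter, Finset.sum_const,
    nsmul_eq_mul]
  rw [← hA, hAcard]
  unfold valN
  ring

end Pool.Agent.W2helper81.Riesz
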