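import Mathlib
import Pool.Agent.W2helper81.RieszInt
import Pool.Agent.W2helper81.RieszStruct

set_option autoImplicit false
set_option linter.unusedSectionVars false

namespace Pool.Agent.W2helper81.Riesz

open scoped BigOperators
open Finset MeasureTheory

variable {ι : Type*} [Fintype ι] [DecidableEq ι]
variable {E : Type*} [NormedAddCommGroup E] [InnerProductSpace ℝ E]
variable {x : ι → E} {Q : ι → ι → ℝ}

/-! ### continuity in `b` -/

lemma contOn_ker {t : ℝ} (ht : t < 1) : ContinuousOn (fun b => ker b t) (Set.Icc 0 1) := by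
  unfold ker
  apply ContinuousOn.div continuousOn_const (by fun_prop)
  intro b hb
  have h0 := hb.1
  have h1 := hb.2
  have h2 : b * t < 1 := by
    rcases le_or_gt t 0 with h | h
    · nlinarith
    · nlinarith
  linarith

lemma dn_pos' {b q : ℝ} (hb0 : 0 ≤ b) (_hb1 : b ≤ 1) (hq0 : 0 ≤ q) (hq1 : q < 1) : 0 < dn b q := by
  unfold dn
  nlinarith [mul_nonneg hb0 hq0]

lemma contOn_dn {q : ℝ} : ContinuousOn (fun b => dn b q) (Set.Icc 0 1) := by
  unfold dn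
  fun_prop

lemma contOn_psi {q : ℝ} (hq0 : 0 ≤ q) (hq1 : q < 1) :
    ContinuousOn (fun b => psi b q) (Set.Icc 0 1) := by
  unfold psi rad
  apply ContinuousOn.mul _ continuousOn_const
  apply ContinuousOn.div (by fun_prop) (by fun_prop)
  intro b hb
  exact (dn_pos' hb.1 hb.2 hq0 hq1).ne'

lemma contOn_Dv {a c q : ℝ} (ha0 : 0 ≤ a) (ha1 : a < 1) (hc0 : 0 ≤ c) (hc1 : c < 1)
    (hq0 : 0 ≤ q) (hq1 : q < 1) :
    ContinuousOn (fun b => Dv b a c q) (Set.Icc 0 1) := by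
  unfold Dv
  apply ContinuousOn.div (by fun_prop) ((contOn_dn.mul contOn_dn).mul contOn_dn)
  intro b hb
  exact (mul_pos (mul_pos (dn_pos' hb.1 hb.2 hq0 hq1) (dn_pos' hb.1 hb.2 ha0 ha1))
    (dn_pos' hb.1 hb.2 hc0 hc1)).ne'

lemma contOn_ga {a c : ℝ} (ha0 : 0 ≤ a) (ha1 : a < 1) (hc0 : 0 ≤ c) (hc1 : c < 1) :
    ContinuousOn (fun b => ga b a c) (Set.Icc 0 1) := by
  unfold ga
  apply ContinuousOn.div (by fun_prop) (contOn_dn.mul contOn_dn)
  intro b hb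
  exact (mul_pos (dn_pos' hb.1 hb.2 ha0 ha1) (dn_pos' hb.1 hb.2 hc0 hc1)).ne'

lemma contOn_pairSum (ht : ∀ i j, i ≠ j → inner ℝ (x i) (x j) < (1 : ℝ)) :
    ContinuousOn (fun b => pairSum (ker b) x) (Set.Icc 0 1) := by
  unfold pairSum
  apply continuousOn_finsetSum
  intro i _
  apply continuousOn_finsetSum
  intro j hj
  exact contOn_ker (ht i j (Finset.ne_of_mem_erase hj).symm)

/-- the bracket -/
noncomputable def br (b a c : ℝ) (Q : ι → ι → ℝ) : ℝ :=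
  ∑ i, Dv b a c (Q i i) + b ^ 2 / 2 * xi Q

lemma contOn_br (h : ProjData x Q) (hx : ∀ i, ‖x i‖ = 1) {a c : ℝ} (ha0 : 0 ≤ a) (ha1 : a < 1)
    (hc0 : 0 ≤ c) (hc1 : c < 1) : ContinuousOn (fun b => br b a c Q) (Set.Icc 0 1) := by
  unfold br
  apply ContinuousOn.add
  · apply continuousOn_finsetSum
    intro i _
    exact contOn_Dv ha0 ha1 hc0 hc1 (h.diag_nonneg i) (h.diag_lt_one hx i)
  · fun_prop

lemma contOn_gap (h : ProjData x Q) (hx : ∀ i, ‖x i‖ = 1)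
    (ht : ∀ i j, i ≠ j → inner ℝ (x i) (x j) < (1 : ℝ)) :
    ContinuousOn (fun b => gap b x Q) (Set.Icc 0 1) := by
  unfold gap
  apply ContinuousOn.sub (contOn_pairSum ht)
  apply ContinuousOn.add
  · apply ContinuousOn.add (by fun_prop)
    apply continuousOn_finsetSum
    intro i _
    exact contOn_psi (h.diag_nonneg i) (h.diag_lt_one hx i)
  · fun_prop

lemma decomp (h : ProjData x Q) {b a c : ℝ} (hb0 : 0 < b) (hb1 : b ≤ 1) (ha1 : a ≤ 1)
    (hc1 : c ≤ 1) (r : ℝ) :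
    pairSum (ker b) x - (-(Fintype.card ι : ℝ) + (Fintype.card ι : ℝ) * al b a c + r * ga b a c) =
      gap b x Q + ‖∑ i, x i‖ ^ 2 + ga b a c * (∑ i, Q i i - r) + br b a c Q := by
  have e : ∑ i, psi b (Q i i) = ∑ i, Dv b a c (Q i i) + (Fintype.card ι : ℝ) * al b a c +
      ga b a c * ∑ i, Q i i := by
    rw [Finset.sum_congr rfl (fun i _ => psi_decomp (a := a) (c := c) hb0 hb1 ha1 hc1
      (h.diag_le_one i)), Finset.sum_add_distrib, Finset.sum_add_distrib, Finset.sum_const,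
      Finset.card_univ, nsmul_eq_mul, Finset.mul_sum]
  unfold gap br
  rw [e]
  ring

/-- The integrated comparison. -/
lemma core_bound {ρ : ℝ} (h0 : -1 < ρ) (h1 : ρ < 1) (h : ProjData x Q) (hx : ∀ i, ‖x i‖ = 1)
    (ht : ∀ i j, i ≠ j → inner ℝ (x i) (x j) < (1 : ℝ)) {a c : ℝ} (ha0 : 0 ≤ a) (ha1 : a < 1)
    (hc0 : 0 ≤ c) (hc1 : c < 1) (r : ℝ) (hr : r ≤ ∑ i, Q i i) (V : ℝ → ℝ)
    (hV : ∀ b, 0 < b → b ≤ 1 →
      V b = -(Fintype.card ι : ℝ) + (Fintype.card ι : ℝ) * al b a c + r * ga b a c)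
    (hbr : 0 ≤ ∫ τ in Set.Ioi 0, wt ρ τ * br (bb τ) a c Q) :
    0 ≤ (∫ τ in Set.Ioi 0, wt ρ τ * (pairSum (ker (bb τ)) x - V (bb τ))) ∧
    ((∫ τ in Set.Ioi 0, wt ρ τ * (pairSum (ker (bb τ)) x - V (bb τ))) ≤ 0 →
      (∃ τ, 0 < τ ∧ gap (bb τ) x Q = 0) ∧ ∑ i, x i = 0 ∧ ∑ i, Q i i = r ∧
        (∫ τ in Set.Ioi 0, wt ρ τ * br (bb τ) a c Q) ≤ 0) := by
  have i1 := integrableOn_wt_mul h0 h1 _ (contOn_gap h hx ht)
  have i2 := (integrableOn_wt h0 h1).mul_const (‖∑ i, x i‖ ^ 2)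
  have i3 := (integrableOn_wt_mul h0 h1 _ (contOn_ga ha0 ha1 hc0 hc1)).mul_const (∑ i, Q i i - r)
  have i4 := integrableOn_wt_mul h0 h1 _ (contOn_br h hx ha0 ha1 hc0 hc1)
  have e : (∫ τ in Set.Ioi 0, wt ρ τ * (pairSum (ker (bb τ)) x - V (bb τ))) =
      (∫ τ in Set.Ioi 0, wt ρ τ * gap (bb τ) x Q) + (∫ τ in Set.Ioi 0, wt ρ τ) * ‖∑ i, x i‖ ^ 2 +
      (∫ τ in Set.Ioi 0, wt ρ τ * ga (bb τ) a c) * (∑ i, Q i i - r) +
      ∫ τ in Set.Ioi 0, wt ρ τ * br (bb τ) a c Q := by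
    have i12 : IntegrableOn (fun τ => wt ρ τ * gap (bb τ) x Q + wt ρ τ * ‖∑ i, x i‖ ^ 2)
      (Set.Ioi 0) := i1.add i2
    have i123 : IntegrableOn (fun τ => wt ρ τ * gap (bb τ) x Q + wt ρ τ * ‖∑ i, x i‖ ^ 2 +
      wt ρ τ * ga (bb τ) a c * (∑ i, Q i i - r)) (Set.Ioi 0) := i12.add i3
    rw [← integral_mul_const, ← integral_mul_const, ← integral_add i1 i2,
      ← integral_add i12 i3, ← integral_add i123 i4]
    apply setIntegral_congr_fun measurableSet_Ioi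
    intro τ hτ
    have hτ' : 0 < τ := hτ
    have hb0 := bb_pos hτ'
    have hb1 := (bb_lt_one hτ').le
    simp only
    rw [hV _ hb0 hb1, decomp h hb0 hb1 ha1.le hc1.le]
    ring
  have g1 : 0 ≤ ∫ τ in Set.Ioi 0, wt ρ τ * gap (bb τ) x Q := by
    apply setIntegral_nonneg measurableSet_Ioi
    intro τ hτ
    have hτ' : 0 < τ := hτ
    apply mul_nonneg (wt_pos ρ hτ').le
    apply gap_nonneg h hx (bb_pos hτ') (bb_lt_one hτ').le
    intro i j hij
    have := ht i j hij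
    have hb0 := bb_pos hτ'
    have hb1 := bb_lt_one hτ'
    nlinarith
  have g2' : 0 < ∫ τ in Set.Ioi 0, wt ρ τ := by
    have := integral_pos_of_pos (ρ := ρ) (g := fun _ => 1)
      (by simpa using integrableOn_wt h0 h1) (fun _ _ => one_pos)
    simpa using this
  have g3' : 0 < ∫ τ in Set.Ioi 0, wt ρ τ * ga (bb τ) a c :=
    integral_pos_of_pos (integrableOn_wt_mul h0 h1 _ (contOn_ga ha0 ha1 hc0 hc1))
      (fun τ hτ => ga_pos (bb_pos hτ) (bb_lt_one hτ).le ha1.le hc1.le)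
  have g2 : 0 ≤ (∫ τ in Set.Ioi 0, wt ρ τ) * ‖∑ i, x i‖ ^ 2 := mul_nonneg g2'.le (sq_nonneg _)
  have g3 : 0 ≤ (∫ τ in Set.Ioi 0, wt ρ τ * ga (bb τ) a c) * (∑ i, Q i i - r) :=
    mul_nonneg g3'.le (by linarith)
  rw [e]
  refine ⟨by linarith, fun hle => ?_⟩
  have z1 : (∫ τ in Set.Ioi 0, wt ρ τ * gap (bb τ) x Q) ≤ 0 := by linarith
  have z2 : (∫ τ in Set.Ioi 0, wt ρ τ) * ‖∑ i, x i‖ ^ 2 = 0 := by linarith
  have z3 : (∫ τ in Set.Ioi 0, wt ρ τ * ga (bb τ) a c) * (∑ i, Q i i - r) = 0 := by linarith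
  refine ⟨exists_zero i1 ?_ z1, ?_, ?_, by linarith⟩
  · intro τ hτ'
    apply gap_nonneg h hx (bb_pos hτ') (bb_lt_one hτ').le
    intro i j hij
    have := ht i j hij
    have hb0 := bb_pos hτ'
    have hb1 := bb_lt_one hτ'
    nlinarith
  · rcases mul_eq_zero.1 z2 with z | z
    · exact absurd z g2'.ne'
    · exact norm_eq_zero.1 (pow_eq_zero_iff (two_ne_zero) |>.1 z)
  · rcases mul_eq_zero.1 z3 with z | z
    · exact absurd z g3'.ne'
    · linarith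

lemma xi_zero_of_structure
    (hQQ : ∀ i j, Q i j ≠ 0 → Q i j = Q i i ∧ Q j j = Q i i) : xi Q = 0 := by
  unfold xi
  apply Finset.sum_eq_zero
  intro i _
  apply Finset.sum_eq_zero
  intro j _
  by_cases hQ : Q i j = 0
  · rw [hQ]; ring
  · obtain ⟨e1, e2⟩ := hQQ i j hQ
    have hi : Q i i ≠ 0 := by rw [← e1]; exact hQ
    have : cosq Q i j = 1 := by
      unfold cosq
      rw [e1, e2, sq]
      exact div_self (mul_ne_zero hi hi)
    rw [this]; ring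

/-- value of the balanced energy for the kernels -/
lemma valN_ker {N m r e : ℕ} (hm : 2 ≤ m) (hN : N = r * m + e) {b : ℝ} (hb0 : 0 < b) :
    valN N m r e (ker b) = -(N : ℝ) + (N : ℝ) * al b (1 / (m + 1)) (1 / m) +
      (r : ℝ) * ga b (1 / (m + 1)) (1 / m) := by
  have hm2 : (2 : ℝ) ≤ m := by exact_mod_cast hm
  have hm0 : (m : ℝ) ≠ 0 := by linarith
  have hm1 : (m : ℝ) - 1 ≠ 0 := by linarith
  have hmp : (m : ℝ) + 1 ≠ 0 := by linarith
  have hb : (m : ℝ) - 1 + b ≠ 0 := by linarith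
  have hb' : (m : ℝ) + b ≠ 0 := by linarith
  have hNr : (N : ℝ) = r * m + e := by exact_mod_cast hN
  have k0 : ker b 0 = 0 := by unfold ker; simp
  have k1 : ker b (-1 / ((m : ℝ) - 1)) = -1 / (m - 1 + b) := by
    unfold ker
    have : 1 - b * (-1 / ((m : ℝ) - 1)) = (m - 1 + b) / (m - 1) := by field_simp; ring
    rw [this]
    field_simp
  have k2 : ker b (-1 / (m : ℝ)) = -1 / (m + b) := by
    unfold ker
    have : 1 - b * (-1 / (m : ℝ)) = (m + b) / m := by field_simp; ring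
    rw [this]
    field_simp
  have d1 : dn b (1 / (m : ℝ)) = (m - 1 + b) / m := by unfold dn; field_simp; ring
  have d2 : dn b (1 / ((m : ℝ) + 1)) = (m + b) / (m + 1) := by unfold dn; field_simp; ring
  unfold valN al ga
  rw [k0, k1, k2, d1, d2, hNr]
  field_simp
  ring

lemma valN_ker0 {N m r : ℕ} (hm : 2 ≤ m) (hN : N = r * m) {b : ℝ} (hb0 : 0 < b) :
    valN N m r 0 (ker b) = -(N : ℝ) + (N : ℝ) * al b (1 / m) (1 / m) +
      (r : ℝ) * ga b (1 / m) (1 / m) := by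
  have hm2 : (2 : ℝ) ≤ m := by exact_mod_cast hm
  have hm0 : (m : ℝ) ≠ 0 := by linarith
  have hm1 : (m : ℝ) - 1 ≠ 0 := by linarith
  have hb : (m : ℝ) - 1 + b ≠ 0 := by linarith
  have hNr : (N : ℝ) = r * m := by exact_mod_cast hN
  have k0 : ker b 0 = 0 := by unfold ker; simp
  have k1 : ker b (-1 / ((m : ℝ) - 1)) = -1 / (m - 1 + b) := by
    unfold ker
    have : 1 - b * (-1 / ((m : ℝ) - 1)) = (m - 1 + b) / (m - 1) := by field_simp; ring
    rw [this]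
    field_simp
  have d1 : dn b (1 / (m : ℝ)) = (m - 1 + b) / m := by unfold dn; field_simp; ring
  unfold valN al ga
  rw [k0, k1, d1, hNr]
  push_cast
  field_simp
  ring

end Pool.Agent.W2helper81.Riesz
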