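import Mathlib
import Pool.Agent.W2helper81.RieszMain
import Pool.Agent.Helper328.SimplexExist

set_option autoImplicit false
set_option linter.unusedSectionVars false

namespace Pool.Agent.W2helper81.Riesz

open scoped BigOperators
open Finset MeasureTheory

section general

variable {ι : Type*} [Fintype ι] [DecidableEq ι]
variable {E : Type*} [NormedAddCommGroup E] [InnerProductSpace ℝ E]
variable {x : ι → E}

/-- `x` is a union of `r` mutually orthogonal regular simplices of sizes as equal as possible. -/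
def IsBalanced (r : ℕ) (x : ι → E) : Prop :=
  ∃ c : ι → Fin r, IsOrthSimplices c x ∧
    ∀ a, csize c a = Fintype.card ι / r ∨ csize c a = Fintype.card ι / r + 1

/-- the integral representation -/
def Rep (ρ : ℝ) (f : ℝ → ℝ) : Prop :=
  ∃ C C0 : ℝ, 0 < C ∧ ∀ t : ℝ, t < 1 →
    f t = C0 + C * ∫ τ in Set.Ioi 0, wt ρ τ * ker (bb τ) t

/-- the numerical condition -/
def Cond (ρ : ℝ) (m : ℕ) : Prop :=
  (mA ρ + kap m * mB ρ) * ((mA ρ + 2 / (m + 1) * mB ρ) + mC ρ / 2) ≤
      (m + 1) * ((mA ρ + 2 / (m + 1) * mB ρ) * (mC ρ / 2)) ∧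
  mA ρ + kap m * mB ρ ≤ m * (mC ρ / 2)

lemma cond_of {ρ : ℝ} {m : ℕ} (h0 : -1 < ρ) (h1 : ρ < 1)
    (hc1 : (1 + kap m * ((2 - ρ) / 4)) * ((1 + 2 / (m + 1) * ((2 - ρ) / 4)) +
      (2 + ρ) / (2 * (1 - ρ))) ≤
      (m + 1) * ((1 + 2 / (m + 1) * ((2 - ρ) / 4)) * ((2 + ρ) / (2 * (1 - ρ)))))
    (hc2 : 1 + kap m * ((2 - ρ) / 4) ≤ m * ((2 + ρ) / (2 * (1 - ρ)))) : Cond ρ m := by
  have hA := mA_pos h0 h1
  have hB : mB ρ = (2 - ρ) / 4 * mA ρ := by
    have := moment_B h0 h1
    linarith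
  have hρ : 1 - ρ ≠ 0 := by linarith
  have hC : mC ρ / 2 = (2 + ρ) / (2 * (1 - ρ)) * mA ρ := by
    have := moment_C h0 h1
    field_simp
    linarith
  unfold Cond
  rw [hC, hB]
  constructor
  · have h2 := mul_le_mul_of_nonneg_right hc1 (sq_nonneg (mA ρ))
    calc _ = (1 + kap m * ((2 - ρ) / 4)) * ((1 + 2 / (m + 1) * ((2 - ρ) / 4)) +
      (2 + ρ) / (2 * (1 - ρ))) * mA ρ ^ 2 := by ring
      _ ≤ _ := h2
      _ = _ := by ring
  · have h2 := mul_le_mul_of_nonneg_right hc2 hA.le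
    calc _ = (1 + kap m * ((2 - ρ) / 4)) * mA ρ := by ring
      _ ≤ _ := h2
      _ = _ := by ring

lemma pairSum_rep {ρ : ℝ} (h0 : -1 < ρ) (h1 : ρ < 1) {f : ℝ → ℝ} {C C0 : ℝ}
    (hf : ∀ t : ℝ, t < 1 → f t = C0 + C * ∫ τ in Set.Ioi 0, wt ρ τ * ker (bb τ) t)
    (ht : ∀ i j, i ≠ j → inner ℝ (x i) (x j) < (1 : ℝ)) :
    pairSum f x = C0 * ((Fintype.card ι : ℝ) * ((Fintype.card ι : ℝ) - 1)) +
      C * ∫ τ in Set.Ioi 0, wt ρ τ * pairSum (ker (bb τ)) x := by
  have e1 : ∫ τ in Set.Ioi 0, wt ρ τ * pairSum (ker (bb τ)) x =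
      ∑ i, ∑ j ∈ univ.erase i, ∫ τ in Set.Ioi 0, wt ρ τ * ker (bb τ) (inner ℝ (x i) (x j)) := by
    unfold pairSum
    simp only [Finset.mul_sum]
    rw [integral_finsetSum]
    · apply Finset.sum_congr rfl
      intro i _
      rw [integral_finsetSum]
      intro j hj
      exact integrableOn_wt_mul h0 h1 _ (contOn_ker (ht i j (Finset.ne_of_mem_erase hj).symm))
    · intro i _
      apply integrable_finsetSum
      intro j hj
      exact integrableOn_wt_mul h0 h1 _ (contOn_ker (ht i j (Finset.ne_of_mem_erase hj).symm))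
  rw [e1]
  unfold pairSum
  have e2 : ∀ i, ∑ j ∈ univ.erase i, f (inner ℝ (x i) (x j)) =
      ((Fintype.card ι : ℝ) - 1) * C0 + C * ∑ j ∈ univ.erase i,
        ∫ τ in Set.Ioi 0, wt ρ τ * ker (bb τ) (inner ℝ (x i) (x j)) := by
    intro i
    rw [Finset.sum_congr rfl (fun j hj => hf _ (ht i j (Finset.ne_of_mem_erase hj).symm)),
      Finset.sum_add_distrib, Finset.sum_const, Finset.card_erase_of_mem (Finset.mem_univ i),
      Finset.card_univ, ← Finset.mul_sum, nsmul_eq_mul]
    congr 2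
    have : 1 ≤ Fintype.card ι := Fintype.card_pos_iff.2 ⟨i⟩
    rw [Nat.cast_sub this, Nat.cast_one]
  rw [Finset.sum_congr rfl (fun i _ => e2 i), Finset.sum_add_distrib, Finset.sum_const,
    Finset.card_univ, nsmul_eq_mul, ← Finset.mul_sum]
  ring

lemma valN_rep {ρ : ℝ} (h0 : -1 < ρ) (h1 : ρ < 1) {f : ℝ → ℝ} {C C0 : ℝ}
    (hf : ∀ t : ℝ, t < 1 → f t = C0 + C * ∫ τ in Set.Ioi 0, wt ρ τ * ker (bb τ) t)
    {N m r e : ℕ} (hm : 2 ≤ m) (hN : N = r * m + e) :
    valN N m r e f = C0 * ((N : ℝ) * ((N : ℝ) - 1)) +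
      C * ∫ τ in Set.Ioi 0, wt ρ τ * valN N m r e (ker (bb τ)) := by
  have hm2 : (2 : ℝ) ≤ m := by exact_mod_cast hm
  have hm1 : (0 : ℝ) < m - 1 := by linarith
  have hm0 : (0 : ℝ) < m := by linarith
  have t1 : -1 / ((m : ℝ) - 1) < 1 := by
    have : -1 / ((m : ℝ) - 1) < 0 := div_neg_of_neg_of_pos (by norm_num) hm1
    linarith
  have t2 : -1 / (m : ℝ) < 1 := by
    have : -1 / (m : ℝ) < 0 := div_neg_of_neg_of_pos (by norm_num) hm0
    linarith
  have i1 := (integrableOn_wt_mul h0 h1 _ (contOn_ker t1)).const_mul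
    (((r : ℝ) - e) * (m * ((m : ℝ) - 1)))
  have i2 := (integrableOn_wt_mul h0 h1 _ (contOn_ker t2)).const_mul
    ((e : ℝ) * ((m + 1) * (m : ℝ)))
  have k0 : ∀ b, ker b 0 = 0 := fun b => by unfold ker; simp
  have e1 : ∫ τ in Set.Ioi 0, wt ρ τ * valN N m r e (ker (bb τ)) =
      ((r : ℝ) - e) * (m * ((m : ℝ) - 1)) *
        (∫ τ in Set.Ioi 0, wt ρ τ * ker (bb τ) (-1 / ((m : ℝ) - 1))) +
      (e : ℝ) * ((m + 1) * (m : ℝ)) * ∫ τ in Set.Ioi 0, wt ρ τ * ker (bb τ) (-1 / (m : ℝ)) := by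
    rw [← integral_const_mul, ← integral_const_mul, ← integral_add i1 i2]
    apply setIntegral_congr_fun measurableSet_Ioi
    intro τ _
    simp only
    unfold valN
    rw [k0]
    ring
  rw [e1]
  have hf0 : f 0 = C0 := by
    rw [hf 0 (by norm_num)]
    simp [k0]
  have hNr : (N : ℝ) = r * m + e := by exact_mod_cast hN
  unfold valN
  rw [hf _ t1, hf _ t2, hf0, hNr]
  ring

lemma inner_lt_one_of_ne (hx : ∀ i, ‖x i‖ = 1) (hinj : Function.Injective x) :
    ∀ i j, i ≠ j → inner ℝ (x i) (x j) < (1 : ℝ) := by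
  intro i j hij
  have h1 : inner ℝ (x i) (x j) ≤ (1 : ℝ) := by
    have := real_inner_le_norm (x i) (x j)
    rw [hx i, hx j] at this
    linarith
  rcases lt_or_eq_of_le h1 with h2 | h2
  · exact h2
  · exfalso
    rw [inner_eq_one_iff_of_norm_eq_one (hx i) (hx j)] at h2
    exact hij (hinj h2)

lemma Dv_zero_imp {b a c q : ℝ} (hb0 : 0 < b) (hb1 : b < 1) (ha1 : a < 1) (hc1 : c < 1)
    (hq1 : q < 1) (h : Dv b a c q = 0) : q = a ∨ q = c := by
  unfold Dv at h
  rw [div_eq_zero_iff] at h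
  rcases h with h | h
  · have hbb : b * (1 - b) ≠ 0 := mul_ne_zero hb0.ne' (by linarith)
    rw [mul_assoc] at h
    rcases mul_eq_zero.1 h with h | h
    · exact absurd h hbb
    · rcases mul_eq_zero.1 h with h | h
      · left; linarith
      · right; linarith
  · exact absurd h (mul_pos (mul_pos (dn_pos hb0 hb1.le hq1.le) (dn_pos hb0 hb1.le ha1.le))
      (dn_pos hb0 hb1.le hc1.le)).ne'

/-- product is nonnegative at reciprocals of integers -/
lemma recip_prod_nonneg {m k : ℕ} (hm : 1 ≤ m) (hk : 1 ≤ k) :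
    0 ≤ (1 / (k : ℝ) - 1 / (m + 1)) * (1 / (k : ℝ) - 1 / m) := by
  have hm0 : (0 : ℝ) < m := by exact_mod_cast hm
  have hk0 : (0 : ℝ) < k := by exact_mod_cast hk
  rcases le_or_gt k m with h | h
  · have h1 : (k : ℝ) ≤ m := by exact_mod_cast h
    have e1 : 1 / (m : ℝ) ≤ 1 / k := one_div_le_one_div_of_le hk0 h1
    have e2 : 1 / ((m : ℝ) + 1) ≤ 1 / k := one_div_le_one_div_of_le hk0 (by linarith)
    exact mul_nonneg (by linarith) (by linarith)
  · have h1 : (m : ℝ) + 1 ≤ k := by exact_mod_cast h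
    have e1 : 1 / (k : ℝ) ≤ 1 / (m + 1) := one_div_le_one_div_of_le (by linarith) h1
    have e2 : 1 / (k : ℝ) ≤ 1 / m := one_div_le_one_div_of_le hm0 (by linarith)
    exact mul_nonneg_of_nonpos_of_nonpos (by linarith) (by linarith)

/-- **Main comparison theorem.** -/
theorem main_bound [FiniteDimensional ℝ E] {ρ : ℝ} (h0 : -1 < ρ) (h1 : ρ < 1) {f : ℝ → ℝ}
    (hf : Rep ρ f)
    (hx : ∀ i, ‖x i‖ = 1) (ht : ∀ i j, i ≠ j → inner ℝ (x i) (x j) < (1 : ℝ))
    {r m e : ℕ} (hr : Fintype.card ι = Module.finrank ℝ E + r)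
    (hN : Fintype.card ι = r * m + e) (he : e < r) (hm : 2 ≤ m) (hc : e = 0 ∨ Cond ρ m) :
    valN (Fintype.card ι) m r e f ≤ pairSum f x ∧
    (pairSum f x ≤ valN (Fintype.card ι) m r e f → IsBalanced r x) := by
  classical
  obtain ⟨Q, h⟩ := exists_projData x
  obtain ⟨C, C0, hC, hfr⟩ := hf
  have hm2 : (2 : ℝ) ≤ m := by exact_mod_cast hm
  have hm0 : (0 : ℝ) < m := by linarith
  have hc0 : (0 : ℝ) ≤ 1 / m := by positivity
  have hc1 : (1 : ℝ) / m < 1 := by rw [div_lt_one hm0]; linarith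
  have ha0 : (0 : ℝ) ≤ 1 / (m + 1) := by positivity
  have ha1 : (1 : ℝ) / (m + 1) < 1 := by rw [div_lt_one (by linarith)]; linarith
  have hdiv : Fintype.card ι / r = m := by
    rw [hN, Nat.mul_add_div (by omega), Nat.div_eq_of_lt he, add_zero]
  have hT : (r : ℝ) ≤ ∑ i, Q i i := by
    have h2 := h.tr
    have h3 : (Fintype.card ι : ℝ) = Module.finrank ℝ E + r := by exact_mod_cast hr
    linarith
  have hdiff : pairSum f x - valN (Fintype.card ι) m r e f =
      C * ∫ τ in Set.Ioi 0, wt ρ τ * (pairSum (ker (bb τ)) x -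
        valN (Fintype.card ι) m r e (ker (bb τ))) := by
    rw [pairSum_rep h0 h1 hfr ht, valN_rep h0 h1 hfr hm hN]
    have i1 := integrableOn_wt_mul h0 h1 _ (contOn_pairSum ht)
    have t1 : -1 / ((m : ℝ) - 1) < 1 := by
      have : -1 / ((m : ℝ) - 1) < 0 := div_neg_of_neg_of_pos (by norm_num) (by linarith)
      linarith
    have t2 : -1 / (m : ℝ) < 1 := by
      have : -1 / (m : ℝ) < 0 := div_neg_of_neg_of_pos (by norm_num) hm0
      linarith
    have t3 : (0 : ℝ) < 1 := one_pos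
    have c1 : ContinuousOn (fun b => valN (Fintype.card ι) m r e (ker b)) (Set.Icc 0 1) := by
      unfold valN
      apply ContinuousOn.add
      · exact continuousOn_const.mul (continuousOn_const.mul ((continuousOn_const.mul
          (contOn_ker t1)).add (continuousOn_const.mul (contOn_ker t3))))
      · exact continuousOn_const.mul (continuousOn_const.mul ((continuousOn_const.mul
          (contOn_ker t2)).add (continuousOn_const.mul (contOn_ker t3))))
    have i2 := integrableOn_wt_mul h0 h1 _ c1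
    simp only [mul_sub]
    rw [integral_sub i1 i2]
    ring
  -- the two cases
  have key : ∃ a c : ℝ, 0 ≤ a ∧ a < 1 ∧ 0 ≤ c ∧ c < 1 ∧
      (∀ b, 0 < b → b ≤ 1 → valN (Fintype.card ι) m r e (ker b) =
        -(Fintype.card ι : ℝ) + (Fintype.card ι : ℝ) * al b a c + (r : ℝ) * ga b a c) ∧
      (0 ≤ ∫ τ in Set.Ioi 0, wt ρ τ * br (bb τ) a c Q) ∧
      (∀ k : ℕ, 1 ≤ k → 0 ≤ (1 / (k : ℝ) - a) * (1 / (k : ℝ) - c)) ∧
      (∀ k : ℕ, 1 ≤ k → (1 / (k : ℝ) = a ∨ 1 / (k : ℝ) = c) → k = m ∨ k = m + 1) := by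
    rcases hc with hc | hc
    · subst hc
      refine ⟨1 / m, 1 / m, hc0, hc1, hc0, hc1, ?_, ?_, ?_, ?_⟩
      · intro b hb0 hb1
        exact valN_ker0 hm (by omega) hb0
      · apply setIntegral_nonneg measurableSet_Ioi
        intro τ hτ
        have hτ' : 0 < τ := hτ
        apply mul_nonneg (wt_pos ρ hτ').le
        unfold br
        apply add_nonneg
        · apply Finset.sum_nonneg
          intro i _
          apply Dv_nonneg (bb_pos hτ') (bb_lt_one hτ').le hc1.le hc1.le (h.diag_le_one i)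
          exact mul_self_nonneg _
        · exact mul_nonneg (by positivity) h.xi_nonneg
      · intro k _
        exact mul_self_nonneg _
      · intro k hk hk2
        left
        have hk3 : 1 / (k : ℝ) = 1 / m := by rcases hk2 with h | h <;> exact h
        have hk0 : (0 : ℝ) < k := by exact_mod_cast hk
        have : (k : ℝ) = m := by
          field_simp at hk3
          linarith
        exact_mod_cast this
    · refine ⟨1 / (m + 1), 1 / m, ha0, ha1, hc0, hc1, ?_, ?_, ?_, ?_⟩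
      · intro b hb0 hb1
        exact valN_ker hm hN hb0
      · have i1 := (int_A h0 h1).mul_const (X0 m Q)
        have i2 := (int_B h0 h1).mul_const (X1 m Q)
        have i3 := (int_C h0 h1).mul_const (X2 m Q)
        have i12 : IntegrableOn (fun τ => wt ρ τ * (bb τ * (1 - bb τ)) * X0 m Q +
          wt ρ τ * (bb τ * (1 - bb τ) * (1 - bb τ)) * X1 m Q) (Set.Ioi 0) := i1.add i2
        have i123 : IntegrableOn (fun τ => wt ρ τ * (bb τ * (1 - bb τ)) * X0 m Q +
          wt ρ τ * (bb τ * (1 - bb τ) * (1 - bb τ)) * X1 m Q +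
          wt ρ τ * (bb τ ^ 2) * X2 m Q) (Set.Ioi 0) := i12.add i3
        have hX := h.X_nonneg hm (mA_pos h0 h1) (mB := mB ρ) (mC := mC ρ)
          (by
            have := moment_B h0 h1
            have := mA_pos h0 h1
            nlinarith)
          (by
            have h2 := moment_C h0 h1
            have h3 := mA_pos h0 h1
            have h4 : 0 < (2 + ρ) * mA ρ := mul_pos (by linarith) h3
            rw [← h2] at h4
            exact (pos_iff_pos_of_mul_pos h4).1 (by linarith)) hc.1 hc.2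
        refine le_trans hX ?_
        have e1 : mA ρ * X0 m Q + mB ρ * X1 m Q + mC ρ * X2 m Q =
            ∫ τ in Set.Ioi 0, (wt ρ τ * (bb τ * (1 - bb τ)) * X0 m Q +
          wt ρ τ * (bb τ * (1 - bb τ) * (1 - bb τ)) * X1 m Q +
          wt ρ τ * (bb τ ^ 2) * X2 m Q) := by
          rw [integral_add i12 i3, integral_add i1 i2, integral_mul_const, integral_mul_const,
            integral_mul_const]
          rfl
        rw [e1]
        apply setIntegral_mono_on i123
          (integrableOn_wt_mul h0 h1 _ (contOn_br h hx ha0 ha1 hc0 hc1)) measurableSet_Ioi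
        intro τ hτ
        have hτ' : 0 < τ := hτ
        have h2 := h.bracket_ge hm (bb_pos hτ') (bb_lt_one hτ').le
        have h3 := mul_le_mul_of_nonneg_left h2 (wt_pos ρ hτ').le
        have e2 : wt ρ τ * (bb τ * (1 - bb τ)) * X0 m Q +
          wt ρ τ * (bb τ * (1 - bb τ) * (1 - bb τ)) * X1 m Q +
          wt ρ τ * (bb τ ^ 2) * X2 m Q = wt ρ τ * (bb τ * (1 - bb τ) * X0 m Q +
          bb τ * (1 - bb τ) * (1 - bb τ) * X1 m Q + bb τ ^ 2 * X2 m Q) := by ring
        rw [e2]
        exact h3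
      · intro k hk
        exact recip_prod_nonneg (by omega) hk
      · intro k hk hk2
        have hk0 : (0 : ℝ) < k := by exact_mod_cast hk
        rcases hk2 with hk3 | hk3
        · right
          have : (k : ℝ) = m + 1 := by
            field_simp at hk3
            linarith
          exact_mod_cast this
        · left
          have : (k : ℝ) = m := by
            field_simp at hk3
            linarith
          exact_mod_cast this
  obtain ⟨a, c, ha0, ha1, hc0, hc1, hV, hbr, hprod, hsz⟩ := key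
  have hcore := core_bound h0 h1 h hx ht ha0 ha1 hc0 hc1 r hT
    (fun b => valN (Fintype.card ι) m r e (ker b)) hV hbr
  refine ⟨?_, ?_⟩
  · have := mul_nonneg hC.le hcore.1
    linarith
  · intro hle
    have hle2 : (∫ τ in Set.Ioi 0, wt ρ τ * (pairSum (ker (bb τ)) x -
        valN (Fintype.card ι) m r e (ker (bb τ)))) ≤ 0 := by
      by_contra hcon
      push Not at hcon
      have := mul_pos hC hcon
      linarith
    obtain ⟨⟨τ, hτ, hgap⟩, hsum, htr, hbr0⟩ := hcore.2 hle2
    have hb0 := bb_pos hτ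
    have hb1 := bb_lt_one hτ
    have htb : ∀ i j, i ≠ j → bb τ * inner ℝ (x i) (x j) < 1 := by
      intro i j hij
      have := ht i j hij
      nlinarith
    obtain ⟨cl, hcl, hq⟩ := structure_main h hx hb0 hb1.le htb hgap hsum r htr
    obtain ⟨_, hQQ, _, _⟩ := structure_aux h hx hb0 hb1.le htb hgap hsum
    have hxi := xi_zero_of_structure hQQ
    have hk1 : ∀ i, 1 ≤ csize cl (cl i) := fun i => le_trans (by norm_num) (hcl.1 (cl i))
    -- zero of the bracket
    obtain ⟨τ', hτ', hbz⟩ := exists_zero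
      (integrableOn_wt_mul h0 h1 _ (contOn_br h hx ha0 ha1 hc0 hc1)) (by
        intro τ hτ
        unfold br
        rw [hxi, mul_zero, add_zero]
        apply Finset.sum_nonneg
        intro i _
        apply Dv_nonneg (bb_pos hτ) (bb_lt_one hτ).le ha1.le hc1.le (h.diag_le_one i)
        rw [hq i]
        exact hprod _ (hk1 i)) hbr0
    unfold br at hbz
    rw [hxi, mul_zero, add_zero] at hbz
    have hDz : ∀ i, Dv (bb τ') a c (Q i i) = 0 := by
      intro i
      exact (Finset.sum_eq_zero_iff_of_nonneg (fun i _ => by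
        apply Dv_nonneg (bb_pos hτ') (bb_lt_one hτ').le ha1.le hc1.le (h.diag_le_one i)
        rw [hq i]
        exact hprod _ (hk1 i))).1 hbz i (Finset.mem_univ i)
    have hsizes : ∀ i, csize cl (cl i) = m ∨ csize cl (cl i) = m + 1 := by
      intro i
      apply hsz _ (hk1 i)
      rw [← hq i]
      exact Dv_zero_imp (bb_pos hτ') (bb_lt_one hτ') ha1 hc1 (h.diag_lt_one hx i) (hDz i)
    refine ⟨cl, hcl, ?_⟩
    intro a'
    rw [hdiv]
    have hpos : 0 < csize cl a' := lt_of_lt_of_le (by norm_num) (hcl.1 a')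
    unfold csize at hpos
    obtain ⟨i, hi⟩ := Finset.card_pos.1 hpos
    have : cl i = a' := (Finset.mem_filter.1 hi).2
    rw [← this]
    exact hsizes i

end general

end Pool.Agent.W2helper81.Riesz
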