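import Mathlib
import Pool.Agent.W2helper81.RieszFinal

set_option autoImplicit false
set_option linter.unusedSectionVars false

namespace Pool.Agent.W2helper81.Riesz

open scoped BigOperators
open Finset MeasureTheory

lemma neg_recip_lt_one {k : ℕ} (hk : 2 ≤ k) : -1 / ((k : ℝ) - 1) < 1 := by
  have h2 : (2 : ℝ) ≤ k := by exact_mod_cast hk
  have : -1 / ((k : ℝ) - 1) < 0 := div_neg_of_neg_of_pos (by norm_num) (by linarith)
  linarith

section

variable {ι : Type*} [Fintype ι] [DecidableEq ι]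
variable {E : Type*} [NormedAddCommGroup E] [InnerProductSpace ℝ E]
variable {x : ι → E}

lemma IsOrthSimplices.norm_eq {r : ℕ} {c : ι → Fin r} (h : IsOrthSimplices c x) (i : ι) :
    ‖x i‖ = 1 := by
  have h1 := h.2 i i
  rw [if_pos rfl, real_inner_self_eq_norm_sq] at h1
  nlinarith [norm_nonneg (x i)]

lemma IsOrthSimplices.injective {r : ℕ} {c : ι → Fin r} (h : IsOrthSimplices c x) :
    Function.Injective x := by
  intro i j hij
  by_contra hne
  have h1 := h.2 i j
  have h2 := h.2 j j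
  rw [hij, if_neg hne] at h1
  rw [h1, if_pos rfl] at h2
  have := neg_recip_lt_one (h.1 (c i))
  split_ifs at h2 <;> linarith

/-- the case `b = 1` -/
theorem two_bound [FiniteDimensional ℝ E] (hx : ∀ i, ‖x i‖ = 1)
    (ht : ∀ i j, i ≠ j → inner ℝ (x i) (x j) < (1 : ℝ))
    {r : ℕ} (hr : Fintype.card ι = Module.finrank ℝ E + r) :
    -(Fintype.card ι : ℝ) + r ≤ pairSum (ker 1) x ∧
    (pairSum (ker 1) x ≤ -(Fintype.card ι : ℝ) + r → ∃ c : ι → Fin r, IsOrthSimplices c x) := by
  obtain ⟨Q, h⟩ := exists_projData x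
  have hT : (r : ℝ) ≤ ∑ i, Q i i := by
    have h2 := h.tr
    have h3 : (Fintype.card ι : ℝ) = Module.finrank ℝ E + r := by exact_mod_cast hr
    linarith
  have ht' : ∀ i j, i ≠ j → (1 : ℝ) * inner ℝ (x i) (x j) < 1 := by
    intro i j hij; rw [one_mul]; exact ht i j hij
  have hg := gap_nonneg h hx one_pos le_rfl ht'
  have hpsi : ∀ q : ℝ, psi 1 q = q := by intro q; unfold psi rad; norm_num
  have e : gap 1 x Q = pairSum (ker 1) x - (-(Fintype.card ι : ℝ) + ‖∑ i, x i‖ ^ 2 +
      ∑ i, Q i i + 1 / 2 * xi Q) := by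
    unfold gap
    simp only [hpsi, one_pow]
  have hxi := h.xi_nonneg
  have hn := sq_nonneg (‖∑ i, x i‖)
  refine ⟨by linarith, fun hle => ?_⟩
  have z1 : gap 1 x Q = 0 := by linarith
  have z2 : ‖∑ i, x i‖ ^ 2 = 0 := by linarith
  have z3 : ∑ i, Q i i = r := by linarith
  have z4 : ∑ i, x i = 0 := norm_eq_zero.1 (pow_eq_zero_iff (two_ne_zero) |>.1 z2)
  obtain ⟨c, hc, _⟩ := structure_main h hx one_pos le_rfl ht' z1 z4 r z3
  exact ⟨c, hc⟩

lemma two_value {r : ℕ} {c : ι → Fin r} (h : IsOrthSimplices c x) :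
    pairSum (ker 1) x = -(Fintype.card ι : ℝ) + r := by
  classical
  rw [pairSum_orth h]
  have e1 : ∀ i, (((csize c (c i) : ℝ) - 1) * ker 1 (-1 / ((csize c (c i) : ℝ) - 1)) +
      ((Fintype.card ι : ℝ) - csize c (c i)) * ker 1 0) = 1 / (csize c (c i) : ℝ) - 1 := by
    intro i
    have h2 : (2 : ℝ) ≤ csize c (c i) := by exact_mod_cast h.1 (c i)
    have h3 : (csize c (c i) : ℝ) - 1 ≠ 0 := by linarith
    have h4 : (csize c (c i) : ℝ) ≠ 0 := by linarith
    unfold ker
    have e : 1 - 1 * (-1 / ((csize c (c i) : ℝ) - 1)) = csize c (c i) / (csize c (c i) - 1) := by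
      field_simp; ring
    rw [e]
    field_simp
    ring
  rw [Finset.sum_congr rfl (fun i _ => e1 i), sum_class c (fun k => 1 / (k : ℝ) - 1)]
  have e2 : ∀ a, (csize c a : ℝ) * (1 / (csize c a : ℝ) - 1) = 1 - csize c a := by
    intro a
    have h2 : (2 : ℝ) ≤ csize c a := by exact_mod_cast h.1 a
    have h4 : (csize c a : ℝ) ≠ 0 := by linarith
    field_simp
  rw [Finset.sum_congr rfl (fun a _ => e2 a), Finset.sum_sub_distrib, Finset.sum_const,
    Finset.card_univ, Fintype.card_fin, nsmul_eq_mul, mul_one, ← Nat.cast_sum, sum_csize]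
  ring

lemma main_value {r m e : ℕ} (hN : Fintype.card ι = r * m + e) (he : e < r)
    (hb : IsBalanced r x) (φ : ℝ → ℝ) :
    pairSum φ x = valN (Fintype.card ι) m r e φ := by
  obtain ⟨c, hc, hs⟩ := hb
  have hdiv : Fintype.card ι / r = m := by
    rw [hN, Nat.mul_add_div (by omega), Nat.div_eq_of_lt he, add_zero]
  rw [hdiv] at hs
  exact pairSum_balanced hc hN hs φ

end

/-- Existence of unions of orthogonal simplices with prescribed sizes. -/
lemma exists_orth (r D N : ℕ) (n : Fin r → ℕ) (hn : ∀ a, 2 ≤ n a) (hsum : ∑ a, n a = N)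
    (hD : N = D + r) : ∃ (c : Fin N → Fin r) (x : Fin N → EuclideanSpace ℝ (Fin D)),
      IsOrthSimplices c x ∧ ∀ a, csize c a = n a := by
  classical
  have hcard : Fintype.card (Σ a : Fin r, Fin (n a)) = N := by
    rw [Fintype.card_sigma]; simpa using hsum
  let eq : Fin N ≃ (Σ a : Fin r, Fin (n a)) := (Fintype.equivFinOfCardEq hcard).symm
  have hfib : ∀ a, (univ.filter (fun i : (Σ a : Fin r, Fin (n a)) => i.1 = a)).card = n a := by
    intro a
    rw [show (univ.filter (fun i : (Σ a : Fin r, Fin (n a)) => i.1 = a)) =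
      (univ : Finset (Fin (n a))).map ⟨fun j => ⟨a, j⟩, fun j j' h => by
        simpa using h⟩ from ?_]
    · simp
    · ext ⟨b, j⟩
      simp only [Finset.mem_filter, Finset.mem_univ, true_and, Finset.mem_map,
        Function.Embedding.coeFn_mk]
      constructor
      · rintro rfl
        exact ⟨j, rfl⟩
      · rintro ⟨j', hj'⟩
        exact (congrArg Sigma.fst hj').symm
  obtain ⟨y, hy⟩ := Pool.Agent.Helper328.SimplexExist.exists_simplices
    (ι := (Σ a : Fin r, Fin (n a))) (κ := Fin r) Sigma.fst n hfib hn D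
    (by rw [hcard, Fintype.card_fin]; exact hD)
  let c : Fin N → Fin r := fun i => (eq i).1
  have hsz : ∀ a, csize c a = n a := by
    intro a
    rw [← hfib a]
    unfold csize
    apply Finset.card_bij (fun i _ => eq i)
    · intro i hi
      rw [Finset.mem_filter] at hi ⊢
      exact ⟨Finset.mem_univ _, hi.2⟩
    · intro i _ j _ h
      exact eq.injective h
    · intro j hj
      refine ⟨eq.symm j, ?_, by simp⟩
      rw [Finset.mem_filter] at hj ⊢
      refine ⟨Finset.mem_univ _, ?_⟩
      simp only [c, Equiv.apply_symm_apply]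
      exact hj.2
  refine ⟨c, fun i => y (eq i), ⟨?_, ?_⟩, hsz⟩
  · intro a
    rw [hsz a]; exact hn a
  · intro i j
    rw [hy]
    rw [hsz]
    simp only [eq.injective.eq_iff, c]

/-- Existence of balanced unions. -/
lemma exists_balanced (r m e D N : ℕ) (hm : 2 ≤ m) (he : e < r) (hN : N = r * m + e)
    (hD : N = D + r) : ∃ x : Fin N → EuclideanSpace ℝ (Fin D), IsBalanced r x := by
  classical
  have hs : ∑ a : Fin r, (m + if (a : ℕ) < e then 1 else 0) = N := by
    rw [Finset.sum_add_distrib, Finset.sum_const, Finset.card_univ, Fintype.card_fin, smul_eq_mul,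
      ← Finset.card_filter]
    have : (univ.filter (fun a : Fin r => (a : ℕ) < e)).card = e := by
      rw [Fin.card_filter_val_lt]
      omega
    rw [this, hN]
  obtain ⟨c, x, hc, hsz⟩ := exists_orth r D N (fun a => m + if (a : ℕ) < e then 1 else 0)
    (fun a => by omega) hs hD
  refine ⟨x, c, hc, ?_⟩
  intro a
  have hdiv : Fintype.card (Fin N) / r = m := by
    rw [Fintype.card_fin, hN, Nat.mul_add_div (by omega), Nat.div_eq_of_lt he, add_zero]
  rw [hdiv, hsz]
  by_cases h : (a : ℕ) < e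
  · rw [if_pos h]; right; rfl
  · rw [if_neg h]; left; rfl

end Pool.Agent.W2helper81.Riesz
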