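import Mathlib
import Pool.Agent.W2helper81.RieszExist

set_option autoImplicit false
set_option linter.unusedSectionVars false

namespace Pool.Agent.W2helper81.RieszTwo

open scoped BigOperators
open Finset MeasureTheory
open Pool.Agent.W2helper81.Riesz

/-- The Riesz `s`-energy: the sum of `‖x i - x j‖ ^ (-s)` over the ordered pairs of distinct
indices. -/
noncomputable def energy (s : ℝ) {N D : ℕ} (x : Fin N → EuclideanSpace ℝ (Fin D)) : ℝ :=
  ∑ i, ∑ j ∈ univ.erase i, ‖x i - x j‖ ^ (-s)

/-- `x` lists `N` distinct points of the unit sphere of `ℝ^D`. -/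
def IsConfig {N D : ℕ} (x : Fin N → EuclideanSpace ℝ (Fin D)) : Prop :=
  (∀ i, ‖x i‖ = 1) ∧ Function.Injective x

/-- `x` has least Riesz `s`-energy among all configurations of `N` distinct points of the unit
sphere of `ℝ^D`. -/
def IsMinimizer (s : ℝ) {N D : ℕ} (x : Fin N → EuclideanSpace ℝ (Fin D)) : Prop :=
  IsConfig x ∧ ∀ y : Fin N → EuclideanSpace ℝ (Fin D), IsConfig y → energy s x ≤ energy s y

/-- `x` is the union of the vertex sets of two mutually orthogonal regular simplices with `k` and
`l` vertices: the indices split into a set `A` of `k` and its complement of `l` elements, the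
inner product of two distinct points is `-1/(k-1)` inside `A`, `-1/(l-1)` inside the complement,
`0` across, and all the points are unit vectors. -/
def TwoSimplices (k l : ℕ) {N D : ℕ} (x : Fin N → EuclideanSpace ℝ (Fin D)) : Prop :=
  ∃ A : Finset (Fin N), A.card = k ∧ Aᶜ.card = l ∧ ∀ i j, inner ℝ (x i) (x j) =
    if i = j then (1 : ℝ) else if i ∈ A ∧ j ∈ A then -1 / ((k : ℝ) - 1)
    else if i ∉ A ∧ j ∉ A then -1 / ((l : ℝ) - 1) else 0

variable {N D : ℕ} {x : Fin N → EuclideanSpace ℝ (Fin D)}

lemma energy_eq (s : ℝ) (hx : IsConfig x) :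
    energy s x = 2 ^ (-(s / 2)) * pairSum (fun t => (1 - t) ^ (-(s / 2))) x := by
  unfold energy pairSum
  rw [Finset.mul_sum]
  apply Finset.sum_congr rfl
  intro i _
  rw [Finset.mul_sum]
  apply Finset.sum_congr rfl
  intro j hj
  have hij : i ≠ j := (Finset.ne_of_mem_erase hj).symm
  have h1 := inner_lt_one_of_ne hx.1 hx.2 i j hij
  have h2 : ‖x i - x j‖ ^ 2 = 2 * (1 - inner ℝ (x i) (x j)) := by
    rw [norm_sub_sq_real, hx.1 i, hx.1 j]; ring
  have h3 : ‖x i - x j‖ ^ (-s) = (‖x i - x j‖ ^ 2) ^ (-(s / 2)) := by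
    rw [← Real.rpow_natCast_mul (norm_nonneg _)]
    congr 1
    push_cast
    ring
  rw [h3, h2, Real.mul_rpow (by norm_num) (by linarith)]

lemma two_swap {k l : ℕ} (h : TwoSimplices k l x) : TwoSimplices l k x := by
  obtain ⟨A, h1, h2, h3⟩ := h
  refine ⟨Aᶜ, h2, by rw [compl_compl]; exact h1, ?_⟩
  intro i j
  rw [h3]
  simp only [Finset.mem_compl, not_not]
  split_ifs with a b c d <;> first | rfl | (exfalso; tauto)

lemma fin2_cases {c : Fin N → Fin 2} (i : Fin N) : c i = 0 ∨ c i = 1 := by
  have := (c i).2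
  rcases h : c i with ⟨v, hv⟩
  interval_cases v
  · left; rfl
  · right; rfl

lemma two_of_orth {c : Fin N → Fin 2} (h : IsOrthSimplices c x) :
    TwoSimplices (csize c 0) (csize c 1) x := by
  refine ⟨univ.filter (fun i => c i = 0), rfl, ?_, ?_⟩
  · unfold csize
    congr 1
    ext i
    simp only [Finset.mem_compl, Finset.mem_filter, Finset.mem_univ, true_and]
    rcases fin2_cases (c := c) i with hi | hi <;> rw [hi] <;> simp
  · intro i j
    rw [h.2 i j]
    simp only [Finset.mem_filter, Finset.mem_univ, true_and]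
    by_cases hij : i = j
    · rw [if_pos hij, if_pos hij]
    · rw [if_neg hij, if_neg hij]
      rcases fin2_cases (c := c) i with hi | hi <;> rcases fin2_cases (c := c) j with hj | hj <;>
        rw [hi, hj] <;> simp

lemma orth_of_two {k l : ℕ} (h : TwoSimplices k l x) (hk : 2 ≤ k) (hl : 2 ≤ l) :
    ∃ c : Fin N → Fin 2, IsOrthSimplices c x ∧ csize c 0 = k ∧ csize c 1 = l := by
  obtain ⟨A, h1, h2, h3⟩ := h
  let c : Fin N → Fin 2 := fun i => if i ∈ A then 0 else 1
  have hc0 : ∀ i, c i = 0 ↔ i ∈ A := by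
    intro i
    simp only [c]
    split_ifs with hi <;> simp [hi]
  have hc1 : ∀ i, c i = 1 ↔ i ∉ A := by
    intro i
    simp only [c]
    split_ifs with hi <;> simp [hi]
  have s0 : csize c 0 = k := by
    unfold csize
    rw [← h1]
    congr 1
    ext i
    simp only [Finset.mem_filter, Finset.mem_univ, true_and]
    exact hc0 i
  have s1 : csize c 1 = l := by
    unfold csize
    rw [← h2]
    congr 1
    ext i
    simp only [Finset.mem_filter, Finset.mem_univ, true_and, Finset.mem_compl]
    exact hc1 i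
  refine ⟨c, ⟨?_, ?_⟩, s0, s1⟩
  · intro a
    rcases (show a = 0 ∨ a = 1 by omega) with ha | ha <;> subst ha
    · rw [s0]; exact hk
    · rw [s1]; exact hl
  · intro i j
    rw [h3]
    by_cases hij : i = j
    · rw [if_pos hij, if_pos hij]
    rw [if_neg hij, if_neg hij]
    by_cases hi : i ∈ A <;> by_cases hj : j ∈ A
    · have e1 := (hc0 i).2 hi
      have e2 := (hc0 j).2 hj
      rw [e1, e2, s0]
      simp [hi, hj]
    · have e1 := (hc0 i).2 hi
      have e2 := (hc1 j).2 hj
      rw [e1, e2]
      simp [hi, hj]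
    · have e1 := (hc1 i).2 hi
      have e2 := (hc0 j).2 hj
      rw [e1, e2]
      simp [hi, hj]
    · have e1 := (hc1 i).2 hi
      have e2 := (hc1 j).2 hj
      rw [e1, e2, s1]
      simp [hi, hj]

lemma balanced_iff {d : ℕ} (hd : 1 ≤ d) {x : Fin (d + 3) → EuclideanSpace ℝ (Fin D)} :
    IsBalanced 2 x ↔ TwoSimplices ((d + 3) / 2) ((d + 4) / 2) x := by
  constructor
  · rintro ⟨c, hc, hs⟩
    have h1 := two_of_orth hc
    have h2 := sum_csize c
    rw [Fin.sum_univ_two, Fintype.card_fin] at h2
    have h3 := hs 0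
    have h4 := hs 1
    rw [Fintype.card_fin] at h3 h4
    rcases h3 with h3 | h3
    · have e1 : csize c 1 = (d + 4) / 2 := by omega
      rw [h3, e1] at h1
      exact h1
    · have e1 : csize c 1 = (d + 3) / 2 := by omega
      have e2 : csize c 0 = (d + 4) / 2 := by omega
      rw [e1, e2] at h1
      exact two_swap h1
  · intro h
    obtain ⟨c, hc, h0, h1⟩ := orth_of_two h (by omega) (by omega)
    refine ⟨c, hc, ?_⟩
    intro a
    rw [Fintype.card_fin]
    rcases (show a = 0 ∨ a = 1 by omega) with ha | ha <;> subst ha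
    · rw [h0]; left; rfl
    · rw [h1]; omega

end Pool.Agent.W2helper81.RieszTwo
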