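import Mathlib
import Pool.Agent.W2helper81.RieszExist

set_option autoImplicit false
set_option linter.unusedSectionVars false

namespace Pool.Agent.W2helper81.Riesz

lemma kap_nonneg {m : ℕ} (hm : 2 ≤ m) : 0 ≤ kap m := by
  have hm2 : (2 : ℝ) ≤ m := by exact_mod_cast hm
  unfold kap
  apply div_nonneg (by linarith) (sq_nonneg _)

lemma kap_le_two {m : ℕ} (hm : 3 ≤ m) : kap m ≤ 2 := by
  have hm3 : (3 : ℝ) ≤ m := by exact_mod_cast hm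
  unfold kap
  have : 0 < ((m : ℝ) - 1) ^ 2 := pow_pos (by linarith) 2
  rw [div_le_iff₀ this]
  nlinarith

lemma kap_le_four {m : ℕ} (hm : 4 ≤ m) : kap m ≤ 11 / 9 := by
  have hm3 : (4 : ℝ) ≤ m := by exact_mod_cast hm
  unfold kap
  have : 0 < ((m : ℝ) - 1) ^ 2 := pow_pos (by linarith) 2
  rw [div_le_iff₀ this]
  nlinarith

/-- abstract verification of the condition -/
lemma cond_abs {ρ k1 k2 M : ℝ} (h1 : ρ < 1)
    (hc1 : k1 * (2 * (1 - ρ) * k2 + (2 + ρ)) ≤ (M + 1) * k2 * (2 + ρ))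
    (hc2 : k1 * (2 * (1 - ρ)) ≤ M * (2 + ρ)) :
    k1 * (k2 + (2 + ρ) / (2 * (1 - ρ))) ≤ (M + 1) * (k2 * ((2 + ρ) / (2 * (1 - ρ)))) ∧
    k1 ≤ M * ((2 + ρ) / (2 * (1 - ρ))) := by
  have h2 : 0 < 2 * (1 - ρ) := by linarith
  constructor
  · have e1 : k1 * (k2 + (2 + ρ) / (2 * (1 - ρ))) =
        (k1 * (2 * (1 - ρ) * k2 + (2 + ρ))) / (2 * (1 - ρ)) := by
      have h3 : 1 - ρ ≠ 0 := by linarith
      field_simp
    have e2 : (M + 1) * (k2 * ((2 + ρ) / (2 * (1 - ρ)))) = ((M + 1) * k2 * (2 + ρ)) / (2 * (1 - ρ)) := by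
      ring
    rw [e1, e2]
    exact div_le_div_of_nonneg_right hc1 h2.le
  · rw [mul_div_assoc', le_div_iff₀ h2]
    exact hc2

lemma cond_pos {ρ : ℝ} {m : ℕ} (h0 : 0 ≤ ρ) (h1 : ρ < 1) (hm : 3 ≤ m) : Cond ρ m := by
  have hm3 : (3 : ℝ) ≤ m := by exact_mod_cast hm
  have hk0 := kap_nonneg (m := m) (by omega)
  have hk := kap_le_two hm
  obtain ⟨k1, hk1⟩ : ∃ k1, k1 = 1 + kap m * ((2 - ρ) / 4) := ⟨_, rfl⟩
  obtain ⟨k2, hk2⟩ : ∃ k2, k2 = 1 + 2 / ((m : ℝ) + 1) * ((2 - ρ) / 4) := ⟨_, rfl⟩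
  have hk2' : 1 ≤ k2 := by
    have : 0 ≤ 2 / ((m : ℝ) + 1) * ((2 - ρ) / 4) := mul_nonneg (by positivity) (by linarith)
    linarith
  have hk1' : k1 ≤ (4 - ρ) / 2 := by
    have : kap m * ((2 - ρ) / 4) ≤ 2 * ((2 - ρ) / 4) := mul_le_mul_of_nonneg_right hk (by linarith)
    rw [hk1]; linarith
  have hk10 : 0 ≤ k1 := by
    have : 0 ≤ kap m * ((2 - ρ) / 4) := mul_nonneg hk0 (by linarith)
    rw [hk1]; linarith
  have hA := cond_abs (ρ := ρ) (k1 := k1) (k2 := k2) (M := m) h1 (by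
    have hX : 0 ≤ 2 * (1 - ρ) * k2 + (2 + ρ) := by
      have : 0 ≤ 2 * (1 - ρ) * k2 := mul_nonneg (by linarith) (by linarith)
      linarith
    have a1 : k1 * (2 * (1 - ρ) * k2 + (2 + ρ)) ≤ (4 - ρ) / 2 * (2 * (1 - ρ) * k2 + (2 + ρ)) :=
      mul_le_mul_of_nonneg_right hk1' hX
    have a2 : 4 * k2 * (2 + ρ) ≤ ((m : ℝ) + 1) * k2 * (2 + ρ) :=
      mul_le_mul_of_nonneg_right (mul_le_mul_of_nonneg_right (by linarith) (by linarith))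
        (by linarith)
    have a3 : (4 - ρ) / 2 * (2 * (1 - ρ) * k2 + (2 + ρ)) ≤ 4 * k2 * (2 + ρ) := by
      have e : 4 * k2 * (2 + ρ) - (4 - ρ) / 2 * (2 * (1 - ρ) * k2 + (2 + ρ)) =
          (k2 - 1) * (4 + 9 * ρ - ρ ^ 2) + (8 * ρ - ρ ^ 2 / 2) := by ring
      have f1 : 0 ≤ 4 + 9 * ρ - ρ ^ 2 := by nlinarith
      have f2 : 0 ≤ 8 * ρ - ρ ^ 2 / 2 := by nlinarith
      have f3 : 0 ≤ (k2 - 1) * (4 + 9 * ρ - ρ ^ 2) := mul_nonneg (by linarith) f1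
      linarith
    linarith) (by
    have a1 : k1 * (2 * (1 - ρ)) ≤ (4 - ρ) / 2 * (2 * (1 - ρ)) :=
      mul_le_mul_of_nonneg_right hk1' (by linarith)
    have a2 : 3 * (2 + ρ) ≤ (m : ℝ) * (2 + ρ) := mul_le_mul_of_nonneg_right hm3 (by linarith)
    nlinarith)
  apply cond_of (by linarith) h1
  · rw [← hk1, ← hk2]; exact hA.1
  · rw [← hk1]; exact hA.2

lemma cond_half {m : ℕ} (hm : 4 ≤ m) : Cond (-(1 / 2)) m := by
  have hm4 : (4 : ℝ) ≤ m := by exact_mod_cast hm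
  have hk0 := kap_nonneg (m := m) (by omega)
  have hk := kap_le_four hm
  obtain ⟨k1, hk1⟩ : ∃ k1, k1 = 1 + kap m * ((2 - -(1 / 2 : ℝ)) / 4) := ⟨_, rfl⟩
  obtain ⟨k2, hk2⟩ : ∃ k2, k2 = 1 + 2 / ((m : ℝ) + 1) * ((2 - -(1 / 2 : ℝ)) / 4) := ⟨_, rfl⟩
  have hmk2 : ((m : ℝ) + 1) * k2 = m + 9 / 4 := by
    rw [hk2]; field_simp; ring
  have hk2' : k2 ≤ 5 / 4 := by
    have e : k2 = (m + 9 / 4) / (m + 1) := by
      rw [eq_div_iff (by linarith), ← hmk2]; ring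
    rw [e, div_le_iff₀ (by linarith)]
    linarith
  have hk20 : 0 ≤ k2 := by
    rw [hk2]; positivity
  have hk1' : k1 ≤ 127 / 72 := by
    rw [hk1]; linarith
  have hk10 : 0 ≤ k1 := by rw [hk1]; positivity
  have hA := cond_abs (ρ := -(1 / 2)) (k1 := k1) (k2 := k2) (M := m) (by norm_num) (by
    have a1 : k1 * (2 * (1 - -(1 / 2 : ℝ)) * k2 + (2 + -(1 / 2))) ≤
        127 / 72 * (2 * (1 - -(1 / 2 : ℝ)) * (5 / 4) + (2 + -(1 / 2))) := by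
      apply mul_le_mul hk1' _ _ (by norm_num)
      · linarith
      · linarith
    rw [hmk2]
    nlinarith) (by nlinarith)
  apply cond_of (by norm_num) (by norm_num)
  · rw [← hk1, ← hk2]; exact hA.1
  · rw [← hk1]; exact hA.2

end Pool.Agent.W2helper81.Riesz
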